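import Pool.Agent.H10.OP.Defs

/-!
# OPS: the Capelli type lemma for the variables of `Z` (from `H33.OPC.CapD`)
-/

set_option autoImplicit false
set_option linter.unusedSectionVars false

open MvPolynomial

namespace Pool.Agent.H10.OP

open Pool.Agent.H27.OP Pool.Agent.H20.S3

variable {σ k : Type*} [Fintype σ] [Field k]
variable {F : Type*} [AddCommGroup F] [Module k F] {d : ℕ}
variable {S : Fk σ k (Module.End k F) d}
variable {XF : Type*} [AddCommGroup XF] [Module k XF] (Y : Xt S XF)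
variable {Z : Finset σ} {e : ℕ}

open Classical in
/-- the Capelli data of the variables of `Z` -/
noncomputable def capD (hd : d = e + 1) (Z : Finset σ) :
    H33.OPC.CapD (fun x y : {x : σ // x ∈ Z} => S.D (X x.1) y.1) Y.j where
  R x := Y.S'.Rx e x.1
  T x := Y.S'.Tz e x.1
  H x y := Y.S'.Hx e x.1 y.1
  RT x y := Y.S'.Rx_Tz' hd x.1 y.1
  HT x y z := by
    rw [Y.S'.Hx_Tz hd x.1 y.1 z.1]
    simp only [Subtype.ext_iff]
  Rj x w := Rx_j Y e x.1 w
  Hj x y w := Hx_j Y e x.1 y.1 w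

open Classical in
lemma capD_Tl (hd : d = e + 1) (L : List {x : σ // x ∈ Z}) :
    (capD Y hd Z).Tl L = Y.S'.Tl e (L.map Subtype.val) := by
  induction L with
  | nil => rfl
  | cons x L ih =>
    rw [H33.OPC.CapD.Tl, List.map_cons, Fx.Tl, ih]
    rfl

open Classical in
lemma capD_Rl (hd : d = e + 1) (L : List {x : σ // x ∈ Z}) :
    (capD Y hd Z).Rl L = Y.S'.Rl e (L.map Subtype.val) := by
  induction L with
  | nil => rfl
  | cons x L ih =>
    rw [H33.OPC.CapD.Rl, List.map_cons, Fx.Rl, ih]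
    rfl

theorem capZ [CharZero k] (hd : d = e + 1) {W : Submodule k F}
    (hW : ∀ x ∈ Z, ∀ y ∈ Z, ∀ w ∈ W, S.D (X x) y w ∈ W) {κ : F} {w : σ → ℕ} (L : List σ)
    (hLZ : ∀ x ∈ L, x ∈ Z) (hw : ∀ x ∈ L, S.D (X x) x κ = (w x : k) • κ) (hn : L.Nodup)
    (hp : L.Pairwise fun x y => S.D (X x) y κ ∈ W) (hne : ∀ z ∈ L, w z ≠ 0)
    (h : Y.pr (Y.S'.Rl e L (Y.S'.Tl e L (Y.j κ))) ∈ W) : κ ∈ W := by
  classical
  obtain ⟨L', rfl⟩ : ∃ L' : List {x : σ // x ∈ Z}, L = L'.map Subtype.val :=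
    ⟨L.attachWith _ hLZ, (List.attachWith_map_subtype_val _).symm⟩
  refine (capD Y hd Z).capelli (W := W) (fun x y w hw => hW x.1 x.2 y.1 y.2 w hw) Y.pr Y.pr_j
    (κ := κ) (w := fun x => w x.1) L' ?_ ?_ ?_ ?_ ?_
  · intro x hx
    exact hw x.1 (List.mem_map_of_mem hx)
  · exact List.Nodup.of_map _ hn
  · exact List.pairwise_map.mp hp
  · intro z hz
    exact hne z.1 (List.mem_map_of_mem hz)
  · rw [capD_Tl, capD_Rl]
    exact h

end Pool.Agent.H10.OP
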