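import Pool.Agent.H10.OP.Step
import Pool.Agent.H33.OP.Chain

/-!
# OPS-F: the chain of rows, contradiction with `H33.OPA.no_rows`
-/

set_option autoImplicit false
set_option linter.unusedSectionVars false

open MvPolynomial

namespace Pool.Agent.H10.OP

open Pool.Agent.H27.OP Pool.Agent.H20.S3 Pool.Agent.H20.OPF

variable {σ k : Type*} [Fintype σ] [Field k]
variable {F : Type*} [AddCommGroup F] [Module k F] {d : ℕ}
variable {S : Fk σ k (Module.End k F) d} (A : Gr S)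
variable {XF : Type*} [AddCommGroup XF] [Module k XF] (Y : Xt S XF)
variable {c : σ} {Z : Finset σ} {s i : ℕ}

include A Y

theorem chain [CharZero k] (hd : 2 ≤ d) (hc : c ∉ Z) (hgen : Gener S A c) (hs : 2 ≤ s)
    (hsi : s + i + 3 ≤ 3 * d) {K : Submodule k F}
    (hK : Clo S A c Z s i (2 * d) (6 * (d : ℤ) - 6 - 2 * s - i) K) :
    Gam S A c Z s i (2 * d) ≤ K := by
  classical
  obtain ⟨e, he⟩ : ∃ e, d = e + 1 := ⟨d - 1, by omega⟩
  by_contra hbad
  refine H33.OPC.chain d s i hd hs hsi (fun j a b => ∃ (Z' : Finset σ) (K' : Submodule k F),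
    c ∉ Z' ∧ Clo S A c Z' a b (2 * d - j) (6 * (d : ℤ) - 6 - 2 * s - i - j) K' ∧
      ¬ Gam S A c Z' a b (2 * d - j) ≤ K') ?_ ?_ ⟨Z, K, hc, ?_, ?_⟩
  · rintro j a b hj ⟨Z', K', hc', hC, hnot⟩ hab
    obtain ⟨m, hm⟩ : ∃ m, 2 * d - j = m + 1 := ⟨2 * d - j - 1, by omega⟩
    rw [hm] at hC hnot
    obtain ⟨Z'', hZ'', q, hq, hin, hq1, hex⟩ := step A Y he hc' hgen hC hnot
    have hq1' := hq1 hab
    have hm' : ((m : ℤ) + 1) = 2 * d - j := by
      clear hex hq1
      omega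
    have hq2 : 2 ≤ q + 1 := by
      clear hex hq1
      omega
    refine ⟨q + 1, hq2, ?_, ?_⟩
    · clear hex hq1
      have h2 : ((q + 1 : ℕ) : ℤ) = (q : ℤ) + 1 := by push_cast; ring
      rw [h2]
      linarith
    · intro hg
      have hg' : a + b ≤ q + 1 + m := by
        clear hex hq1
        omega
      obtain ⟨s', i', v, K'', hv, h1, h2, hC', hnot'⟩ := hex hg'
      have e0 : q - v + v + 1 = q + 1 ∧ q - v ≤ a ∧ v ≤ b ∧ a - (q - v) = s' ∧ b - v = i' ∧
          2 * d - (j + 1) = m := by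
        clear hex hin hC hnot hC' hnot'
        omega
      obtain ⟨g1, g2, g3, e1, e2, e3⟩ := e0
      have e4 : 6 * (d : ℤ) - 6 - 2 * s - i - ((j + 1 : ℕ) : ℤ)
          = 6 * (d : ℤ) - 6 - 2 * s - i - j - 1 := by push_cast; ring
      refine ⟨q - v, v, g1, g2, g3, Z'', K'', fun h => hc' (hZ'' h), ?_, ?_⟩
      · rw [e1, e2, e3, e4]
        exact hC'
      · rw [e1, e2, e3]
        exact hnot'
  · rintro j a b ⟨Z', K', hc', hC, hnot⟩ hab
    by_contra hj
    obtain ⟨rfl, rfl⟩ : a = 0 ∧ b = 0 := by omega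
    exact hnot (zero_letters A hc' (by omega) hC)
  · simpa using hK
  · simpa using hbad

/-- **the shape theorem** -/
theorem shape [CharZero k] (hd : 2 ≤ d) (c : σ) (hgen : Gener S A c) : ShapeStatement A c := by
  classical
  intro s i hs hsi N h1 h2 h3
  rw [← Gam_univ]
  have hz : ∀ x, x ∈ Finset.univ.erase c ↔ x ≠ c := by
    intro x
    simp
  refine chain A Y hd (by simp) hgen hs hsi ⟨?_, ?_, ?_⟩
  · intro κ hκ x hx w hw hD
    rw [Gam_univ] at hκ
    refine h2 κ hκ x ((hz x).mp hx) w ?_ hD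
    omega
  · intro m' hm' κ hκ μ hμ hμZ
    obtain rfl : m' = d := by omega
    rw [Gam_univ] at hκ
    refine h3 _ (isHomogeneous_monomial _ (mem_Mo.mp hμ)) ?_ κ hκ
    rw [pderiv_monomial, hμZ c (by simp), Nat.cast_zero, mul_zero, monomial_zero]
  · intro κ _ hκ x hx y hy
    exact h1 x y ((hz x).mp hx) ((hz y).mp hy) κ hκ

end Pool.Agent.H10.OP
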