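import Pool.Agent.H20.OPF.Defs
import Pool.Agent.H27.OP.InstX
import Pool.Agent.H33.OP.AbsCap
import Pool.Agent.H33.OPArith

set_option autoImplicit false
set_option linter.unusedSectionVars false

/-!
# Ottaviani-Paoletti: the shape theorem (part (S) of note 1728), definitions

Everything lives in the Fock space `F` of the letters `μ`, `|μ| = d`, in the variables `σ`; `c : σ`
is a distinguished variable and `Z : Finset σ` (always with `c ∉ Z`) the set of allowed variables.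
Letters `μ` with `μ c = 0` are letters of degree `d` in the variables `Z`, letters with `μ c = 1`
(`c` times a monomial of degree `d - 1`) play the role of letters of degree `d - 1`.
`SG Z s i m` : `s` letters of the first kind, `i` of the second kind, polynomial coefficients of
degree `m` in the variables `Z`.  `Gam Z s i m`: the cycles in `SG Z s i m`.
-/

open MvPolynomial

namespace Pool.Agent.H10.OP

open Pool.Agent.H27.OP Pool.Agent.H20.S3

variable {σ k : Type*} [Fintype σ] [Field k]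

/-- allowed letters -/
def Good (c : σ) (Z : Finset σ) (μ : σ →₀ ℕ) : Prop :=
  μ c ≤ 1 ∧ ∀ x, x ≠ c → x ∉ Z → μ x = 0

variable {F : Type*} [AddCommGroup F] [Module k F] {d : ℕ}

/-- `s` letters of degree `d`, `i` letters `c · (degree d - 1)`, coefficients of degree `m`, all in
the variables `Z` -/
def SG (S : Fk σ k (Module.End k F) d) (A : Gr S) (c : σ) (Z : Finset σ) (s i m : ℕ) :
    Submodule k F where
  carrier := {κ | κ ∈ A.G (s + i) m ∧ (∀ x, x ∉ Z → S.T x κ = 0) ∧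
    (∀ μ ∈ Mo σ d, ¬ Good c Z μ → S.J μ κ = 0) ∧ S.D (X c) c κ = (i : k) • κ}
  add_mem' := by
    rintro x y ⟨h1, h2, h3, h4⟩ ⟨g1, g2, g3, g4⟩
    refine ⟨add_mem h1 g1, fun z hz => by rw [map_add, h2 z hz, g2 z hz, add_zero],
      fun μ hμ hg => by rw [map_add, h3 μ hμ hg, g3 μ hμ hg, add_zero], ?_⟩
    rw [map_add, h4, g4, smul_add]
  zero_mem' := ⟨zero_mem _, fun _ _ => map_zero _, fun _ _ _ => map_zero _, by simp⟩
  smul_mem' := by
    rintro t x ⟨h1, h2, h3, h4⟩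
    refine ⟨Submodule.smul_mem _ _ h1, fun z hz => by rw [map_smul, h2 z hz, smul_zero],
      fun μ hμ hg => by rw [map_smul, h3 μ hμ hg, smul_zero], ?_⟩
    rw [map_smul, h4, smul_comm]

lemma mem_SG {S : Fk σ k (Module.End k F) d} {A : Gr S} {c : σ} {Z : Finset σ} {s i m : ℕ}
    {κ : F} : κ ∈ SG S A c Z s i m ↔ κ ∈ A.G (s + i) m ∧ (∀ x, x ∉ Z → S.T x κ = 0) ∧
    (∀ μ ∈ Mo σ d, ¬ Good c Z μ → S.J μ κ = 0) ∧ S.D (X c) c κ = (i : k) • κ := Iff.rfl

/-- the cycles -/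
noncomputable def Gam (S : Fk σ k (Module.End k F) d) (A : Gr S) (c : σ) (Z : Finset σ) (s i m : ℕ) :
    Submodule k F := SG S A c Z s i m ⊓ LinearMap.ker S.del

lemma mem_Gam {S : Fk σ k (Module.End k F) d} {A : Gr S} {c : σ} {Z : Finset σ} {s i m : ℕ}
    {κ : F} : κ ∈ Gam S A c Z s i m ↔ κ ∈ SG S A c Z s i m ∧ S.del κ = 0 := by
  unfold Gam
  rw [Submodule.mem_inf, LinearMap.mem_ker]

/-- closure conditions for a subspace `K` -/
structure Clo (S : Fk σ k (Module.End k F) d) (A : Gr S) (c : σ) (Z : Finset σ) (s i m : ℕ)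
    (R : ℤ) (K : Submodule k F) : Prop where
  wt : ∀ κ ∈ Gam S A c Z s i m, ∀ x ∈ Z, ∀ w : ℕ, R < w → S.D (X x) x κ = (w : k) • κ → κ ∈ K
  ml : ∀ m', m = m' + d → ∀ κ ∈ Gam S A c Z s i m', ∀ μ ∈ Mo σ d, (∀ x, x ∉ Z → μ x = 0) →
    S.m (monomial μ 1) κ ∈ K
  op : ∀ κ ∈ Gam S A c Z s i m, κ ∈ K → ∀ x ∈ Z, ∀ y ∈ Z, S.D (X x) y κ ∈ K

/-- generation in coefficient degree at most the number of letters -/
def Gener (S : Fk σ k (Module.End k F) d) (A : Gr S) (c : σ) : Prop :=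
  ∀ (Z : Finset σ), c ∉ Z → ∀ (s i m : ℕ), s + i ≤ m → ∀ κ ∈ Gam S A c Z s i (m + 1),
    ∃ ζ : σ → F, (∀ x ∈ Z, ζ x ∈ Gam S A c Z s i m) ∧ κ = ∑ x ∈ Z, S.m (X x) (ζ x)

/-! ### the odd letter -/

/-- total `c`-degree of a list of slots -/
def cs (c : σ) (l : List (σ →₀ ℕ)) : ℕ := (l.map (fun ν => ν c)).sum

variable {S : Fk σ k (Module.End k F) d}
variable {XF : Type*} [AddCommGroup XF] [Module k XF]

/-- span of (product of `q` slots) times (element of `M s' i'`), of total type `(s, i)` -/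
def XM (Y : Xt S XF) (c : σ) (Z : Finset σ) (e : ℕ) (M : ℕ → ℕ → Submodule k F) (q s i : ℕ) :
    Submodule k XF :=
  Submodule.span k {ξ | ∃ l : List (σ →₀ ℕ), (∀ ν ∈ l, ν ∈ Mo σ e ∧ Good c Z ν) ∧ l.length = q ∧
    ∃ s' i' : ℕ, s' + q = s + cs c l ∧ i' + cs c l = i ∧ ∃ y ∈ M s' i', ξ = bl Y.S' l (Y.j y)}

/-- with arbitrary coefficients of degree `m` -/
noncomputable def XB (Y : Xt S XF) (A : Gr S) (c : σ) (Z : Finset σ) (e q s i m : ℕ) : Submodule k XF :=
  XM Y c Z e (fun s' i' => SG S A c Z s' i' m) q s i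

/-- with cycles as coefficients -/
noncomputable def XG (Y : Xt S XF) (A : Gr S) (c : σ) (Z : Finset σ) (e q s i m : ℕ) : Submodule k XF :=
  XM Y c Z e (fun s' i' => Gam S A c Z s' i' m) q s i

/-- `y ↦ R_L (τ b_l y)` -/
noncomputable def psi (Y : Xt S XF) (e : ℕ) (L : List σ) (l : List (σ →₀ ℕ)) : F →ₗ[k] F :=
  Y.pr ∘ₗ (Y.S'.Rl e L * Y.S'.th * bl Y.S' l) ∘ₗ Y.j

/-- the space of the `y` such that all `R_L (τ b_l y)`, `l` of length `q` and `c`-degree `v`, are in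
`K` -/
def Kp (Y : Xt S XF) (c : σ) (Z : Finset σ) (e : ℕ) (L : List σ) (q v : ℕ) (K : Submodule k F) :
    Submodule k F where
  carrier := {y | ∀ l : List (σ →₀ ℕ), (∀ ν ∈ l, ν ∈ Mo σ e ∧ Good c Z ν) → l.length = q →
    cs c l = v → psi Y e L l y ∈ K}
  add_mem' := by
    intro x y hx hy l h1 h2 h3
    rw [map_add]
    exact add_mem (hx l h1 h2 h3) (hy l h1 h2 h3)
  zero_mem' := by
    intro l _ _ _
    rw [map_zero]
    exact zero_mem _
  smul_mem' := by
    intro t x hx l h1 h2 h3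
    rw [map_smul]
    exact Submodule.smul_mem _ _ (hx l h1 h2 h3)

end Pool.Agent.H10.OP
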