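import Pool.Agent.H10.OP.Lf

/-!
# OPS-D: extremal weight vectors

PROOF. By `jeig` (`H27/OP/Wt.lean`) for the operators `D_{xx}`, all `x : σ`, on `Gam`, there is a
weight vector `κ ∈ Gam`, `κ ∉ K`.  Fix an injective `ρ : σ → ℕ` (e.g. from `Fintype.equivFin`) and
choose among all weight vectors of `Gam` not in `K` one with maximal `∑ x, ρ x * w x` (bounded since
`∑ w x = m + d (s + i)`, `wt_sum`).  For `x y ∈ Z`, `ρ y < ρ x`, `D_{xy} κ` is in `Gam`, it is a
weight vector with larger sum (or zero), so it is in `K`.  `L` = list of the `x ∈ Z` with `w x ≠ 0`,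
sorted by decreasing `ρ`.
-/

set_option autoImplicit false
set_option linter.unusedSectionVars false

open MvPolynomial

namespace Pool.Agent.H10.OP

open Pool.Agent.H27.OP Pool.Agent.H20.S3

variable {σ k : Type*} [Fintype σ] [Field k]
variable {F : Type*} [AddCommGroup F] [Module k F] {d : ℕ}
variable {S : Fk σ k (Module.End k F) d} (A : Gr S) {c : σ} {Z : Finset σ} {s i m : ℕ}

include A

/-- `D_{xx}` preserves `Gam` -/
lemma Gam_Dxx (hc : c ∉ Z) {κ : F} (h : κ ∈ Gam S A c Z s i m) (x : σ) :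
    S.D (X x) x κ ∈ Gam S A c Z s i m := by
  by_cases hx : x ∈ Z
  · exact Gam_D A hc h hx hx
  · by_cases hxc : x = c
    · subst hxc
      rw [h.1.2.2.2]
      exact Submodule.smul_mem _ _ h
    · have h1 : S.D (X x) x κ = 0 := by
        refine wt_of_T_J A (h.1.2.1 x hx) fun μ hμ h2 => h.1.2.2.1 μ hμ fun hg => ?_
        exact h2 (hg.2 x hxc hx)
      rw [h1]
      exact zero_mem _

/-- `Gam` is spanned by weight vectors -/
lemma Gam_span [CharZero k] (hc : c ∉ Z) : Gam S A c Z s i m ≤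
    Submodule.span k {v | v ∈ Gam S A c Z s i m ∧
      ∃ w : σ → ℕ, ∀ x, S.D (X x) x v = (w x : k) • v} := by
  have h1 := jeig (fun x : σ => S.D (X x) x) (Finset.univ : Finset σ).toList (Gam S A c Z s i m)
    (fun x _ w hw => Gam_Dxx A hc hw x)
    (fun x _ w hw => Dxx_LF A x hw.1.1) (fun x _ y _ => D_comm_diag x y)
  refine h1.trans (Submodule.span_mono ?_)
  rintro v ⟨hv, hv'⟩
  refine ⟨hv, ?_⟩
  choose w hw using fun x : σ => hv' x (by simp)
  exact ⟨w, hw⟩

/-- the weights of `D_{xy} κ` -/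
lemma D_wt (κ : F) {w : σ → ℕ} (hw : ∀ x, S.D (X x) x κ = (w x : k) • κ) {x y : σ} (hxy : x ≠ y)
    (hy : w y ≠ 0) [DecidableEq σ] (z : σ) : S.D (X z) z (S.D (X x) y κ)
      = ((if z = x then w x + 1 else if z = y then w y - 1 else w z : ℕ) : k) •
        S.D (X x) y κ := by
  have hX : ∀ x : σ, (X x : MvPolynomial σ k).IsHomogeneous 1 := fun x => isHomogeneous_X _ _
  have h0 : ∀ z : σ, S.D (0 : MvPolynomial σ k) z = 0 := by
    intro z
    have := S.D_smul 0 (0 : MvPolynomial σ k) z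
    simpa using this
  have h1 := congrArg (fun f : Module.End k F => f κ) (S.D_D (hX z) (hX x) z y)
  simp only [Module.End.mul_apply, LinearMap.add_apply, LinearMap.sub_apply] at h1
  rw [h1, hw z, map_smul]
  by_cases hzx : z = x
  · subst hzx
    rw [pderiv_X_self, mul_one, if_pos rfl, pderiv_X_of_ne hxy, mul_zero, h0, LinearMap.zero_apply,
      sub_zero, Nat.cast_add, Nat.cast_one, add_smul, one_smul]
  · rw [if_neg hzx, pderiv_X_of_ne (Ne.symm hzx), mul_zero, h0, LinearMap.zero_apply, add_zero]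
    by_cases hzy : z = y
    · subst hzy
      rw [if_pos rfl, pderiv_X_self, mul_one, Nat.cast_sub (Nat.one_le_iff_ne_zero.mpr hy),
        Nat.cast_one, sub_smul, one_smul]
    · rw [if_neg hzy, pderiv_X_of_ne hzy, mul_zero, h0, LinearMap.zero_apply, sub_zero]

theorem extremal [CharZero k] (hc : c ∉ Z) {K : Submodule k F}
    (hop : ∀ κ ∈ Gam S A c Z s i m, κ ∈ K → ∀ x ∈ Z, ∀ y ∈ Z, S.D (X x) y κ ∈ K)
    (hnot : ¬ Gam S A c Z s i m ≤ K) :
    ∃ κ ∈ Gam S A c Z s i m, κ ∉ K ∧ ∃ w : σ → ℕ, (∀ x, S.D (X x) x κ = (w x : k) • κ) ∧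
      ∃ L : List σ, L.Nodup ∧ (∀ x, x ∈ L ↔ x ∈ Z ∧ w x ≠ 0) ∧
        L.Pairwise (fun x y => S.D (X x) y κ ∈ K) ∧
        (L.map w).sum + i = m + d * (s + i) := by
  classical
  have hX : ∀ x : σ, (X x : MvPolynomial σ k).IsHomogeneous 1 := fun x => isHomogeneous_X _ _
  -- the weight functional
  obtain ⟨n, ⟨e⟩⟩ : ∃ n, Nonempty (σ ≃ Fin n) := ⟨Fintype.card σ, ⟨Fintype.equivFin σ⟩⟩
  let ρ : σ → ℕ := fun x => (e x).val
  have hρ : ∀ x y, ρ x = ρ y → x = y := fun x y h => e.injective (Fin.ext h)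
  -- the property
  let P : ℕ → Prop := fun t => ∃ κ ∈ Gam S A c Z s i m, κ ∉ K ∧
    ∃ w : σ → ℕ, (∀ x, S.D (X x) x κ = (w x : k) • κ) ∧ ∑ x, ρ x * w x = t
  have hne : ∀ κ : F, κ ∉ K → κ ≠ 0 := fun κ h h0 => h (h0 ▸ zero_mem _)
  have hbd : ∀ t, P t → t ≤ n * (m + d * (s + i)) := by
    rintro t ⟨κ, hκ, hκK, w, hw, rfl⟩
    rw [← wt_sum A hκ.1.1 (hne κ hκK) hw, Finset.mul_sum]
    refine Finset.sum_le_sum fun x _ => Nat.mul_le_mul_right _ (e x).isLt.le
  have hex : ∃ t, P t := by
    by_contra hno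
    refine hnot ((Gam_span A hc).trans (Submodule.span_le.mpr ?_))
    rintro v ⟨hv, w, hw⟩
    by_contra hvK
    exact hno ⟨_, v, hv, hvK, w, hw, rfl⟩
  obtain ⟨t, ht, hmax⟩ : ∃ t, P t ∧ ∀ t', P t' → t' ≤ t := by
    obtain ⟨t0, ht0⟩ := hex
    refine ⟨Nat.findGreatest P (n * (m + d * (s + i))), Nat.findGreatest_spec (hbd t0 ht0) ht0, ?_⟩
    intro t' ht'
    exact Nat.le_findGreatest (hbd t' ht') ht'
  obtain ⟨κ, hκ, hκK, w, hw, hwt⟩ := ht
  have hκ0 := hne κ hκK
  -- raising operators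
  have hraise : ∀ x ∈ Z, ∀ y ∈ Z, ρ y < ρ x → S.D (X x) y κ ∈ K := by
    intro x hx y hy hlt
    by_cases hwy : w y = 0
    · have h1 : S.D (X y) y κ = 0 := by rw [hw y, hwy, Nat.cast_zero, zero_smul]
      obtain ⟨h2, h3⟩ := zero_wt A hκ.1.1 h1
      have h4 : S.D (X x) y κ = 0 := by
        rw [D_apply, h2, map_zero, zero_add]
        refine Finset.sum_eq_zero fun μ hμ => ?_
        by_cases hμy : μ y = 0
        · rw [pderiv_monomial, hμy, Nat.cast_zero, mul_zero, monomial_zero, mul_zero, map_zero,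
            LinearMap.zero_apply]
        · rw [h3 μ hμ hμy, map_zero]
      rw [h4]
      exact zero_mem _
    · by_contra hno
      have hxy : x ≠ y := fun h => by rw [h] at hlt; exact lt_irrefl _ hlt
      have h1 : P (∑ z, ρ z * (if z = x then w x + 1 else if z = y then w y - 1 else w z)) :=
        ⟨_, Gam_D A hc hκ hx hy, hno, _, D_wt A κ hw hxy hwy, rfl⟩
      have h2 := hmax _ h1
      have h3 : ∑ z, ρ z * (if z = x then w x + 1 else if z = y then w y - 1 else w z) + ρ y
          = ∑ z, ρ z * w z + ρ x := by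
        have e1 : ∀ f : σ → ℕ, ∑ z, f z = ∑ z ∈ (Finset.univ.erase x).erase y, f z + f y + f x := by
          intro f
          rw [Finset.sum_erase_add _ _ (Finset.mem_erase.mpr ⟨Ne.symm hxy, Finset.mem_univ y⟩),
            Finset.sum_erase_add _ _ (Finset.mem_univ x)]
        rw [e1, e1 (fun z => ρ z * w z), if_neg (Ne.symm hxy), if_pos rfl, if_pos rfl]
        have e2 : ∑ z ∈ (Finset.univ.erase x).erase y,
            ρ z * (if z = x then w x + 1 else if z = y then w y - 1 else w z)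
            = ∑ z ∈ (Finset.univ.erase x).erase y, ρ z * w z := by
          refine Finset.sum_congr rfl fun z hz => ?_
          rw [Finset.mem_erase, Finset.mem_erase] at hz
          rw [if_neg hz.2.1, if_neg hz.1]
        rw [e2]
        obtain ⟨v, hv⟩ : ∃ v, w y = v + 1 := ⟨w y - 1, by omega⟩
        rw [hv, Nat.add_sub_cancel]
        ring
      omega
  refine ⟨κ, hκ, hκK, w, hw,
    ((List.finRange n).reverse.map e.symm).filter (fun x => decide (x ∈ Z ∧ w x ≠ 0)), ?_, ?_, ?_, ?_⟩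
  · exact ((List.nodup_reverse.mpr (List.nodup_finRange n)).map e.symm.injective).filter _
  · intro x
    rw [List.mem_filter, decide_eq_true_eq]
    refine ⟨fun h => h.2, fun h => ⟨?_, h⟩⟩
    rw [List.mem_map]
    exact ⟨e x, List.mem_reverse.mpr (List.mem_finRange _), e.symm_apply_apply x⟩
  · have h1 : ((List.finRange n).reverse.map e.symm).Pairwise (fun x y => ρ y < ρ x) := by
      rw [List.pairwise_map, List.pairwise_reverse]
      refine (List.pairwise_lt_finRange n).imp ?_
      intro a b hab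
      show (e (e.symm a)).val < (e (e.symm b)).val
      rw [e.apply_symm_apply, e.apply_symm_apply]
      exact hab
    refine List.Pairwise.imp_of_mem ?_ (h1.filter _)
    intro x y hx hy hlt
    rw [List.mem_filter, decide_eq_true_eq] at hx hy
    exact hraise x hx.2.1 y hy.2.1 hlt
  · have hwc : w c = i := by
      have h1 : ((w c : k) - (i : k)) • κ = 0 := by
        rw [sub_smul, ← hw c, hκ.1.2.2.2, sub_self]
      rcases smul_eq_zero.mp h1 with h2 | h2
      · exact Nat.cast_injective (sub_eq_zero.mp h2)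
      · exact absurd h2 hκ0
    have hwx : ∀ x, x ∉ Z → x ≠ c → w x = 0 := by
      intro x hx hxc
      have h1 : S.D (X x) x κ = 0 := by
        refine wt_of_T_J A (hκ.1.2.1 x hx) fun μ hμ h2 => hκ.1.2.2.1 μ hμ fun hg => ?_
        exact h2 (hg.2 x hxc hx)
      rw [hw x] at h1
      rcases smul_eq_zero.mp h1 with h2 | h2
      · exact Nat.cast_eq_zero.mp h2
      · exact absurd h2 hκ0
    rw [← wt_sum A hκ.1.1 hκ0 hw]
    have hnd : (((List.finRange n).reverse.map e.symm).filter
        (fun x => decide (x ∈ Z ∧ w x ≠ 0))).Nodup :=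
      ((List.nodup_reverse.mpr (List.nodup_finRange n)).map e.symm.injective).filter _
    rw [← List.sum_toFinset w hnd, ← Finset.sum_erase_add _ _ (Finset.mem_univ c), hwc]
    congr 1
    refine Finset.sum_subset ?_ ?_
    · intro x hx
      rw [List.mem_toFinset, List.mem_filter, decide_eq_true_eq] at hx
      exact Finset.mem_erase.mpr ⟨fun h => hc (h ▸ hx.2.1), Finset.mem_univ x⟩
    · intro x hx hx'
      rw [Finset.mem_erase] at hx
      by_contra h0
      refine hx' ?_
      rw [List.mem_toFinset, List.mem_filter, decide_eq_true_eq]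
      refine ⟨?_, ?_, h0⟩
      · rw [List.mem_map]
        exact ⟨e x, List.mem_reverse.mpr (List.mem_finRange _), e.symm_apply_apply x⟩
      · by_contra hxZ
        exact h0 (hwx x hxZ hx.1)

end Pool.Agent.H10.OP
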