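import Pool.Agent.H10.OP.Lf
import Pool.Agent.H95.OP.Gen

/-!
# OPS-C: generation in coefficient degree at most the number of letters
-/

set_option autoImplicit false
set_option linter.unusedSectionVars false

open MvPolynomial

namespace Pool.Agent.H10.OP

open Pool.Agent.H27.OP Pool.Agent.H20.S3 Pool.Agent.H39.OP

variable {σ : Type*} [Fintype σ]
variable {F : Type*} [AddCommGroup F] [Module ℂ F] {d : ℕ}
variable {S : Fk σ ℂ (Module.End ℂ F) d}

lemma bad_iff {c : σ} {Z : Finset σ} {μ : σ →₀ ℕ} :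
    Pool.Agent.H95.OP.Bad c Z μ ↔ ¬ Good c Z μ := by
  unfold Pool.Agent.H95.OP.Bad Good
  constructor
  · rintro (h | ⟨x, h1, h2, h3⟩) ⟨g1, g2⟩
    · omega
    · exact h3 (g2 x h2 h1)
  · intro h
    by_contra hn
    refine h ⟨by_contra fun h' => hn (Or.inl (by omega)), fun x h2 h1 => ?_⟩
    by_contra h3
    exact hn (Or.inr ⟨x, h1, h2, h3⟩)

lemma Gam_iff {A : Gr S} {c : σ} {Z : Finset σ} {s i m : ℕ} {κ : F} :
    κ ∈ Gam S A c Z s i m ↔ κ ∈ Pool.Agent.H95.OP.Gam A c Z s i m := by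
  rw [mem_Gam, Pool.Agent.H95.OP.mem_Gam, mem_SG, Pool.Agent.H95.OP.mem_SG]
  simp only [bad_iff]

theorem gener (hd : 2 ≤ d) (A : Gr S) (c : σ) : Gener S A c := by
  intro Z hc s i m h κ hκ
  obtain ⟨ζ, h1, h2⟩ := Pool.Agent.H95.OP.gam_gen hd hc h (Gam_iff.mp hκ)
  exact ⟨ζ, fun x _ => Gam_iff.mpr (h1 x), h2.symm⟩

end Pool.Agent.H10.OP
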