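import Pool.Agent.H10.OP.Sg

/-!
# OPS-A2: positivity of weights

`NP_LF`: number operators of sets of letters are locally finite with natural eigenvalues (see
`Dxx_LF` in `Pool/Agent/H27/OP/Wt.lean` for the method: `jeig (nop S)`).
-/

set_option autoImplicit false
set_option linter.unusedSectionVars false

open MvPolynomial

namespace Pool.Agent.H10.OP

open Pool.Agent.H27.OP Pool.Agent.H20.S3

variable {σ k : Type*} [Fintype σ] [Field k]

/-- eigenvalues of locally finite vectors are natural numbers -/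
lemma LF_nat {V : Type*} [AddCommGroup V] [Module k V] {B : Module.End k V} {v : V}
    (h : v ∈ LF B) (hv : v ≠ 0) {t : k} (ht : B v = t • v) : ∃ n : ℕ, t = (n : k) := by
  obtain ⟨M, hM⟩ := h
  rw [dp_eig B ht M] at hM
  rcases smul_eq_zero.mp hM with h1 | h1
  · obtain ⟨n, _, hn⟩ := Finset.prod_eq_zero_iff.mp h1
    exact ⟨n, sub_eq_zero.mp hn⟩
  · exact absurd h1 hv

variable {F : Type*} [AddCommGroup F] [Module k F] {d : ℕ}
variable {S : Fk σ k (Module.End k F) d} (A : Gr S) {c : σ} {Z : Finset σ} {s i m : ℕ} {κ : F}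

private lemma lf_sum_apply (P : Finset (σ →₀ ℕ)) (v : F) :
    (∑ μ ∈ P, S.E μ * S.J μ) v = ∑ μ ∈ P, S.E μ (S.J μ v) := by
  rw [LinearMap.sum_apply]
  rfl

private lemma lf_JJ_self [CharZero k] (μ : σ →₀ ℕ) (v : F) : S.J μ (S.J μ v) = 0 := by
  have h := congrArg (fun f : Module.End k F => f v) (S.JJ μ μ)
  simp only [Module.End.mul_apply, LinearMap.neg_apply] at h
  have h2 : (2 : k) • S.J μ (S.J μ v) = 0 := by
    rw [two_smul]
    nth_rewrite 1 [h]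
    exact neg_add_cancel _
  rcases smul_eq_zero.mp h2 with h3 | h3
  · exact absurd h3 two_ne_zero
  · exact h3

/-- `J μ E μ J μ = J μ` -/
private lemma lf_JEJ [CharZero k] {μ : σ →₀ ℕ} (hμ : μ ∈ Mo σ d) (v : F) :
    S.J μ (S.E μ (S.J μ v)) = S.J μ v := by
  have h := congrArg (fun f : Module.End k F => f (S.J μ v)) (S.JEs μ hμ)
  simp only [Module.End.mul_apply, LinearMap.sub_apply, Module.End.one_apply] at h
  rw [h, lf_JJ_self, map_zero, sub_zero]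

/-- `N_P J μ = J μ N_P - J μ` for `μ ∈ P` -/
private lemma lf_NJ [CharZero k] (P : Finset (σ →₀ ℕ)) (hP : P ⊆ Mo σ d) {μ : σ →₀ ℕ}
    (hμ : μ ∈ P) (v : F) :
    ∑ ν ∈ P, S.E ν (S.J ν (S.J μ v)) = S.J μ (∑ ν ∈ P, S.E ν (S.J ν v)) - S.J μ v := by
  classical
  have h1 : ∀ ν ∈ P, S.E ν (S.J ν (S.J μ v)) =
      S.J μ (S.E ν (S.J ν v)) - (if ν = μ then S.J μ v else 0) := by
    intro ν hν
    by_cases h : ν = μ
    · subst h
      rw [if_pos rfl, lf_JJ_self, map_zero, lf_JEJ (hP hν), sub_self]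
    · rw [if_neg h, sub_zero]
      have h2 := congrArg (fun f : Module.End k F => f v) (S.JJ ν μ)
      have h3 := congrArg (fun f : Module.End k F => f (S.J ν v))
        (S.JE μ (hP hμ) ν (hP hν) (Ne.symm h))
      simp only [Module.End.mul_apply, LinearMap.neg_apply] at h2 h3
      rw [h2, map_neg, h3]
  rw [Finset.sum_congr rfl h1, Finset.sum_sub_distrib, Finset.sum_ite_eq' P μ, if_pos hμ, map_sum]

private lemma lf_D_nop (x : σ) : S.D (X x) x =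
    nop S (Sum.inr x) + ∑ μ ∈ Mo σ d, (μ x : k) • nop S (Sum.inl μ) := by
  refine LinearMap.ext fun v => ?_
  rw [D_diag, LinearMap.add_apply, LinearMap.sum_apply]
  rfl

private lemma lf_D_comm (x : σ) {j : (σ →₀ ℕ) ⊕ σ} (hj : j ∈ nix σ d) :
    S.D (X x) x * nop S j = nop S j * S.D (X x) x := by
  rw [lf_D_nop, add_mul, mul_add, nop_comm (mem_nix_inr) hj, Finset.sum_mul, Finset.mul_sum]
  congr 1
  refine Finset.sum_congr rfl fun μ hμ => ?_
  rw [smul_mul_assoc, mul_smul_comm, nop_comm (mem_nix_inl.mpr hμ) hj]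

include A

lemma NP_LF [CharZero k] (P : Finset (σ →₀ ℕ)) (hP : P ⊆ Mo σ d) {a m : ℕ} {ω : F}
    (h : ω ∈ A.G a m) : ω ∈ LF (∑ μ ∈ P, S.E μ * S.J μ) := by
  have h1 := jeig (nop S) (nix σ d) (A.G a m) (fun i _ w hw => nop_mem A i hw)
    (fun i hi w hw => nop_LF A hi hw) (fun i hi j hj => nop_comm hi hj) h
  refine (Submodule.span_le.mpr ?_) h1
  rintro v ⟨_, hv'⟩
  have h3 : ∀ μ : σ →₀ ℕ, ∃ n : ℕ, μ ∈ P → S.E μ (S.J μ v) = (n : k) • v := by
    intro μ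
    by_cases hμ : μ ∈ P
    · obtain ⟨n, hn⟩ := hv' (Sum.inl μ) (mem_nix_inl.mpr (hP hμ))
      exact ⟨n, fun _ => hn⟩
    · exact ⟨0, fun h => absurd h hμ⟩
  choose n hn using h3
  have h4 : (∑ μ ∈ P, S.E μ * S.J μ) v = ((∑ μ ∈ P, n μ : ℕ) : k) • v := by
    rw [lf_sum_apply, Nat.cast_sum, Finset.sum_smul]
    exact Finset.sum_congr rfl fun μ hμ => hn μ hμ
  refine ⟨(∑ μ ∈ P, n μ) + 1, ?_⟩
  rw [dp_eig _ h4, Finset.prod_range_succ, sub_self, mul_zero, zero_smul]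

/-- if the number of letters in `P` is zero then `J μ` vanishes for `μ ∈ P` -/
lemma J_zero_of_NP [CharZero k] (P : Finset (σ →₀ ℕ)) (hP : P ⊆ Mo σ d) {a m : ℕ} {ω : F}
    (h : ω ∈ A.G a m) (h0 : ∑ ν ∈ P, S.E ν (S.J ν ω) = 0) {μ : σ →₀ ℕ} (hμ : μ ∈ P) :
    S.J μ ω = 0 := by
  rcases a with _ | a
  · exact A.GJ0 h
  · by_contra hne
    have h1 : S.J μ ω ∈ LF (∑ μ ∈ P, S.E μ * S.J μ) := NP_LF A P hP (A.GJ h)
    have h2 : (∑ μ ∈ P, S.E μ * S.J μ) (S.J μ ω) = (-1 : k) • S.J μ ω := by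
      rw [lf_sum_apply, lf_NJ P hP hμ, h0, map_zero, zero_sub, neg_smul, one_smul]
    obtain ⟨n, hn⟩ := LF_nat h1 hne h2
    have h3 : ((n + 1 : ℕ) : k) = 0 := by
      rw [Nat.cast_add, ← hn, Nat.cast_one, neg_add_cancel]
    exact Nat.succ_ne_zero n (Nat.cast_eq_zero.mp h3)

/-- no letters of the first kind: `J μ` vanishes for `μ c = 0` -/
lemma SG_J0' [CharZero k] (hc : c ∉ Z) (h : κ ∈ SG S A c Z 0 i m) {μ : σ →₀ ℕ} (hμ : μ ∈ Mo σ d)
    (h0 : μ c = 0) : S.J μ κ = 0 := by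
  have h1 := num0 A hc h
  rw [Nat.cast_zero, zero_smul] at h1
  exact J_zero_of_NP A _ (Finset.filter_subset _ _) h.1 h1 (Finset.mem_filter.mpr ⟨hμ, h0⟩)

lemma SG_J1' [CharZero k] (hc : c ∉ Z) (h : κ ∈ SG S A c Z s 0 m) {μ : σ →₀ ℕ} (hμ : μ ∈ Mo σ d)
    (h0 : μ c = 1) : S.J μ κ = 0 := by
  have h1 := num1 A hc h
  rw [Nat.cast_zero, zero_smul] at h1
  exact J_zero_of_NP A _ (Finset.filter_subset _ _) h.1 h1 (Finset.mem_filter.mpr ⟨hμ, h0⟩)

/-- elements of weight zero do not involve the variable -/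
lemma zero_wt [CharZero k] {a m : ℕ} (h : κ ∈ A.G a m) {x : σ} (hx : S.D (X x) x κ = 0) :
    S.T x κ = 0 ∧ ∀ μ ∈ Mo σ d, μ x ≠ 0 → S.J μ κ = 0 := by
  let W : Submodule k F := A.G a m ⊓ LinearMap.ker (S.D (X x) x)
  have hW : ∀ v, v ∈ W ↔ v ∈ A.G a m ∧ S.D (X x) x v = 0 := by
    intro v
    rw [Submodule.mem_inf, LinearMap.mem_ker]
  have h1 := jeig (nop S) (nix σ d) W (by
    intro j hj w hw
    rw [hW] at hw ⊢
    refine ⟨nop_mem A j hw.1, ?_⟩
    have h2 := congrArg (fun f : Module.End k F => f w) (lf_D_comm (S := S) x hj)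
    simp only [Module.End.mul_apply] at h2
    rw [h2, hw.2, map_zero]) (fun i hi w hw => nop_LF A hi ((hW w).mp hw).1)
    (fun i hi j hj => nop_comm hi hj) ((hW κ).mpr ⟨h, hx⟩)
  let U : Submodule k F :=
    { carrier := {v | S.T x v = 0 ∧ ∀ μ ∈ Mo σ d, μ x ≠ 0 → S.J μ v = 0}
      add_mem' := by
        rintro v w ⟨h2, h3⟩ ⟨h4, h5⟩
        exact ⟨by rw [map_add, h2, h4, add_zero],
          fun μ hμ hne => by rw [map_add, h3 μ hμ hne, h5 μ hμ hne, add_zero]⟩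
      zero_mem' := ⟨map_zero _, fun _ _ _ => map_zero _⟩
      smul_mem' := by
        rintro t v ⟨h2, h3⟩
        exact ⟨by rw [map_smul, h2, smul_zero],
          fun μ hμ hne => by rw [map_smul, h3 μ hμ hne, smul_zero]⟩ }
  have h2 : κ ∈ U := by
    refine (Submodule.span_le.mpr ?_) h1
    rintro v ⟨hv, hv'⟩
    by_cases hv0 : v = 0
    · rw [hv0]
      exact zero_mem U
    obtain ⟨t, ht⟩ := hv' (Sum.inr x) mem_nix_inr
    have ht' : S.m (X x) (S.T x v) = (t : k) • v := ht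
    have h3 : ∀ μ : σ →₀ ℕ, ∃ n : ℕ, μ ∈ Mo σ d → S.E μ (S.J μ v) = (n : k) • v := by
      intro μ
      by_cases hμ : μ ∈ Mo σ d
      · obtain ⟨n, hn⟩ := hv' (Sum.inl μ) (mem_nix_inl.mpr hμ)
        exact ⟨n, fun _ => hn⟩
      · exact ⟨0, fun h => absurd h hμ⟩
    choose n hn using h3
    have h4 : ((t + ∑ μ ∈ Mo σ d, μ x * n μ : ℕ) : k) • v = 0 := by
      rw [← ((hW v).mp hv).2, D_diag, ht', Nat.cast_add, add_smul, Nat.cast_sum, Finset.sum_smul]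
      congr 1
      refine Finset.sum_congr rfl fun μ hμ => ?_
      rw [hn μ hμ, smul_smul, Nat.cast_mul]
    have h5 : t + ∑ μ ∈ Mo σ d, μ x * n μ = 0 := by
      rcases smul_eq_zero.mp h4 with h6 | h6
      · exact Nat.cast_eq_zero.mp h6
      · exact absurd h6 hv0
    have h6 : t = 0 := by omega
    have h7 : ∑ μ ∈ Mo σ d, μ x * n μ = 0 := by omega
    refine ⟨?_, fun μ hμ hne => ?_⟩
    · rw [h6, Nat.cast_zero, zero_smul] at ht'
      exact A.inj x _ ht'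
    · have h8 := (Finset.sum_eq_zero_iff.mp h7) μ hμ
      have h9 : n μ = 0 := by
        rcases Nat.mul_eq_zero.mp h8 with h10 | h10
        · exact absurd h10 hne
        · exact h10
      have h10 := hn μ hμ
      rw [h9, Nat.cast_zero, zero_smul] at h10
      rw [← lf_JEJ hμ, h10, map_zero]
  exact h2

lemma wt_of_T_J {x : σ} (h1 : S.T x κ = 0) (h2 : ∀ μ ∈ Mo σ d, μ x ≠ 0 → S.J μ κ = 0) :
    S.D (X x) x κ = 0 := by
  rw [D_diag, h1, map_zero, zero_add]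
  refine Finset.sum_eq_zero fun μ hμ => ?_
  by_cases h : μ x = 0
  · rw [h, Nat.cast_zero, zero_smul]
  · rw [h2 μ hμ h, map_zero, smul_zero]

lemma SG_restrict [CharZero k] (hc : c ∉ Z) (h : κ ∈ SG S A c Z s i m) {Z' : Finset σ}
    (h' : Z' ⊆ Z) (hw : ∀ x ∈ Z, x ∉ Z' → S.D (X x) x κ = 0) : κ ∈ SG S A c Z' s i m := by
  obtain ⟨h1, h2, h3, h4⟩ := h
  refine ⟨h1, fun x hx => ?_, fun μ hμ hb => ?_, h4⟩
  · by_cases hxZ : x ∈ Z
    · exact (zero_wt A h1 (hw x hxZ hx)).1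
    · exact h2 x hxZ
  · by_cases hg : Good c Z μ
    · have h5 : ∃ x, x ≠ c ∧ x ∉ Z' ∧ μ x ≠ 0 := by
        by_contra hcon
        push Not at hcon
        exact hb ⟨hg.1, hcon⟩
      obtain ⟨x, hxc, hx', hx0⟩ := h5
      have hxZ : x ∈ Z := by
        by_contra hxZ
        exact hx0 (hg.2 x hxc hxZ)
      exact (zero_wt A h1 (hw x hxZ hx')).2 μ hμ hx0
    · exact h3 μ hμ hg

lemma Gam_restrict [CharZero k] (hc : c ∉ Z) (h : κ ∈ Gam S A c Z s i m) {Z' : Finset σ}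
    (h' : Z' ⊆ Z) (hw : ∀ x ∈ Z, x ∉ Z' → S.D (X x) x κ = 0) : κ ∈ Gam S A c Z' s i m := by
  rw [mem_Gam] at h ⊢
  exact ⟨SG_restrict A hc h.1 h' hw, h.2⟩

end Pool.Agent.H10.OP
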