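import Pool.Agent.H10.OP.Xtt
import Pool.Agent.H27.OPS.Psi

/-!
# OPS-B4: the maps `psi` and the new space `Kp`
-/

set_option autoImplicit false
set_option linter.unusedSectionVars false

open MvPolynomial

namespace Pool.Agent.H10.OP

open Pool.Agent.H27.OP Pool.Agent.H20.S3

variable {σ k : Type*} [Fintype σ] [Field k]

section ring

variable {O : Type*} [Ring O] [Algebra k O] {d : ℕ} (S : Fx σ k O d)

lemma Ex_b_self {e : ℕ} (x : σ) {ν : σ →₀ ℕ} (hν : ν ∈ Mo σ e) :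
    H27.OPS.Ex S e x x * S.b ν = S.b ν * H27.OPS.Ex S e x x + (ν x : k) • S.b ν := by
  rw [H27.OPS.Ex_b S x x hν, H27.OPS.Bb_Xpd S x x hν]
  by_cases h : ν x = 0
  · rw [h]; simp
  · have h1 : ν - Finsupp.single x 1 + Finsupp.single x 1 = ν := by
      ext z
      by_cases hz : z = x
      · subst hz
        simp only [Finsupp.coe_add, Finsupp.coe_tsub, Pi.add_apply, Pi.sub_apply,
          Finsupp.single_eq_same]
        omega
      · simp [Finsupp.single_eq_of_ne hz]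
    rw [h1]

lemma Ex_bl_self {e : ℕ} (x : σ) {l : List (σ →₀ ℕ)} (hl : ∀ ν ∈ l, ν ∈ Mo σ e) :
    H27.OPS.Ex S e x x * bl S l = bl S l * H27.OPS.Ex S e x x + ((cs x l : ℕ) : k) • bl S l := by
  induction l with
  | nil => simp [bl, cs]
  | cons ν l ih =>
    have h1 := ih (fun ν' hν' => hl ν' (List.mem_cons_of_mem _ hν'))
    have h2 : cs x (ν :: l) = ν x + cs x l := by simp [cs]
    rw [bl, ← mul_assoc, Ex_b_self S x (hl ν List.mem_cons_self), add_mul, mul_assoc, h1, mul_add,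
      mul_smul_comm, ← mul_assoc, smul_mul_assoc, h2, Nat.cast_add, add_smul]
    abel

/-- the diagonal case -/
lemma Ex_Rl_self {e : ℕ} (hd : d = e + 1) {L : List σ} (hL : L.Nodup) {x : σ} (hx : x ∈ L) :
    H27.OPS.Ex S e x x * S.Rl e L = S.Rl e L * H27.OPS.Ex S e x x + S.Rl e L := by
  classical
  rw [H27.OPS.Ex_Rl S hd x x L hL hx]
  have h2 : L.map (fun z => if z = x then x else z) = L := by
    conv_rhs => rw [← List.map_id L]
    refine List.map_congr_left fun z _ => ?_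
    by_cases hz : z = x
    · rw [if_pos hz, hz, id]
    · rw [if_neg hz, id]
  rw [h2]

end ring

variable {F : Type*} [AddCommGroup F] [Module k F] {d : ℕ}
variable {S : Fk σ k (Module.End k F) d} (A : Gr S)
variable {XF : Type*} [AddCommGroup XF] [Module k XF] (Y : Xt S XF)
variable {c : σ} {Z Z' : Finset σ} {e q s i s' i' v m : ℕ} {L : List σ} {l : List (σ →₀ ℕ)}

lemma psi_apply (y : F) :
    psi Y e L l y = Y.pr (Y.S'.Rl e L (Y.S'.th (bl Y.S' l (Y.j y)))) := rfl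

lemma psi_eq (y : F) : psi Y e L l y = H27.OPS.psi Y e L l y := rfl

/-- weights, without cycles -/
lemma psi_wt0 (hd : d = e + 1) (hn : L.Nodup) (hlen : L.length = l.length + 1)
    (hl : ∀ ν ∈ l, ν ∈ Mo σ e) {y : F} {x : σ} (hx : x ∈ L) {w : k}
    (hw : S.D (X x) x y = w • y) :
    S.D (X x) x (psi Y e L l y) = (w + 1 + ((cs x l : ℕ) : k)) • psi Y e L l y := by
  have h3 : Y.S'.Rl e L (Y.S'.th (bl Y.S' l (Y.j y))) = Y.j (psi Y e L l y) :=
    H27.OPS.psi_spec Y hl hlen y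
  set η : XF := bl Y.S' l (Y.j y) with hη
  have a1 := congrArg (fun f : Module.End k XF => f (Y.S'.th η)) (Ex_Rl_self Y.S' hd hn hx)
  simp only [Module.End.mul_apply, LinearMap.add_apply] at a1
  have a2 := congrArg (fun f : Module.End k XF => f η) (H27.OPS.Ex_th Y.S' e x x)
  simp only [Module.End.mul_apply] at a2
  have a3 := congrArg (fun f : Module.End k XF => f (Y.j y)) (Ex_bl_self Y.S' (e := e) x hl)
  simp only [Module.End.mul_apply, LinearMap.add_apply, LinearMap.smul_apply] at a3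
  rw [H27.OPS.Ex_j, hw, map_smul, map_smul, ← hη] at a3
  rw [h3, a2, a3, H27.OPS.Ex_j] at a1
  simp only [map_add, map_smul] at a1
  rw [h3] at a1
  have a4 := congrArg Y.pr a1
  simp only [map_add, map_smul, Y.pr_j] at a4
  rw [a4]
  module

/-- weights of a letter which is not in `L` -/
lemma psi_wt_not (hd : d = e + 1) (hlen : L.length = l.length + 1)
    (hl : ∀ ν ∈ l, ν ∈ Mo σ e) {y : F} {x : σ} (hx : x ∉ L) {w : k}
    (hw : S.D (X x) x y = w • y) :
    S.D (X x) x (psi Y e L l y) = (w + ((cs x l : ℕ) : k)) • psi Y e L l y := by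
  have h3 : Y.S'.Rl e L (Y.S'.th (bl Y.S' l (Y.j y))) = Y.j (psi Y e L l y) :=
    H27.OPS.psi_spec Y hl hlen y
  set η : XF := bl Y.S' l (Y.j y) with hη
  have a1 := congrArg (fun f : Module.End k XF => f (Y.S'.th η))
    (H27.OPS.Ex_Rl_not Y.S' hd x x L hx)
  simp only [Module.End.mul_apply] at a1
  have a2 := congrArg (fun f : Module.End k XF => f η) (H27.OPS.Ex_th Y.S' e x x)
  simp only [Module.End.mul_apply] at a2
  have a3 := congrArg (fun f : Module.End k XF => f (Y.j y)) (Ex_bl_self Y.S' (e := e) x hl)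
  simp only [Module.End.mul_apply, LinearMap.add_apply, LinearMap.smul_apply] at a3
  rw [H27.OPS.Ex_j, hw, map_smul, map_smul, ← hη] at a3
  rw [h3, a2, a3, H27.OPS.Ex_j] at a1
  simp only [map_add, map_smul] at a1
  rw [h3] at a1
  have a4 := congrArg Y.pr a1
  simp only [map_add, map_smul, Y.pr_j] at a4
  rw [a4]
  module

/-- the letters of `psi` are allowed -/
lemma good_add (hc : c ∉ Z) {ν : σ →₀ ℕ} (hν : Good c Z ν) {x : σ} (hx : x ∈ Z) :
    Good c Z (ν + Finsupp.single x 1) := by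
  have hxc : c ≠ x := fun h => hc (h ▸ hx)
  refine ⟨?_, fun z hz hzZ => ?_⟩
  · rw [Finsupp.add_apply, Finsupp.single_eq_of_ne hxc, add_zero]
    exact hν.1
  · have hzx : z ≠ x := fun h => hzZ (h ▸ hx)
    rw [Finsupp.add_apply, Finsupp.single_eq_of_ne hzx, hν.2 z hz hzZ, add_zero]

include A

/-- `psi` maps cycles to cycles -/
theorem psi_Gam (hd : d = e + 1) (hc : c ∉ Z) (hL : ∀ z ∈ L, z ∈ Z) (hlen : L.length = q + 1)
    (hl : ∀ ν ∈ l, ν ∈ Mo σ e ∧ Good c Z ν) (hlq : l.length = q) (h1 : s' + q = s + cs c l)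
    (h2 : i' + cs c l = i) {y : F} (hy : y ∈ Gam S A c Z s' i' m) :
    Y.S'.Rl e L (Y.S'.th (bl Y.S' l (Y.j y))) = Y.j (psi Y e L l y) ∧
      psi Y e L l y ∈ Gam S A c Z s i (m + 1) := by
  have hl' : ∀ ν ∈ l, ν ∈ Mo σ e := fun ν hν => (hl ν hν).1
  have hlen' : L.length = l.length + 1 := by rw [hlen, hlq]
  refine ⟨H27.OPS.psi_spec Y hl' hlen' y, ?_⟩
  obtain ⟨⟨g1, g2, g3, g4⟩, g5⟩ := mem_Gam.mp hy
  refine mem_Gam.mpr ⟨⟨?_, ?_, ?_, ?_⟩, ?_⟩
  · have h3 := H27.OPS.psi_G A Y hl' hlen' g1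
    have h4 : s' + i' + l.length = s + i := by omega
    rw [h4] at h3
    exact h3
  · intro x hx
    have h3 := H27.OPS.psi_T Y hl' hlen' (fun h => hx (hL x h)) y
    rw [g2 x hx, map_zero] at h3
    exact h3
  · intro μ hμ hb
    have h3 := H27.OPS.psi_J Y (e := e) (Z := L) (L := l) hμ (fun x hx ν hν h =>
      hb (h ▸ good_add hc (hl ν hν).2 (hL x hx))) y
    rw [g3 μ hμ hb, map_zero, smul_zero] at h3
    exact h3
  · have h3 := psi_wt_not Y hd hlen' hl' (fun h => hc (hL c h)) g4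
    rw [h3, ← Nat.cast_add, h2]
  · exact H27.OPS.psi_del Y hd L l g5

/-- weights -/
lemma psi_wt [CharZero k] (hd : d = e + 1) (hc : c ∉ Z) (hn : L.Nodup) (hL : ∀ z ∈ L, z ∈ Z)
    (hlen : L.length = q + 1)
    (hl : ∀ ν ∈ l, ν ∈ Mo σ e ∧ Good c Z ν) (hlq : l.length = q) (h1 : s' + q = s + cs c l)
    (h2 : i' + cs c l = i) {y : F} (hy : y ∈ Gam S A c Z s' i' m) {x : σ} (hx : x ∈ L) {w : ℕ}
    (hw : S.D (X x) x y = (w : k) • y) :
    S.D (X x) x (psi Y e L l y) = ((w + 1 + cs x l : ℕ) : k) • psi Y e L l y := by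
  rw [psi_wt0 Y hd hn (by rw [hlen, hlq]) (fun ν hν => (hl ν hν).1) hx hw]
  push_cast
  rfl

/-- multiplication -/
lemma psi_m (a : MvPolynomial σ k) (y : F) :
    psi Y e L l (S.m a y) = S.m a (psi Y e L l y) :=
  H27.OPS.psi_m Y e L l a y

/-- if all `Gam` lie in `Kp`, then `R_L (τ ξ) ∈ K` -/
lemma XG_psi {K : Submodule k F} {ξ : XF} (hξ : ξ ∈ XG Y A c Z' e q s i m)
    (h : ∀ s' i' v, s' + q = s + v → i' + v = i →
      Gam S A c Z' s' i' m ≤ Kp Y c Z' e L q v K) :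
    Y.pr (Y.S'.Rl e L (Y.S'.th ξ)) ∈ K := by
  have h1 : XG Y A c Z' e q s i m ≤ K.comap (Y.pr ∘ₗ Y.S'.Rl e L ∘ₗ Y.S'.th) := by
    unfold XG XM
    rw [Submodule.span_le]
    rintro ξ ⟨l, hl, hlq, s', i', h1, h2, y, hy, rfl⟩
    exact h s' i' (cs c l) h1 h2 hy l hl hlq rfl
  exact h1 hξ

end Pool.Agent.H10.OP

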