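import Pool.Agent.H10.OP.Psi
import Pool.Agent.H27.OPS.Psi2

/-!
# OPS-B4b: closure of the new space `Kp` (owner: helper27)
-/

set_option autoImplicit false
set_option linter.unusedSectionVars false

open MvPolynomial

namespace Pool.Agent.H10.OP

open Pool.Agent.H27.OP Pool.Agent.H20.S3

variable {σ k : Type*} [Fintype σ] [Field k]
variable {F : Type*} [AddCommGroup F] [Module k F] {d : ℕ}
variable {S : Fk σ k (Module.End k F) d} (A : Gr S)
variable {XF : Type*} [AddCommGroup XF] [Module k XF] (Y : Xt S XF)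
variable {c : σ} {Z Z' : Finset σ} {e q s i s' i' v m : ℕ} {L : List σ} {l : List (σ →₀ ℕ)}

/-- replacing a variable in an allowed slot -/
lemma Good_repl (hc : c ∉ Z') {x x' : σ} (hx : x ∈ Z') (hx' : x' ∈ Z') {ν : σ →₀ ℕ}
    (hν : ν ∈ Mo σ e ∧ Good c Z' ν) (h0 : ν x' ≠ 0) :
    ν - Finsupp.single x' 1 + Finsupp.single x 1 ∈ Mo σ e ∧
      Good c Z' (ν - Finsupp.single x' 1 + Finsupp.single x 1) := by
  have hxc : x ≠ c := fun h => hc (h ▸ hx)
  have hxc' : x' ≠ c := fun h => hc (h ▸ hx')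
  refine ⟨Pool.Agent.H27.OPS.Mo_repl hν.1 h0, ?_, fun z hz hzZ => ?_⟩
  · have h4 : (ν - Finsupp.single x' 1 + Finsupp.single x 1 : σ →₀ ℕ) c = ν c := by
      simp [Finsupp.single_eq_of_ne (Ne.symm hxc), Finsupp.single_eq_of_ne (Ne.symm hxc')]
    rw [h4]
    exact hν.2.1
  · have hzx : z ≠ x := fun h => hzZ (h ▸ hx)
    have hzx' : z ≠ x' := fun h => hzZ (h ▸ hx')
    have h4 : (ν - Finsupp.single x' 1 + Finsupp.single x 1 : σ →₀ ℕ) z = ν z := by
      simp [Finsupp.single_eq_of_ne hzx, Finsupp.single_eq_of_ne hzx']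
    rw [h4]
    exact hν.2.2 z hz hzZ

include A

/-- the space `Kp` is closed under `D_{xy}`, `x, y ∈ L` -/
lemma Kp_op [CharZero k] (hd : d = e + 1) (hc : c ∉ Z) (hZ : Z' ⊆ Z) {K : Submodule k F}
    (hK : ∀ κ ∈ Gam S A c Z s i (m + 1), κ ∈ K → ∀ x ∈ Z, ∀ y ∈ Z, S.D (X x) y κ ∈ K)
    (hn : L.Nodup) (hL : ∀ x, x ∈ L ↔ x ∈ Z') (hlen : L.length = q + 1) (h1 : s' + q = s + v)
    (h2 : i' + v = i) {y : F} (hy : y ∈ Gam S A c Z' s' i' m) (hyK : y ∈ Kp Y c Z' e L q v K)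
    {x x' : σ} (hx : x ∈ Z') (hx' : x' ∈ Z') : S.D (X x) x' y ∈ Kp Y c Z' e L q v K := by
  classical
  have hc' : c ∉ Z' := fun h => hc (hZ h)
  intro l hl hlq hcs
  have hG := (psi_Gam A Y hd hc' (fun z hz => (hL z).mp hz) hlen hl hlq
    (show s' + q = s + cs c l by rw [hcs]; exact h1)
      (show i' + cs c l = i by rw [hcs]; exact h2) hy).2
  have a1 : psi Y e L l y ∈ K := hyK l hl hlq hcs
  have a2 := hK _ (Gam_mono A hZ hG) a1 x (hZ hx) x' (hZ hx')
  have a3 := Pool.Agent.H27.OPS.psi_D_mem Y hd (fun ν hν => (hl ν hν).1)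
    (by rw [hlen, hlq]) hn ((hL x).mpr hx) ((hL x').mpr hx') y (L := l)
  have a4 : Submodule.span k {η | ∃ l' ∈ Pool.Agent.H27.OPS.nb x x' l,
      η = Pool.Agent.H27.OPS.psi Y e L l' y} ≤ K := by
    rw [Submodule.span_le]
    rintro η ⟨l', hl', rfl⟩
    refine hyK l' ?_ ?_ ?_
    · exact Pool.Agent.H27.OPS.nb_mem hl' (P := fun ν => ν ∈ Mo σ e ∧ Good c Z' ν) hl
        (fun ν hν h0 => Good_repl hc' hx hx' hν h0)
    · rw [Pool.Agent.H27.OPS.nb_length hl', hlq]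
    · have hxc : x ≠ c := fun h => hc' (h ▸ hx)
      have hxc' : x' ≠ c := fun h => hc' (h ▸ hx')
      rw [Pool.Agent.H27.OPS.nb_cs hxc hxc' hl', hcs]
  have a5 := a4 a3
  have a6 : (if x = x' then Pool.Agent.H27.OPS.psi Y e L l y else 0) ∈ K := by
    split_ifs
    · exact a1
    · exact zero_mem _
  have a7 : psi Y e L l (S.D (X x) x' y) = S.D (X x) x' (psi Y e L l y)
      - (if x = x' then Pool.Agent.H27.OPS.psi Y e L l y else 0)
      - (S.D (X x) x' (Pool.Agent.H27.OPS.psi Y e L l y)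
        - Pool.Agent.H27.OPS.psi Y e L l (S.D (X x) x' y)
        - (if x = x' then Pool.Agent.H27.OPS.psi Y e L l y else 0)) := by
    show Pool.Agent.H27.OPS.psi Y e L l (S.D (X x) x' y)
      = S.D (X x) x' (Pool.Agent.H27.OPS.psi Y e L l y)
      - (if x = x' then Pool.Agent.H27.OPS.psi Y e L l y else 0)
      - (S.D (X x) x' (Pool.Agent.H27.OPS.psi Y e L l y)
        - Pool.Agent.H27.OPS.psi Y e L l (S.D (X x) x' y)
        - (if x = x' then Pool.Agent.H27.OPS.psi Y e L l y else 0))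
    abel
  rw [a7]
  exact sub_mem (sub_mem a2 a6) a5

theorem Kp_Clo [CharZero k] (hd : d = e + 1) (hc : c ∉ Z) (hZ : Z' ⊆ Z) {R : ℤ}
    {K : Submodule k F} (hK : Clo S A c Z s i (m + 1) R K)
    (hn : L.Nodup) (hL : ∀ x, x ∈ L ↔ x ∈ Z') (hlen : L.length = q + 1) (h1 : s' + q = s + v)
    (h2 : i' + v = i) : Clo S A c Z' s' i' m (R - 1) (Kp Y c Z' e L q v K) := by
  have hc' : c ∉ Z' := fun h => hc (hZ h)
  constructor
  · intro κ hκ x hx w hw hκw l hl hlq hcs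
    have hG := (psi_Gam A Y hd hc' (fun z hz => (hL z).mp hz) hlen hl hlq
      (show s' + q = s + cs c l by rw [hcs]; exact h1)
      (show i' + cs c l = i by rw [hcs]; exact h2) hκ).2
    have hwt := psi_wt A Y hd hc' hn (fun z hz => (hL z).mp hz) hlen hl hlq
      (show s' + q = s + cs c l by rw [hcs]; exact h1)
      (show i' + cs c l = i by rw [hcs]; exact h2) hκ ((hL x).mpr hx) hκw
    refine hK.wt _ (Gam_mono A hZ hG) x (hZ hx) _ ?_ hwt
    push_cast
    omega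
  · intro m' hm κ hκ μ hμ hsupp l hl hlq hcs
    have hG := (psi_Gam A Y hd hc' (fun z hz => (hL z).mp hz) hlen hl hlq
      (show s' + q = s + cs c l by rw [hcs]; exact h1)
      (show i' + cs c l = i by rw [hcs]; exact h2) hκ).2
    rw [psi_m A Y]
    exact hK.ml (m' + 1) (by omega) _ (Gam_mono A hZ hG) μ hμ
      (fun x hx => hsupp x fun h => hx (hZ h))
  · intro κ hκ hκK x hx x' hx'
    exact Kp_op A Y hd hc hZ hK.op hn hL hlen h1 h2 hκ hκK hx hx'

end Pool.Agent.H10.OP
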