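import Pool.Agent.H10.OP.Defs

/-!
# OPS-A1: closure properties of `SG` and `Gam`
-/

set_option autoImplicit false
set_option linter.unusedSectionVars false

open MvPolynomial

namespace Pool.Agent.H10.OP

open Pool.Agent.H27.OP Pool.Agent.H20.S3

variable {σ k : Type*} [Fintype σ] [Field k]

lemma Good.mono {c : σ} {Z Z' : Finset σ} (h : Z' ⊆ Z) {μ : σ →₀ ℕ} (hμ : Good c Z' μ) :
    Good c Z μ := ⟨hμ.1, fun x hx hxZ => hμ.2 x hx fun h' => hxZ (h h')⟩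

variable {F : Type*} [AddCommGroup F] [Module k F] {d : ℕ}
variable {S : Fk σ k (Module.End k F) d} (A : Gr S) {c : σ} {Z : Finset σ} {s i m : ℕ} {κ : F}

/-! ### auxiliary: elementwise forms of the relations -/

private lemma sg_op {X Y : Module.End k F} (h : X * Y = Y * X) (ω : F) : X (Y ω) = Y (X ω) := by
  have := congrArg (fun f : Module.End k F => f ω) h
  simpa only [Module.End.mul_apply] using this

private lemma sg_opn {X Y : Module.End k F} (h : X * Y = -(Y * X)) (ω : F) :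
    X (Y ω) = -(Y (X ω)) := by
  have := congrArg (fun f : Module.End k F => f ω) h
  simpa only [Module.End.mul_apply, LinearMap.neg_apply] using this

/-- `D_xy J_ν` -/
private lemma sg_DJ (p : MvPolynomial σ k) (y : σ) {ν : σ →₀ ℕ} (hν : ν ∈ Mo σ d) (ω : F) :
    S.D p y (S.J ν ω) = S.J ν (S.D p y ω)
      - ∑ μ ∈ Mo σ d, coeff ν (p * pderiv y (monomial μ 1)) • S.J μ ω := by
  have := congrArg (fun f : Module.End k F => f ω) (S.D_J p y hν)
  simpa only [Module.End.mul_apply, LinearMap.sub_apply, LinearMap.sum_apply,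
    LinearMap.smul_apply] using this

/-- `D_cc J_ν` -/
private lemma sg_DcJ (x : σ) {ν : σ →₀ ℕ} (hν : ν ∈ Mo σ d) (ω : F) :
    S.D (X x) x (S.J ν ω) = S.J ν (S.D (X x) x ω) - (ν x : k) • S.J ν ω := by
  classical
  rw [sg_DJ _ _ hν, Finset.sum_eq_single ν]
  · rw [X_pd_mon, coeff_smul, coeff_monomial, if_pos rfl, smul_eq_mul, mul_one]
  · intro μ _ hne
    rw [X_pd_mon, coeff_smul, coeff_monomial, if_neg hne, smul_zero, zero_smul]
  · intro h
    exact absurd hν h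

private lemma sg_DcE (x : σ) {ν : σ →₀ ℕ} (hν : ν ∈ Mo σ d) (ω : F) :
    S.D (X x) x (S.E ν ω) = S.E ν (S.D (X x) x ω) + (ν x : k) • S.E ν ω := by
  have h1 := congrArg (fun f : Module.End k F => f ω)
    (S.D_Ee (c := X x) x (isHomogeneous_monomial (1 : k) (mem_Mo.mp hν)))
  simp only [Module.End.mul_apply, LinearMap.add_apply] at h1
  rw [S.Ee_monomial hν, X_pd_mon, map_smul, S.Ee_monomial hν, LinearMap.smul_apply] at h1
  exact h1

private lemma sg_ne {x y : σ} (hx : x ∈ Z) (hy : y ∉ Z) : x ≠ y := fun h => hy (h ▸ hx)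

private lemma sg_D_zero (y : σ) : S.D 0 y = 0 := by
  have h := S.D_smul 0 0 y
  rwa [zero_smul, zero_smul] at h

include A

lemma SG_mono {Z' : Finset σ} (h : Z' ⊆ Z) : SG S A c Z' s i m ≤ SG S A c Z s i m := by
  rintro κ ⟨h1, h2, h3, h4⟩
  exact ⟨h1, fun x hx => h2 x fun h' => hx (h h'), fun μ hμ hg => h3 μ hμ fun h' => hg (h'.mono h),
    h4⟩

lemma Gam_mono {Z' : Finset σ} (h : Z' ⊆ Z) : Gam S A c Z' s i m ≤ Gam S A c Z s i m :=
  inf_le_inf_right _ (SG_mono A h)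

/-- the number of letters with `μ c = 1` -/
lemma num1 (hc : c ∉ Z) (h : κ ∈ SG S A c Z s i m) :
    ∑ μ ∈ (Mo σ d).filter (fun μ => μ c = 1), S.E μ (S.J μ κ) = (i : k) • κ := by
  rw [← h.2.2.2, D_diag, h.2.1 c hc, map_zero, zero_add, Finset.sum_filter]
  refine Finset.sum_congr rfl fun μ hμ => ?_
  by_cases hg : Good c Z μ
  · have h5 := hg.1
    by_cases h6 : μ c = 1
    · rw [if_pos h6, h6, Nat.cast_one, one_smul]
    · have h7 : μ c = 0 := by omega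
      rw [if_neg h6, h7, Nat.cast_zero, zero_smul]
  · rw [h.2.2.1 μ hμ hg, map_zero, smul_zero, ite_self]

/-- the number of letters with `μ c = 0` -/
lemma num0 (hc : c ∉ Z) (h : κ ∈ SG S A c Z s i m) :
    ∑ μ ∈ (Mo σ d).filter (fun μ => μ c = 0), S.E μ (S.J μ κ) = (s : k) • κ := by
  have h1 := num1 A hc h
  have h2 := A.num h.1
  have h3 : ∑ μ ∈ Mo σ d, S.E μ (S.J μ κ) =
      ∑ μ ∈ (Mo σ d).filter (fun μ => μ c = 0), S.E μ (S.J μ κ) +
        ∑ μ ∈ (Mo σ d).filter (fun μ => μ c = 1), S.E μ (S.J μ κ) := by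
    rw [Finset.sum_filter, Finset.sum_filter, ← Finset.sum_add_distrib]
    refine Finset.sum_congr rfl fun μ hμ => ?_
    by_cases hg : Good c Z μ
    · have h5 := hg.1
      by_cases h6 : μ c = 1
      · have h7 : μ c ≠ 0 := by omega
        rw [if_pos h6, if_neg h7, zero_add]
      · have h7 : μ c = 0 := by omega
        rw [if_neg h6, if_pos h7, add_zero]
    · rw [h.2.2.1 μ hμ hg, map_zero, ite_self, ite_self, add_zero]
  rw [h3, h1, Nat.cast_add, add_smul] at h2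
  exact add_right_cancel h2

lemma SG_J0 (hc : c ∉ Z) (h : κ ∈ SG S A c Z (s + 1) i m) {μ : σ →₀ ℕ} (hμ : μ ∈ Mo σ d)
    (h0 : μ c = 0) : S.J μ κ ∈ SG S A c Z s i m := by
  obtain ⟨h1, h2, h3, h4⟩ := h
  refine ⟨A.GJ (by rwa [show s + 1 + i = s + i + 1 by omega] at h1), fun x hx => ?_,
    fun ν hν hg => ?_, ?_⟩
  · rw [sg_op (S.TJ x μ), h2 x hx, map_zero]
  · rw [sg_opn (S.JJ ν μ), h3 ν hν hg, map_zero, neg_zero]
  · rw [sg_DcJ c hμ, h4, h0, Nat.cast_zero, zero_smul, sub_zero, map_smul]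

lemma SG_J1 (hc : c ∉ Z) (h : κ ∈ SG S A c Z s (i + 1) m) {μ : σ →₀ ℕ} (hμ : μ ∈ Mo σ d)
    (h0 : μ c = 1) : S.J μ κ ∈ SG S A c Z s i m := by
  obtain ⟨h1, h2, h3, h4⟩ := h
  refine ⟨A.GJ (by rwa [show s + (i + 1) = s + i + 1 by omega] at h1), fun x hx => ?_,
    fun ν hν hg => ?_, ?_⟩
  · rw [sg_op (S.TJ x μ), h2 x hx, map_zero]
  · rw [sg_opn (S.JJ ν μ), h3 ν hν hg, map_zero, neg_zero]
  · rw [sg_DcJ c hμ, h4, h0, Nat.cast_one, one_smul, map_smul, Nat.cast_add, Nat.cast_one,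
      add_smul, one_smul, add_sub_cancel_right]

lemma SG_E0 (hc : c ∉ Z) (h : κ ∈ SG S A c Z s i m) {μ : σ →₀ ℕ} (hμ : μ ∈ Mo σ d)
    (hg : Good c Z μ) (h0 : μ c = 0) : S.E μ κ ∈ SG S A c Z (s + 1) i m := by
  obtain ⟨h1, h2, h3, h4⟩ := h
  refine ⟨by rw [show s + 1 + i = s + i + 1 by omega]; exact A.GE h1, fun x hx => ?_,
    fun ν hν hb => ?_, ?_⟩
  · rw [sg_op (S.TE x μ), h2 x hx, map_zero]
  · have hne : ν ≠ μ := fun h5 => hb (h5 ▸ hg)
    rw [sg_opn (S.JE ν hν μ hμ hne), h3 ν hν hb, map_zero, neg_zero]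
  · rw [sg_DcE c hμ, h4, h0, Nat.cast_zero, zero_smul, add_zero, map_smul]

lemma SG_E1 (hc : c ∉ Z) (h : κ ∈ SG S A c Z s i m) {μ : σ →₀ ℕ} (hμ : μ ∈ Mo σ d)
    (hg : Good c Z μ) (h0 : μ c = 1) : S.E μ κ ∈ SG S A c Z s (i + 1) m := by
  obtain ⟨h1, h2, h3, h4⟩ := h
  refine ⟨by rw [show s + (i + 1) = s + i + 1 by omega]; exact A.GE h1, fun x hx => ?_,
    fun ν hν hb => ?_, ?_⟩
  · rw [sg_op (S.TE x μ), h2 x hx, map_zero]
  · have hne : ν ≠ μ := fun h5 => hb (h5 ▸ hg)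
    rw [sg_opn (S.JE ν hν μ hμ hne), h3 ν hν hb, map_zero, neg_zero]
  · rw [sg_DcE c hμ, h4, h0, Nat.cast_one, one_smul, map_smul, Nat.cast_add, Nat.cast_one,
      add_smul, one_smul]

lemma SG_T (hc : c ∉ Z) (h : κ ∈ SG S A c Z s i (m + 1)) {x : σ} (hx : x ∈ Z) :
    S.T x κ ∈ SG S A c Z s i m := by
  obtain ⟨h1, h2, h3, h4⟩ := h
  refine ⟨A.GT h1, fun y hy => ?_, fun ν hν hb => ?_, ?_⟩
  · rw [sg_op (S.TT y x), h2 y hy, map_zero]
  · rw [← sg_op (S.TJ x ν), h3 ν hν hb, map_zero]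
  · have h5 := congrArg (fun f : Module.End k F => f κ) (S.D_T (X c) c x)
    simp only [Module.End.mul_apply, LinearMap.sub_apply] at h5
    rw [h5, h2 c hc, map_zero, sub_zero, h4, map_smul]

lemma SG_T0 (h : κ ∈ SG S A c Z s i 0) (x : σ) : S.T x κ = 0 := A.GT0 h.1

/-- multiplication by a form in the variables `Z` -/
lemma SG_m (hc : c ∉ Z) (h : κ ∈ SG S A c Z s i m) {a : MvPolynomial σ k} {j : ℕ}
    (ha : a.IsHomogeneous j) (ha' : ∀ x, x ∉ Z → pderiv x a = 0) :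
    S.m a κ ∈ SG S A c Z s i (m + j) := by
  obtain ⟨h1, h2, h3, h4⟩ := h
  refine ⟨A.Gm ha h1, fun y hy => ?_, fun ν hν hb => ?_, ?_⟩
  · have h5 := congrArg (fun f : Module.End k F => f κ) (S.Tm y a)
    simp only [Module.End.mul_apply, LinearMap.add_apply] at h5
    rw [h5, h2 y hy, ha' y hy, map_zero, map_zero, LinearMap.zero_apply, add_zero]
  · rw [← sg_op (S.mJ a ν), h3 ν hν hb, map_zero]
  · have h5 := congrArg (fun f : Module.End k F => f κ) (S.D_m (c := X c) c a)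
    simp only [Module.End.mul_apply, LinearMap.add_apply] at h5
    rw [h5, ha' c hc, mul_zero, map_zero, LinearMap.zero_apply, add_zero, h4, map_smul]

lemma SG_X (hc : c ∉ Z) (h : κ ∈ SG S A c Z s i m) {x : σ} (hx : x ∈ Z) :
    S.m (X x) κ ∈ SG S A c Z s i (m + 1) :=
  SG_m A hc h (isHomogeneous_X _ _) fun _ hy => pderiv_X_of_ne (sg_ne hx hy)

lemma SG_mon (hc : c ∉ Z) (h : κ ∈ SG S A c Z s i m) {j : ℕ} {ν : σ →₀ ℕ} (hν : ν ∈ Mo σ j)
    (hν' : ∀ x, x ∉ Z → ν x = 0) : S.m (monomial ν 1) κ ∈ SG S A c Z s i (m + j) :=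
  SG_m A hc h (isHomogeneous_monomial _ (mem_Mo.mp hν)) fun y hy => by
    rw [pderiv_monomial, hν' y hy, Nat.cast_zero, mul_zero, monomial_zero]

lemma SG_D (hc : c ∉ Z) (h : κ ∈ SG S A c Z s i m) {x y : σ} (hx : x ∈ Z) (hy : y ∈ Z) :
    S.D (X x) y κ ∈ SG S A c Z s i m := by
  classical
  obtain ⟨h1, h2, h3, h4⟩ := h
  refine ⟨D_mem A h1 (isHomogeneous_X _ _) y, fun z hz => ?_, fun ν hν hb => ?_, ?_⟩
  · have h5 := congrArg (fun f : Module.End k F => f κ) (S.D_T (X x) y z)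
    simp only [Module.End.mul_apply, LinearMap.sub_apply] at h5
    rw [h2 z hz, map_zero, pderiv_X_of_ne (sg_ne hx hz), map_zero, LinearMap.zero_apply,
      sub_zero] at h5
    exact h5.symm
  · have h5 := sg_DJ (S := S) (X x) y hν κ
    rw [h3 ν hν hb, map_zero] at h5
    have h6 : ∀ μ ∈ Mo σ d, coeff ν (X x * pderiv y (monomial μ (1 : k))) • S.J μ κ = 0 := by
      intro μ hμ
      by_cases h7 : coeff ν (X x * pderiv y (monomial μ (1 : k))) = 0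
      · rw [h7, zero_smul]
      · have h8 : ∀ z, z ∉ Z → ν z = μ z := by
          intro z hz
          rw [pderiv_monomial, X, monomial_mul, coeff_monomial] at h7
          by_cases h9 : (fun₀ | x => 1) + (μ - fun₀ | y => 1) = ν
          · rw [← h9, Finsupp.add_apply, Finsupp.tsub_apply,
              Finsupp.single_eq_of_ne (Ne.symm (sg_ne hx hz)),
              Finsupp.single_eq_of_ne (Ne.symm (sg_ne hy hz)), zero_add, Nat.sub_zero]
          · exact absurd (if_neg h9) h7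
        have h10 : ¬ Good c Z μ := by
          intro hg
          apply hb
          refine ⟨by rw [h8 c hc]; exact hg.1, fun z hzc hz => ?_⟩
          rw [h8 z hz]
          exact hg.2 z hzc hz
        rw [h3 μ hμ h10, smul_zero]
    rw [Finset.sum_eq_zero h6, sub_zero] at h5
    exact h5.symm
  · have h5 := congrArg (fun f : Module.End k F => f κ)
      (S.D_D (isHomogeneous_X k c) (isHomogeneous_X k x) c y)
    simp only [Module.End.mul_apply, LinearMap.sub_apply, LinearMap.add_apply] at h5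
    rw [pderiv_X_of_ne (sg_ne hx hc), pderiv_X_of_ne (Ne.symm (sg_ne hy hc)), mul_zero, mul_zero,
      sg_D_zero, sg_D_zero, LinearMap.zero_apply, add_zero, sub_zero] at h5
    rw [h5, h4, map_smul]

/-! the same for cycles -/

lemma Gam_m (hc : c ∉ Z) (h : κ ∈ Gam S A c Z s i m) {a : MvPolynomial σ k} {j : ℕ}
    (ha : a.IsHomogeneous j) (ha' : ∀ x, x ∉ Z → pderiv x a = 0) :
    S.m a κ ∈ Gam S A c Z s i (m + j) := by
  rw [mem_Gam] at h ⊢
  exact ⟨SG_m A hc h.1 ha ha', m_cycle a h.2⟩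

lemma Gam_X (hc : c ∉ Z) (h : κ ∈ Gam S A c Z s i m) {x : σ} (hx : x ∈ Z) :
    S.m (X x) κ ∈ Gam S A c Z s i (m + 1) := by
  rw [mem_Gam] at h ⊢
  exact ⟨SG_X A hc h.1 hx, m_cycle _ h.2⟩

lemma Gam_mon (hc : c ∉ Z) (h : κ ∈ Gam S A c Z s i m) {j : ℕ} {ν : σ →₀ ℕ} (hν : ν ∈ Mo σ j)
    (hν' : ∀ x, x ∉ Z → ν x = 0) : S.m (monomial ν 1) κ ∈ Gam S A c Z s i (m + j) := by
  rw [mem_Gam] at h ⊢
  exact ⟨SG_mon A hc h.1 hν hν', m_cycle _ h.2⟩

lemma Gam_D (hc : c ∉ Z) (h : κ ∈ Gam S A c Z s i m) {x y : σ} (hx : x ∈ Z) (hy : y ∈ Z) :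
    S.D (X x) y κ ∈ Gam S A c Z s i m := by
  rw [mem_Gam] at h ⊢
  exact ⟨SG_D A hc h.1 hx hy, D_cycle (isHomogeneous_X _ _) y h.2⟩

lemma Gam_J0 (hc : c ∉ Z) (h : κ ∈ Gam S A c Z (s + 1) i m) {μ : σ →₀ ℕ} (hμ : μ ∈ Mo σ d)
    (h0 : μ c = 0) : S.J μ κ ∈ Gam S A c Z s i m := by
  rw [mem_Gam] at h ⊢
  exact ⟨SG_J0 A hc h.1 hμ h0, J_cycle μ h.2⟩

lemma Gam_J1 (hc : c ∉ Z) (h : κ ∈ Gam S A c Z s (i + 1) m) {μ : σ →₀ ℕ} (hμ : μ ∈ Mo σ d)
    (h0 : μ c = 1) : S.J μ κ ∈ Gam S A c Z s i m := by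
  rw [mem_Gam] at h ⊢
  exact ⟨SG_J1 A hc h.1 hμ h0, J_cycle μ h.2⟩

end Pool.Agent.H10.OP
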