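import Pool.Agent.H10.OP.Lf

/-!
# OPS-A3: terminal cases and comparison with `H20.OPF.Ga`
-/

set_option autoImplicit false
set_option linter.unusedSectionVars false

open MvPolynomial

namespace Pool.Agent.H10.OP

open Pool.Agent.H27.OP Pool.Agent.H20.S3 Pool.Agent.H20.OPF

variable {σ k : Type*} [Fintype σ] [Field k]

/-- two good letters in at most one variable with the same `c`-degree are equal -/
lemma Good_unique89 {d : ℕ} {c : σ} {Z : Finset σ} (hc : c ∉ Z) (hZ : Z.card ≤ 1) {μ ν : σ →₀ ℕ}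
    (hμ : μ ∈ Mo σ d) (hν : ν ∈ Mo σ d) (gμ : Good c Z μ) (gν : Good c Z ν) (h : μ c = ν c) :
    μ = ν := by
  classical
  rw [mem_Mo, Finsupp.degree_eq_sum] at hμ hν
  have key : ∀ x ∈ Z, ∀ ρ : σ →₀ ℕ, Good c Z ρ → ∑ y, ρ y = ρ c + ρ x := by
    intro x hx ρ hρ
    have hcx : c ≠ x := fun h' => hc (h' ▸ hx)
    rw [← Finset.sum_pair hcx]
    symm
    refine Finset.sum_subset (Finset.subset_univ _) fun y _ hy => ?_
    rw [Finset.mem_insert, Finset.mem_singleton, not_or] at hy
    exact hρ.2 y hy.1 fun hyZ => hy.2 (Finset.card_le_one.mp hZ y hyZ x hx)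
  ext x
  by_cases hxc : x = c
  · rw [hxc, h]
  · by_cases hx : x ∈ Z
    · have h1 := key x hx μ gμ
      have h2 := key x hx ν gν
      omega
    · rw [gμ.2 x hxc hx, gν.2 x hxc hx]

variable {F : Type*} [AddCommGroup F] [Module k F] {d : ℕ}
variable {S : Fk σ k (Module.End k F) d} (A : Gr S) {c : σ} {Z : Finset σ} {s i m : ℕ} {κ : F}

include A

lemma mon_inj89 (μ : σ →₀ ℕ) : ∀ ω : F, S.m (monomial μ 1) ω = 0 → ω = 0 := by
  classical
  induction μ using Finsupp.induction_linear with
  | zero =>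
    intro ω h
    rwa [show (monomial (0 : σ →₀ ℕ) (1 : k)) = 1 from rfl, map_one, Module.End.one_apply] at h
  | add μ ν hμ hν =>
    intro ω h
    rw [show (monomial (μ + ν) (1 : k)) = monomial μ 1 * monomial ν 1 by
      rw [monomial_mul, one_mul], map_mul, Module.End.mul_apply] at h
    exact hν _ (hμ _ h)
  | single x n =>
    induction n with
    | zero =>
      intro ω h
      rwa [Finsupp.single_zero, show (monomial (0 : σ →₀ ℕ) (1 : k)) = 1 from rfl, map_one,
        Module.End.one_apply] at h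
    | succ n ih =>
      intro ω h
      rw [show (monomial (Finsupp.single x (n + 1)) (1 : k))
        = X x * monomial (Finsupp.single x n) 1 by
          rw [X, monomial_mul, one_mul, ← Finsupp.single_add, add_comm], map_mul,
        Module.End.mul_apply] at h
      exact ih _ (A.inj x _ h)

/-- one variable: there are no bi-cycles with letters.
PROOF. the only letters are `d x` and `c + (d-1) x`; `0 = T_c del κ = m (x^(d-1)) J κ` for the second,
so `J κ = 0` (`A.inj`), then `m (x^d) J κ = 0` for the first, and `A.num`. -/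
lemma one_var [CharZero k] (hd : 1 ≤ d) (hc : c ∉ Z) (hZ : Z.card ≤ 1) (hsi : 0 < s + i)
    (h : κ ∈ Gam S A c Z s i m) : κ = 0 := by
  classical
  obtain ⟨h0, hdel⟩ := mem_Gam.mp h
  obtain ⟨hG, hT, hJ, hD⟩ := mem_SG.mp h0
  have hTc : S.T c κ = 0 := hT c hc
  -- letters with `μ c = 1`
  have e1 : ∑ ν ∈ Mo σ d, S.m (pderiv c (monomial ν 1)) (S.J ν κ) = 0 := by
    have := congrArg (fun f : Module.End k F => f κ) (S.T_del c)
    simp only [Module.End.mul_apply, LinearMap.add_apply, LinearMap.sum_apply, hTc, hdel,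
      map_zero, zero_add] at this
    exact this.symm
  have e2 : ∀ μ ∈ Mo σ d, μ c = 1 → S.J μ κ = 0 := by
    intro μ hμ hμc
    by_cases hg : Good c Z μ
    · rw [Finset.sum_eq_single μ] at e1
      · rw [pderiv_monomial, one_mul, hμc, Nat.cast_one] at e1
        exact mon_inj89 A _ _ e1
      · intro ν hν hne
        by_cases hgν : Good c Z ν
        · have h1 := hgν.1
          have h2 : ν c ≠ 1 := fun h' =>
            hne (Good_unique89 hc hZ hν hμ hgν hg (h'.trans hμc.symm))
          have h3 : ν c = 0 := by omega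
          rw [pderiv_monomial, h3, Nat.cast_zero, mul_zero, monomial_zero, map_zero,
            LinearMap.zero_apply]
        · rw [hJ ν hν hgν, map_zero]
      · intro h'; exact absurd hμ h'
    · exact hJ μ hμ hg
  have e3 : ∀ μ ∈ Mo σ d, μ c = 0 → S.J μ κ = 0 := by
    intro μ hμ hμc
    by_cases hg : Good c Z μ
    · have e4 : ∑ ν ∈ Mo σ d, S.m (monomial ν 1) (S.J ν κ) = 0 := by
        have := congrArg (fun f : Module.End k F => f κ) S.del_eq
        simp only [Module.End.mul_apply, LinearMap.sum_apply, hdel] at this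
        exact this.symm
      rw [Finset.sum_eq_single μ] at e4
      · exact mon_inj89 A _ _ e4
      · intro ν hν hne
        by_cases hgν : Good c Z ν
        · have h1 := hgν.1
          have h2 : ν c ≠ 0 := fun h' =>
            hne (Good_unique89 hc hZ hν hμ hgν hg (h'.trans hμc.symm))
          rw [e2 ν hν (by omega), map_zero]
        · rw [hJ ν hν hgν, map_zero]
      · intro h'; exact absurd hμ h'
    · exact hJ μ hμ hg
  have e5 : ∀ μ ∈ Mo σ d, S.J μ κ = 0 := by
    intro μ hμ
    by_cases hg : Good c Z μ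
    · have h1 := hg.1
      rcases Nat.eq_zero_or_pos (μ c) with h2 | h2
      · exact e3 μ hμ h2
      · exact e2 μ hμ (by omega)
    · exact hJ μ hμ hg
  have e6 := A.num hG
  rw [Finset.sum_eq_zero fun μ hμ => by rw [e5 μ hμ, map_zero]] at e6
  rcases smul_eq_zero.mp e6.symm with h1 | h1
  · exact absurd (Nat.cast_eq_zero.mp h1) (by omega)
  · exact h1

/-- polynomials of degree `m' + j` are combinations of monomials of degree `j` times polynomials
of degree `m'` -/
lemma zero_span89 [CharZero k] (hc : c ∉ Z) (j : ℕ) : ∀ (m' : ℕ) (κ : F),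
    κ ∈ Gam S A c Z 0 0 (m' + j) → κ ∈ Submodule.span k {v | ∃ μ ∈ Mo σ j, (∀ x, x ∉ Z → μ x = 0) ∧
      ∃ κ' ∈ Gam S A c Z 0 0 m', v = S.m (monomial μ 1) κ'} := by
  classical
  induction j with
  | zero =>
    intro m' κ h
    refine Submodule.subset_span ⟨0, by rw [mem_Mo]; simp, fun _ _ => rfl, κ, h, ?_⟩
    rw [show (monomial (0 : σ →₀ ℕ) (1 : k)) = 1 from rfl, map_one, Module.End.one_apply]
  | succ j ih =>
    intro m' κ h
    obtain ⟨h0, hdel⟩ := mem_Gam.mp h
    have hT : ∀ x, x ∉ Z → S.T x κ = 0 := h0.2.1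
    have hcyc : ∀ {n : ℕ} {ω : F}, ω ∈ A.G 0 n → S.del ω = 0 := by
      intro n ω hω
      rw [S.del_eq, LinearMap.sum_apply]
      refine Finset.sum_eq_zero fun μ _ => ?_
      rw [Module.End.mul_apply, A.GJ0 hω, map_zero]
    have hx : ∀ x ∈ Z, S.m (X x) (S.T x κ) ∈ Submodule.span k {v | ∃ μ ∈ Mo σ (j + 1),
        (∀ x, x ∉ Z → μ x = 0) ∧ ∃ κ' ∈ Gam S A c Z 0 0 m', v = S.m (monomial μ 1) κ'} := by
      intro x hx
      have h1 : S.T x κ ∈ SG S A c Z 0 0 (m' + j) := SG_T A hc h0 hx
      have h2 := ih m' _ (mem_Gam.mpr ⟨h1, hcyc h1.1⟩)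
      refine Submodule.span_induction (p := fun v _ => S.m (X x) v ∈ Submodule.span k
        {v | ∃ μ ∈ Mo σ (j + 1), (∀ x, x ∉ Z → μ x = 0) ∧
          ∃ κ' ∈ Gam S A c Z 0 0 m', v = S.m (monomial μ 1) κ'}) ?_ ?_ ?_ ?_ h2
      · rintro v ⟨μ, hμ, hμZ, κ', hκ', rfl⟩
        refine Submodule.subset_span ⟨Finsupp.single x 1 + μ, ?_, ?_, κ', hκ', ?_⟩
        · rw [mem_Mo] at hμ ⊢
          rw [map_add, hμ, Finsupp.degree_single, add_comm]
        · intro y hy
          have hxy : y ≠ x := fun h' => hy (h' ▸ hx)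
          rw [Finsupp.add_apply, hμZ y hy, Finsupp.single_eq_of_ne hxy]
        · rw [← Module.End.mul_apply, ← map_mul, X, monomial_mul, one_mul]
      · rw [map_zero]; exact zero_mem _
      · intro v w _ _ hv hw
        rw [map_add]; exact add_mem hv hw
      · intro t v _ hv
        rw [map_smul]; exact Submodule.smul_mem _ _ hv
    have h3 := A.eul h0.1
    rw [← Finset.sum_subset (Finset.subset_univ Z)
      (fun x _ hxZ => by rw [hT x hxZ, map_zero])] at h3
    have h4 : ((m' + (j + 1) : ℕ) : k) ≠ 0 := Nat.cast_ne_zero.mpr (by omega)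
    have h5 : κ = ((m' + (j + 1) : ℕ) : k)⁻¹ • ∑ x ∈ Z, S.m (X x) (S.T x κ) := by
      rw [h3, smul_smul, inv_mul_cancel₀ h4, one_smul]
    rw [h5]
    exact Submodule.smul_mem _ _ (Submodule.sum_mem _ hx)

/-- no letters: polynomials of degree `m ≥ d` are products -/
lemma zero_letters [CharZero k] (hc : c ∉ Z) (hm : d ≤ m) {R : ℤ} {K : Submodule k F}
    (hK : Clo S A c Z 0 0 m R K) : Gam S A c Z 0 0 m ≤ K := by
  intro κ hκ
  have e : m = (m - d) + d := by omega
  have h1 := zero_span89 A hc d (m - d) κ (by rw [← e]; exact hκ)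
  refine (Submodule.span_le.mpr ?_) h1
  rintro v ⟨μ, hμ, hμZ, κ', hκ', rfl⟩
  exact hK.ml (m - d) e κ' hκ' μ hμ hμZ

/-- comparison of the definitions -/
lemma Gam_univ [CharZero k] [DecidableEq σ] (s i m : ℕ) :
    Gam S A c (Finset.univ.erase c) s i m = Ga A c s i m := by
  have hSG : ∀ κ : F, κ ∈ SG S A c (Finset.univ.erase c) s i m ↔ κ ∈ Gm A c s i m := by
    intro κ
    rw [mem_SG, mem_Gm]
    have hz : ∀ x, x ∉ Finset.univ.erase c ↔ x = c := by
      intro x
      simp
    have hg : ∀ μ : σ →₀ ℕ, ¬ Good c (Finset.univ.erase c) μ ↔ 2 ≤ μ c := by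
      intro μ
      unfold Good
      constructor
      · intro h
        by_contra h'
        exact h ⟨by omega, fun x hx hx' => absurd ((hz x).mp hx') hx⟩
      · intro h h'
        have := h'.1
        omega
    constructor
    · rintro ⟨h1, h2, h3, h4⟩
      exact ⟨h1, h2 c ((hz c).mpr rfl), fun μ hμ h => h3 μ hμ ((hg μ).mpr h), h4⟩
    · rintro ⟨h1, h2, h3, h4⟩
      exact ⟨h1, fun x hx => by rw [(hz x).mp hx]; exact h2,
        fun μ hμ h => h3 μ hμ ((hg μ).mp h), h4⟩
  ext κ
  rw [mem_Gam, mem_Ga, hSG]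
  refine and_congr_right fun hκ => ?_
  obtain ⟨hG, hT, hJ, hD⟩ := (mem_Gm A c).mp hκ
  have hd2 : d2 S c κ = 0 := by
    unfold d2
    rw [LinearMap.sum_apply]
    refine Finset.sum_eq_zero fun μ hμ => ?_
    rw [Finset.mem_filter] at hμ
    rw [Module.End.mul_apply, hJ μ hμ.1 hμ.2, map_zero]
  have hdel : S.del κ = dS S c κ + S.m (X c) (d1 S c κ) := by
    rw [del_eq_dS_dA S c, dA_eq_d1_d2 S c]
    simp only [LinearMap.add_apply, Module.End.mul_apply, hd2, map_zero, add_zero]
  have hTm : ∀ (μ : σ →₀ ℕ) (ν : σ →₀ ℕ), μ c = 0 →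
      S.T c (S.m (monomial μ 1) (S.J ν κ)) = 0 := by
    intro μ ν hμ
    have h1 := congrArg (fun f : Module.End k F => f (S.J ν κ)) (S.Tm c (monomial μ (1 : k)))
    have h2 := congrArg (fun f : Module.End k F => f κ) (S.TJ c ν)
    simp only [Module.End.mul_apply, LinearMap.add_apply] at h1 h2
    rw [h1, h2, hT, map_zero, map_zero, zero_add, pderiv_monomial, hμ, Nat.cast_zero, mul_zero,
      monomial_zero, map_zero, LinearMap.zero_apply]
  have hTS : S.T c (dS S c κ) = 0 := by
    unfold dS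
    rw [LinearMap.sum_apply, map_sum]
    refine Finset.sum_eq_zero fun μ hμ => ?_
    rw [Finset.mem_filter] at hμ
    rw [Module.End.mul_apply]
    exact hTm μ μ hμ.2
  have hT1 : S.T c (d1 S c κ) = 0 := by
    unfold d1
    rw [LinearMap.sum_apply, map_sum]
    refine Finset.sum_eq_zero fun μ hμ => ?_
    rw [Finset.mem_filter] at hμ
    rw [Module.End.mul_apply]
    refine hTm _ μ ?_
    rw [Finsupp.tsub_apply, hμ.2, Finsupp.single_eq_same]
  have hTX : S.T c (S.m (X c) (d1 S c κ)) = d1 S c κ := by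
    have h1 := congrArg (fun f : Module.End k F => f (d1 S c κ)) (S.Tm c (X c))
    simp only [Module.End.mul_apply, LinearMap.add_apply] at h1
    rw [h1, hT1, map_zero, zero_add, pderiv_X_self, map_one, Module.End.one_apply]
  constructor
  · intro h
    rw [hdel] at h
    have h1 := congrArg (S.T c) h
    rw [map_add, hTS, hTX, zero_add, map_zero] at h1
    refine ⟨?_, h1⟩
    rwa [h1, map_zero, add_zero] at h
  · rintro ⟨h1, h2⟩
    rw [hdel, h1, h2, map_zero, add_zero]

end Pool.Agent.H10.OP
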