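import Pool.Agent.H10.OP.PsiK
import Pool.Agent.H10.OP.Extr
import Pool.Agent.H10.OP.Term
import Pool.Agent.H10.OP.CapZ

/-!
# OPS-E: extraction of one row
-/

set_option autoImplicit false
set_option linter.unusedSectionVars false

open MvPolynomial

namespace Pool.Agent.H10.OP

open Pool.Agent.H27.OP Pool.Agent.H20.S3

variable {σ k : Type*} [Fintype σ] [Field k]
variable {F : Type*} [AddCommGroup F] [Module k F] {d : ℕ}
variable {S : Fk σ k (Module.End k F) d} (A : Gr S)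
variable {XF : Type*} [AddCommGroup XF] [Module k XF] (Y : Xt S XF)
variable {c : σ} {Z : Finset σ} {e s i m : ℕ}

lemma sum_le_mul {R : ℤ} {w : σ → ℕ} (L : List σ) (h : ∀ x ∈ L, (w x : ℤ) ≤ R) :
    (((L.map w).sum : ℕ) : ℤ) ≤ L.length * R := by
  induction L with
  | nil => simp
  | cons x L ih =>
    have h1 := ih fun y hy => h y (List.mem_cons_of_mem _ hy)
    have h2 := h x List.mem_cons_self
    rw [List.map_cons, List.sum_cons, List.length_cons]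
    push_cast
    push_cast at h1
    linarith

/-- a closed element `ξ0 + τ ξ1` -/
lemma closed_split [CharZero k] {ξ0 ξ1 : XF} (h0 : Y.S'.dth ξ0 = 0) (h1 : Y.S'.dth ξ1 = 0)
    (h : Y.S'.dx e (ξ0 + Y.S'.th ξ1) = 0) : Y.S'.del ξ0 = 0 := by
  have a1 : Y.S'.dx e ξ0 = Y.S'.del ξ0 - Y.S'.th (PP Y.S' e ξ0) := by
    rw [dx_eq]; rfl
  have a2 : Y.S'.dx e (Y.S'.th ξ1) = -(Y.S'.th (Y.S'.del ξ1)) := by
    have := congrArg (fun f : Module.End k XF => f ξ1) (dx_th Y.S' e)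
    simpa only [Module.End.mul_apply, LinearMap.neg_apply] using this
  have b1 : ∀ ξ : XF, Y.S'.dth ξ = 0 → Y.S'.dth (Y.S'.del ξ) = 0 := by
    intro ξ hξ
    have := congrArg (fun f : Module.End k XF => f ξ) Y.S'.dth_del
    simp only [Module.End.mul_apply, LinearMap.neg_apply] at this
    rw [this, hξ, map_zero, neg_zero]
  have b2 : Y.S'.dth (PP Y.S' e ξ0) = 0 := by
    have h3 : Y.S'.dth * PP Y.S' e = PP Y.S' e * Y.S'.dth := by
      unfold PP
      rw [Finset.mul_sum, Finset.sum_mul]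
      refine Finset.sum_congr rfl fun ν _ => ?_
      rw [← mul_assoc, Y.S'.dthm, mul_assoc, ← Y.S'.dbdth, mul_assoc]
    have := congrArg (fun f : Module.End k XF => f ξ0) h3
    simp only [Module.End.mul_apply] at this
    rw [this, h0, map_zero]
  have b3 : Y.S'.dth (PP Y.S' e ξ0 + Y.S'.del ξ1) = 0 := by
    rw [map_add, b2, b1 ξ1 h1, add_zero]
  rw [map_add, a1, a2] at h
  have h4 : Y.S'.del ξ0 = Y.S'.th (PP Y.S' e ξ0 + Y.S'.del ξ1) := by
    rw [map_add]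
    have : Y.S'.del ξ0 - (Y.S'.th (PP Y.S' e ξ0) + Y.S'.th (Y.S'.del ξ1)) = 0 := by
      rw [← h]; abel
    exact sub_eq_zero.mp this
  have h5 := congrArg (fun f : Module.End k XF => f (PP Y.S' e ξ0 + Y.S'.del ξ1)) Y.S'.dd
  simp only [Module.End.mul_apply, LinearMap.sub_apply, Module.End.one_apply] at h5
  rw [b3, map_zero, sub_zero, ← h4, b1 ξ0 h0] at h5
  rw [h4, ← h5, map_zero]

/-- `τ ξ` closed -/
lemma closed_th {ξ : XF} (h0 : Y.S'.dth ξ = 0) (h : Y.S'.dx e (Y.S'.th ξ) = 0) :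
    Y.S'.del ξ = 0 := by
  have a2 : Y.S'.dx e (Y.S'.th ξ) = -(Y.S'.th (Y.S'.del ξ)) := by
    have := congrArg (fun f : Module.End k XF => f ξ) (dx_th Y.S' e)
    simpa only [Module.End.mul_apply, LinearMap.neg_apply] using this
  rw [a2, neg_eq_zero] at h
  refine th_inj Y ?_ h
  have := congrArg (fun f : Module.End k XF => f ξ) Y.S'.dth_del
  simp only [Module.End.mul_apply, LinearMap.neg_apply] at this
  rw [this, h0, map_zero, neg_zero]

lemma cs_le (c : σ) (l : List (σ →₀ ℕ)) (h : ∀ ν ∈ l, ν c ≤ 1) : cs c l ≤ l.length := by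
  unfold cs
  induction l with
  | nil => simp
  | cons a l ih =>
    have h1 := ih fun ν hν => h ν (List.mem_cons_of_mem _ hν)
    have h2 := h a List.mem_cons_self
    rw [List.map_cons, List.sum_cons, List.length_cons]
    omega

/-- `Kp` is everything if the `c`-degree is too large -/
lemma Kp_top {L : List σ} {q v : ℕ} (h : q < v) (K : Submodule k F) (y : F) :
    y ∈ Kp Y c Z e L q v K := by
  intro l hl hlq hlv
  have := cs_le c l fun ν hν => (hl ν hν).2.1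
  omega

lemma XG_le_XB {q : ℕ} {ξ : XF} (h : ξ ∈ XG Y A c Z e q s i m) : ξ ∈ XB Y A c Z e q s i m :=
  XM_mono Y (fun _ _ => inf_le_left) h

include A Y

/-- the main computation: `κ ∈ K` if all new spaces `Gam` lie in `Kp` -/
lemma row [CharZero k] (hd : d = e + 1) (hc : c ∉ Z) (hgen : Gener S A c) {K : Submodule k F}
    {Z' : Finset σ} (hZ : Z' ⊆ Z) {L : List σ} (hn : L.Nodup) (hL : ∀ x, x ∈ L ↔ x ∈ Z') {q : ℕ}
    (hlen : L.length = q + 1) (hq : s + i ≤ q + 1 + m) {κ : F} (hκ : κ ∈ Gam S A c Z s i (m + 1))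
    (hκ' : κ ∈ Gam S A c Z' s i (m + 1)) {w : σ → ℕ} (hw : ∀ x, S.D (X x) x κ = (w x : k) • κ)
    (hop : ∀ κ ∈ Gam S A c Z s i (m + 1), κ ∈ K → ∀ x ∈ Z, ∀ y ∈ Z, S.D (X x) y κ ∈ K)
    (hp : L.Pairwise fun x y => S.D (X x) y κ ∈ K) (hne : ∀ z ∈ L, w z ≠ 0)
    (h : ∀ s' i' v, s' + q = s + v → i' + v = i → Gam S A c Z' s' i' m ≤ Kp Y c Z' e L q v K) :
    κ ∈ K := by
  classical
  have hc' : c ∉ Z' := fun hh => hc (hZ hh)
  have hLZ' : ∀ x ∈ L, x ∈ Z' := fun x hx => (hL x).mp hx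
  have hLZ : ∀ x ∈ L, x ∈ Z := fun x hx => hZ (hLZ' x hx)
  obtain ⟨ξ0, hξ0, ξ1, hξ1, hT⟩ := TT_split A Y hd hc' (mem_Gam.mp hκ').1 L hLZ' hlen
  -- the element is closed
  have hdx : Y.S'.dx e (ξ0 + Y.S'.th ξ1) = 0 := by
    rw [← hT]
    have h1 := congrArg (fun f : Module.End k XF => f (Y.j κ)) (dx_TT Y.S' hd L)
    simp only [Module.End.mul_apply, LinearMap.smul_apply] at h1
    rw [h1, dx_j, (mem_Gam.mp hκ').2, map_zero, map_zero, smul_zero]
  have hdel0 : Y.S'.del ξ0 = 0 :=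
    closed_split Y (XM_dth Y hξ0) (XM_dth Y hξ1) hdx
  have hG0 : ξ0 ∈ XG Y A c Z' e (q + 1) s i (m + 1) := XB_ker Y A hξ0 hdel0
  obtain ⟨ζ, hζ, hζs⟩ := XG_gen Y A hc' hgen hq hG0
  have h1 : ∀ x : σ, ∃ ξ' : XF, x ∈ Z' → ξ' ∈ XB Y A c Z' e q s i m ∧
      Y.S'.Rx e x (Y.S'.th (ζ x)) = Y.S'.m (X x) (ζ x) - Y.S'.th ξ' := by
    intro x
    by_cases hx : x ∈ Z'
    · obtain ⟨ξ', h2, h3⟩ := Rx_th_XB A Y hd hc' hx (XG_le_XB A Y (hζ x hx))
      exact ⟨ξ', fun _ => ⟨h2, h3⟩⟩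
    · exact ⟨0, fun hh => absurd hh hx⟩
  choose ξ' hξ' using h1
  -- the new element
  have hη : ξ1 + ∑ x ∈ Z', ξ' x ∈ XB Y A c Z' e q s i m :=
    add_mem hξ1 (Submodule.sum_mem _ fun x hx => (hξ' x hx).1)
  have hω : Y.S'.Tl e L (Y.j κ) - ∑ x ∈ Z', Y.S'.Rx e x (Y.S'.th (ζ x))
      = Y.S'.th (ξ1 + ∑ x ∈ Z', ξ' x) := by
    rw [Finset.sum_congr rfl fun x hx => (hξ' x hx).2, Finset.sum_sub_distrib, ← hζs, hT, map_add,
      map_sum]
    abel
  have hdx' : Y.S'.dx e (Y.S'.th (ξ1 + ∑ x ∈ Z', ξ' x)) = 0 := by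
    rw [← hω, map_sub, hT, hdx, map_sum, zero_sub, neg_eq_zero]
    refine Finset.sum_eq_zero fun x hx => ?_
    have h2 := congrArg (fun f : Module.End k XF => f (Y.S'.th (ζ x))) (Y.S'.dx_Rx hd x)
    simp only [Module.End.mul_apply, LinearMap.neg_apply] at h2
    have h3 := congrArg (fun f : Module.End k XF => f (ζ x)) (dx_th Y.S' e)
    simp only [Module.End.mul_apply, LinearMap.neg_apply] at h3
    rw [h2, h3, XG_del Y A (hζ x hx), map_zero, neg_zero, map_zero, neg_zero]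
  have hηG : ξ1 + ∑ x ∈ Z', ξ' x ∈ XG Y A c Z' e q s i m :=
    XB_ker Y A hη (closed_th Y (XM_dth Y hη) hdx')
  -- application of R_L
  have hR : Y.S'.Rl e L (Y.S'.Tl e L (Y.j κ)) = Y.S'.Rl e L (Y.S'.th (ξ1 + ∑ x ∈ Z', ξ' x)) := by
    rw [← hω, map_sub, map_sum]
    have h2 : ∑ x ∈ Z', Y.S'.Rl e L (Y.S'.Rx e x (Y.S'.th (ζ x))) = 0 := by
      refine Finset.sum_eq_zero fun x hx => ?_
      refine Pool.Agent.H27.OPS.Rl_Rx_zero Y.S' e L ((hL x).mpr hx) ?_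
      have h4 : Y.S'.dth (ζ x) = 0 := XM_dth Y (hζ x hx)
      have h3 := congrArg (fun f : Module.End k XF => f (ζ x)) Y.S'.dd
      simp only [Module.End.mul_apply, LinearMap.sub_apply, Module.End.one_apply] at h3
      rw [h3, h4, map_zero, sub_zero, h4]
    rw [h2, sub_zero]
  obtain ⟨y, hy, hy'⟩ := Rl_th_XG A Y hd hc' L hLZ' hlen hηG
  have hyK : Y.pr (Y.S'.Rl e L (Y.S'.th (ξ1 + ∑ x ∈ Z', ξ' x))) ∈ K := XG_psi A Y hηG h
  have hW : κ ∈ K ⊓ Gam S A c Z s i (m + 1) := by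
    refine capZ Y hd (Z := Z) (w := w) ?_ L hLZ (fun x _ => hw x) hn ?_ hne ?_
    · intro x hx y hy v hv
      exact ⟨hop v hv.2 hv.1 x hx y hy, Gam_D A hc hv.2 hx hy⟩
    · refine hp.imp_of_mem ?_
      intro x y hx hy hxy
      exact ⟨hxy, Gam_D A hc hκ (hLZ x hx) (hLZ y hy)⟩
    · rw [hR]
      refine ⟨hyK, ?_⟩
      rw [hy', Y.pr_j]
      exact Gam_mono A hZ hy
  exact hW.1

theorem step [CharZero k] (hd : d = e + 1) (hc : c ∉ Z) (hgen : Gener S A c) {R : ℤ}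
    {K : Submodule k F} (hK : Clo S A c Z s i (m + 1) R K)
    (hnot : ¬ Gam S A c Z s i (m + 1) ≤ K) :
    ∃ Z' : Finset σ, Z' ⊆ Z ∧ ∃ q : ℕ, Z'.card = q + 1 ∧
      (((d : ℤ) - 1) * (s + i) + s + (m + 1) ≤ (q + 1) * R) ∧
      (0 < s + i → 1 ≤ q) ∧
      (s + i ≤ q + 1 + m → ∃ s' i' v : ℕ, ∃ K' : Submodule k F, v ≤ q ∧ s' + q = s + v ∧
        i' + v = i ∧ Clo S A c Z' s' i' m (R - 1) K' ∧ ¬ Gam S A c Z' s' i' m ≤ K') := by
  classical
  obtain ⟨κ, hκ, hκK, w, hw, L, hLn, hL, hLp, hsum⟩ := extremal A hc hK.op hnot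
  have hLZ : ∀ x ∈ L, x ∈ Z := fun x hx => ((hL x).mp hx).1
  have hZ : L.toFinset ⊆ Z := fun x hx => hLZ x (List.mem_toFinset.mp hx)
  have hc' : c ∉ L.toFinset := fun hh => hc (hZ hh)
  have hκ' : κ ∈ Gam S A c L.toFinset s i (m + 1) := by
    refine Gam_restrict A hc hκ hZ fun x hx hx' => ?_
    have h1 : w x = 0 := by
      by_contra h2
      exact hx' (List.mem_toFinset.mpr ((hL x).mpr ⟨hx, h2⟩))
    rw [hw, h1, Nat.cast_zero, zero_smul]
  have hcard : L.toFinset.card = L.length := List.toFinset_card_of_nodup hLn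
  have hwR : ∀ x ∈ L, (w x : ℤ) ≤ R := by
    intro x hx
    by_contra h1
    exact hκK (hK.wt κ hκ x (hLZ x hx) (w x) (not_le.mp h1) (hw x))
  have hsum' := sum_le_mul L hwR
  have hpos : 0 < L.length := by
    rcases L with _ | ⟨x, L⟩
    · simp only [List.map_nil, List.sum_nil, zero_add] at hsum
      exfalso
      have h1 : i ≤ d * (s + i) := by
        rw [hd]
        nlinarith
      omega
    · simp
  obtain ⟨q, hq⟩ : ∃ q, L.length = q + 1 := ⟨L.length - 1, by omega⟩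
  refine ⟨L.toFinset, hZ, q, by rw [hcard, hq], ?_, ?_, ?_⟩
  · have h1 : (((L.map w).sum : ℕ) : ℤ) + i = (m + 1) + d * (s + i) := by
      exact_mod_cast hsum
    rw [hq] at hsum'
    push_cast at hsum' h1 ⊢
    linarith
  · intro hsi
    by_contra h1
    have h2 : L.toFinset.card ≤ 1 := by omega
    exact hκK (by rw [one_var A (by omega) hc' h2 hsi hκ']; exact zero_mem _)
  · intro hgc
    by_contra hcon
    push Not at hcon
    refine hκK (row A Y hd hc hgen hZ hLn (fun x => List.mem_toFinset.symm) hq hgc hκ hκ' hw hK.op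
      hLp (fun z hz => ((hL z).mp hz).2) ?_)
    intro s' i' v h1 h2
    rcases Nat.lt_or_ge q v with h3 | h3
    · exact fun y _ => Kp_top Y h3 K y
    · exact hcon s' i' v _ h3 h1 h2
        (Kp_Clo A Y hd hc hZ hK hLn (fun x => List.mem_toFinset.symm) hq h1 h2)

end Pool.Agent.H10.OP
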