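import Pool.Agent.H10.OP.Defs

/-!
# OPS-B1: further identities in the extended algebra
-/

set_option autoImplicit false
set_option linter.unusedSectionVars false

open MvPolynomial

namespace Pool.Agent.H10.OP

open Pool.Agent.H27.OP Pool.Agent.H20.S3

variable {σ k : Type*} [Fintype σ] [Field k]

section ring

variable {O : Type*} [Ring O] [Algebra k O] {d : ℕ} (S : Fx σ k O d)

/-- the slot part of `Rx` -/
noncomputable def Rb (S : Fx σ k O d) (e : ℕ) (x : σ) : O :=
  ∑ ν ∈ Mo σ e, S.Ee (X x * monomial ν 1) * S.db ν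

/-- the slot part of `Dx` -/
noncomputable def Db (S : Fx σ k O d) (e : ℕ) (x y : σ) : O :=
  ∑ ν ∈ Mo σ e, S.Bb e (pderiv y (X x * monomial ν 1)) * S.db ν

lemma Rx_eq (e : ℕ) (x : σ) : S.Rx e x = S.m (X x) * S.dth + Rb S e x := rfl

lemma Dx_eq (e : ℕ) (x y : σ) : S.Dx e x y = S.D (X x) y + Db S e x y := rfl

/-- operators commuting with `Ee`, `db` commute with `Rb` -/
lemma Rb_comm (e : ℕ) (x : σ) {Z : O} (hE : ∀ u, Z * S.Ee u = S.Ee u * Z)
    (hb : ∀ ν, Z * S.db ν = S.db ν * Z) : Z * Rb S e x = Rb S e x * Z := by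
  unfold Rb
  rw [Finset.mul_sum, Finset.sum_mul]
  refine Finset.sum_congr rfl fun ν _ => ?_
  rw [← mul_assoc, hE, mul_assoc, hb, mul_assoc]

lemma Rb_anti (e : ℕ) (x : σ) {Z : O} (hE : ∀ u, Z * S.Ee u = -(S.Ee u * Z))
    (hb : ∀ ν, Z * S.db ν = S.db ν * Z) : Z * Rb S e x = -(Rb S e x * Z) := by
  unfold Rb
  rw [Finset.mul_sum, Finset.sum_mul, ← Finset.sum_neg_distrib]
  refine Finset.sum_congr rfl fun ν _ => ?_
  rw [← mul_assoc, hE, neg_mul, mul_assoc, hb, mul_assoc]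

lemma Db_comm (e : ℕ) (x y : σ) {Z : O} (hB : ∀ u, Z * S.Bb e u = S.Bb e u * Z)
    (hb : ∀ ν, Z * S.db ν = S.db ν * Z) : Z * Db S e x y = Db S e x y * Z := by
  unfold Db
  rw [Finset.mul_sum, Finset.sum_mul]
  refine Finset.sum_congr rfl fun ν _ => ?_
  rw [← mul_assoc, hB, mul_assoc, hb, mul_assoc]

lemma m_Rb (e : ℕ) (x : σ) (a : MvPolynomial σ k) : S.m a * Rb S e x = Rb S e x * S.m a :=
  Rb_comm S e x (fun u => S.mEe a u) (fun ν => (S.dbm ν a).symm)

lemma dth_Rb (e : ℕ) (x : σ) : S.dth * Rb S e x = -(Rb S e x * S.dth) :=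
  Rb_anti S e x (fun u => S.Ee_comm_dth u) (fun ν => (S.dbdth ν).symm)

lemma th_Rb (e : ℕ) (x : σ) : S.th * Rb S e x = -(Rb S e x * S.th) :=
  Rb_anti S e x (fun u => S.Ee_comm_th u) (fun ν => (S.dbth ν).symm)

lemma thdth_Rb (e : ℕ) (x : σ) : S.th * S.dth * Rb S e x = Rb S e x * (S.th * S.dth) := by
  rw [mul_assoc, dth_Rb, mul_neg, ← mul_assoc, th_Rb, neg_mul, neg_neg, mul_assoc]

lemma Rb_Rb (e : ℕ) (x y : σ) : Rb S e x * Rb S e y = -(Rb S e y * Rb S e x) := by
  unfold Rb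
  rw [Finset.sum_mul_sum, Finset.sum_mul_sum, Finset.sum_comm, ← Finset.sum_neg_distrib]
  refine Finset.sum_congr rfl fun ν _ => ?_
  rw [← Finset.sum_neg_distrib]
  refine Finset.sum_congr rfl fun μ _ => ?_
  have e1 : ∀ (u v : MvPolynomial σ k) (α β : σ →₀ ℕ), S.Ee u * S.db α * (S.Ee v * S.db β)
      = S.Ee u * S.Ee v * (S.db α * S.db β) := by
    intro u v α β
    rw [mul_assoc, ← mul_assoc (S.db α), S.db_Ee, mul_assoc, ← mul_assoc]
  rw [e1, e1, S.EeEe, S.dbdb, neg_mul]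

lemma Rx_Rx (hdd : S.dth * S.dth = 0) {e : ℕ} (x y : σ) :
    S.Rx e x * S.Rx e y = -(S.Rx e y * S.Rx e x) := by
  have h1 : ∀ x y : σ, S.m (X x) * S.dth * (S.m (X y) * S.dth) = 0 := by
    intro x y
    rw [mul_assoc, ← mul_assoc S.dth, S.dthm, mul_assoc (S.m (X y)), hdd, mul_zero, mul_zero]
  have h2 : ∀ x y : σ, S.m (X x) * S.dth * Rb S e y = -(Rb S e y * (S.m (X x) * S.dth)) := by
    intro x y
    rw [mul_assoc, dth_Rb, mul_neg, ← mul_assoc, m_Rb, mul_assoc]
  rw [Rx_eq, Rx_eq, add_mul, mul_add, mul_add, add_mul, mul_add, mul_add, h1, h1, h2, h2,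
    Rb_Rb S e x y]
  abel

lemma two_torsion [CharZero k] {z : O} (h : z = -z) : z = 0 := by
  have h2 : (2 : k) • z = 0 := by
    rw [two_smul]
    nth_rewrite 1 [h]
    exact neg_add_cancel _
  have h3 := congrArg (fun w => (2 : k)⁻¹ • w) h2
  simpa [smul_smul] using h3

lemma Rx_sq [CharZero k] (hdd : S.dth * S.dth = 0) {e : ℕ} (x : σ) :
    S.Rx e x * S.Rx e x = 0 :=
  two_torsion (k := k) (Rx_Rx S hdd x x)

/-- `R_L R_x = 0` for `x ∈ L` -/
lemma Rl_Rx_mem [CharZero k] (hdd : S.dth * S.dth = 0) {e : ℕ} {x : σ} {L : List σ}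
    (hx : x ∈ L) : S.Rl e L * S.Rx e x = 0 := by
  induction L with
  | nil => simp at hx
  | cons y L ih =>
    rw [Fx.Rl, mul_assoc]
    by_cases h : x = y
    · subst h
      rw [Rx_sq S hdd, mul_zero]
    · rw [Rx_Rx S hdd, mul_neg, ← mul_assoc, ih ((List.mem_cons.mp hx).resolve_left h), zero_mul,
        neg_zero]

lemma Rx_Rl_comm (hdd : S.dth * S.dth = 0) {e : ℕ} (x : σ) (L : List σ) :
    S.Rx e x * S.Rl e L = Fk.sg k L.length • (S.Rl e L * S.Rx e x) := by
  induction L with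
  | nil => simp [Fx.Rl, Fk.sg]
  | cons y L ih =>
    rw [Fx.Rl, ← mul_assoc, ih, smul_mul_assoc, mul_assoc, Rx_Rx S hdd, mul_neg, smul_neg,
      List.length_cons, Fk.sg_succ, neg_smul, mul_assoc]

lemma Rx_Rl_mem [CharZero k] (hdd : S.dth * S.dth = 0) {e : ℕ} {x : σ} {L : List σ}
    (hx : x ∈ L) : S.Rx e x * S.Rl e L = 0 := by
  rw [Rx_Rl_comm S hdd, Rl_Rx_mem S hdd hx, smul_zero]

/-! ### commutators with `Hx` -/

lemma D_dth (c : MvPolynomial σ k) (y : σ) : S.D c y * S.dth = S.dth * S.D c y := by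
  unfold Fk.D
  rw [add_mul, mul_add, Finset.sum_mul, Finset.mul_sum]
  congr 1
  · rw [mul_assoc, ← S.dthT, ← mul_assoc, ← S.dthm, mul_assoc]
  · refine Finset.sum_congr rfl fun μ _ => ?_
    rw [mul_assoc, show S.J μ * S.dth = -(S.dth * S.J μ) by rw [S.dthJ, neg_neg], mul_neg,
      ← mul_assoc, show S.Ee (c * pderiv y (monomial μ 1)) * S.dth
        = -(S.dth * S.Ee (c * pderiv y (monomial μ 1))) by rw [S.Ee_comm_dth, neg_neg], neg_mul,
      neg_neg, mul_assoc]

lemma D_db (c : MvPolynomial σ k) (y : σ) (ν : σ →₀ ℕ) :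
    S.D c y * S.db ν = S.db ν * S.D c y := by
  unfold Fk.D
  rw [add_mul, mul_add, Finset.sum_mul, Finset.mul_sum]
  congr 1
  · rw [mul_assoc, ← S.dbT, ← mul_assoc, ← S.dbm, mul_assoc]
  · refine Finset.sum_congr rfl fun μ _ => ?_
    rw [mul_assoc, ← S.dbJ, ← mul_assoc, ← S.db_Ee, mul_assoc]

lemma D_b (c : MvPolynomial σ k) (y : σ) (ν : σ →₀ ℕ) :
    S.D c y * S.b ν = S.b ν * S.D c y := by
  unfold Fk.D
  rw [add_mul, mul_add, Finset.sum_mul, Finset.mul_sum]
  congr 1
  · rw [mul_assoc, ← S.bT, ← mul_assoc, ← S.bm, mul_assoc]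
  · refine Finset.sum_congr rfl fun μ _ => ?_
    have h : S.b ν * S.Ee (c * pderiv y (monomial μ 1))
        = S.Ee (c * pderiv y (monomial μ 1)) * S.b ν := by
      rw [Fk.Ee_apply, Finset.mul_sum, Finset.sum_mul]
      refine Finset.sum_congr rfl fun μ _ => ?_
      rw [mul_smul_comm, smul_mul_assoc, S.bE]
    rw [mul_assoc, ← S.bJ, ← mul_assoc, ← h, mul_assoc]

/-- `∂_y (x_x f) - ...` -/
lemma comm_poly (x y z : σ) (f : MvPolynomial σ k) [DecidableEq σ] :
    X x * pderiv y (X z * f) - X z * pderiv y (X x * f)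
      = (if y = z then X x * f else 0) - (if x = y then X z * f else 0) := by
  rw [Derivation.leibniz, Derivation.leibniz, pderiv_X, pderiv_X]
  simp only [smul_eq_mul]
  by_cases h : y = z
  · subst h
    by_cases h' : x = y
    · subst h'; simp
    · rw [if_pos rfl, if_neg h', Pi.single_eq_same, Pi.single_eq_of_ne h']; ring
  · by_cases h' : x = y
    · subst h'
      rw [if_neg h, if_pos rfl, Pi.single_eq_same, Pi.single_eq_of_ne (Ne.symm h)]; ring
    · rw [if_neg h, if_neg h', Pi.single_eq_of_ne (Ne.symm h), Pi.single_eq_of_ne h']; ring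

open Classical in
lemma Hx_Rx (hdd : S.dth * S.dth = 0) {e : ℕ} (hd : d = e + 1) (x y z : σ) :
    S.Hx e x y * S.Rx e z = S.Rx e z * S.Hx e x y
      + (if y = z then S.Rx e x else 0) - (if x = y then S.Rx e z else 0) := by
  have hX : (X x : MvPolynomial σ k).IsHomogeneous 1 := isHomogeneous_X _ _
  -- `D` and `m dth`
  have a1 : S.D (X x) y * (S.m (X z) * S.dth) = S.m (X z) * S.dth * S.D (X x) y
      + (if y = z then S.m (X x) * S.dth else 0) := by
    rw [← mul_assoc, S.D_m, add_mul, mul_assoc, D_dth, ← mul_assoc, pderiv_X]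
    congr 1
    by_cases h : y = z
    · subst h; simp
    · rw [if_neg h, Pi.single_eq_of_ne (Ne.symm h)]; simp
  -- `D` and `Rb`
  have a2 : S.D (X x) y * Rb S e z = Rb S e z * S.D (X x) y
      + ∑ ν ∈ Mo σ e, S.Ee (X x * pderiv y (X z * monomial ν 1)) * S.db ν := by
    unfold Rb
    rw [Finset.mul_sum, Finset.sum_mul, ← Finset.sum_add_distrib]
    refine Finset.sum_congr rfl fun ν hν => ?_
    have hh : (X z * monomial ν (1 : k)).IsHomogeneous d := by
      rw [hd, add_comm]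
      exact (Fx.hom_X z).mul (isHomogeneous_monomial _ (mem_Mo.mp hν))
    rw [← mul_assoc, S.D_Ee y hh, add_mul, mul_assoc, D_db, ← mul_assoc]
  -- `Db` and `m dth`
  have a3 : Db S e x y * (S.m (X z) * S.dth) = S.m (X z) * S.dth * Db S e x y := by
    refine (Db_comm S e x y (fun u => ?_) (fun ν => ?_)).symm
    · rw [mul_assoc, ← S.Bb_dth, ← mul_assoc, ← S.Bb_m, mul_assoc]
    · rw [mul_assoc, ← S.dbdth, ← mul_assoc, ← S.dbm, mul_assoc]
  -- `Db` and `Rb`
  have a4 : Db S e x y * Rb S e z = Rb S e z * Db S e x y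
      - ∑ ν ∈ Mo σ e, S.Ee (X z * pderiv y (X x * monomial ν 1)) * S.db ν := by
    have e1 : ∀ ν ∈ Mo σ e, ∀ μ ∈ Mo σ e,
        S.Ee (X z * monomial μ 1) * S.db μ * (S.Bb e (pderiv y (X x * monomial ν 1)) * S.db ν)
        = S.Bb e (pderiv y (X x * monomial ν 1)) * S.db ν * (S.Ee (X z * monomial μ 1) * S.db μ)
          + coeff μ (pderiv y (X x * monomial ν (1 : k))) •
            (S.Ee.comp (LinearMap.mulLeft k (X z)) (monomial μ 1) * S.db ν) := by
      intro ν _ μ hμ
      rw [mul_assoc, ← mul_assoc (S.db μ), S.db_Bb hμ, add_mul, mul_add, smul_mul_assoc, one_mul,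
        mul_smul_comm, LinearMap.comp_apply, LinearMap.mulLeft_apply]
      congr 1
      rw [mul_assoc (S.Bb e _), mul_assoc (S.Bb e _), S.dbdb μ ν, ← mul_assoc (S.Ee _),
        ← S.Bb_Ee, mul_assoc (S.Bb e _), ← mul_assoc (S.Ee _), ← S.db_Ee, mul_assoc (S.db ν)]
    have e2 : Rb S e z * Db S e x y = Db S e x y * Rb S e z
        + ∑ ν ∈ Mo σ e, S.Ee (X z * pderiv y (X x * monomial ν 1)) * S.db ν := by
      unfold Rb Db
      rw [Finset.sum_mul_sum, Finset.sum_mul_sum, Finset.sum_comm, ← Finset.sum_add_distrib]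
      refine Finset.sum_congr rfl fun ν hν => ?_
      rw [Finset.sum_congr rfl (e1 ν hν), Finset.sum_add_distrib]
      congr 1
      have hh : (pderiv y (X x * monomial ν (1 : k))).IsHomogeneous e := by
        have h0 : (X x * monomial ν (1 : k)).IsHomogeneous (1 + e) :=
          (Fx.hom_X x).mul (isHomogeneous_monomial _ (mem_Mo.mp hν))
        have := h0.pderiv (i := y)
        rwa [Nat.add_sub_cancel_left] at this
      have := sum_coeff (S.Ee.comp (LinearMap.mulLeft k (X z))) hh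
      rw [LinearMap.comp_apply, LinearMap.mulLeft_apply] at this
      rw [← this, Finset.sum_mul]
      simp only [smul_mul_assoc]
    rw [e2]
    abel
  -- the difference of the two sums
  have a5 : (∑ ν ∈ Mo σ e, S.Ee (X x * pderiv y (X z * monomial ν 1)) * S.db ν)
      = (∑ ν ∈ Mo σ e, S.Ee (X z * pderiv y (X x * monomial ν 1)) * S.db ν)
        + (if y = z then Rb S e x else 0) - (if x = y then Rb S e z else 0) := by
    have h1 : ∀ ν ∈ Mo σ e, S.Ee (X x * pderiv y (X z * monomial ν 1)) * S.db ν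
        = S.Ee (X z * pderiv y (X x * monomial ν 1)) * S.db ν
          + ((if y = z then S.Ee (X x * monomial ν 1) * S.db ν else 0)
            - (if x = y then S.Ee (X z * monomial ν 1) * S.db ν else 0)) := by
      intro ν _
      have h := comm_poly (k := k) x y z (monomial ν 1)
      rw [sub_eq_iff_eq_add] at h
      rw [h, map_add, map_sub, add_mul, sub_mul, add_comm]
      congr 2
      · split_ifs <;> simp
      · split_ifs <;> simp
    rw [Finset.sum_congr rfl h1, Finset.sum_add_distrib, Finset.sum_sub_distrib]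
    have h2 : (∑ ν ∈ Mo σ e, if y = z then S.Ee (X x * monomial ν 1) * S.db ν else 0)
        = (if y = z then Rb S e x else 0) := by
      split_ifs
      · rfl
      · simp
    have h3 : (∑ ν ∈ Mo σ e, if x = y then S.Ee (X z * monomial ν 1) * S.db ν else 0)
        = (if x = y then Rb S e z else 0) := by
      split_ifs
      · rfl
      · simp
    rw [h2, h3]
    abel
  -- `th dth` and `m dth`
  have a6 : (if x = y then S.th * S.dth else 0) * (S.m (X z) * S.dth)
      = S.m (X z) * S.dth * (if x = y then S.th * S.dth else 0)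
        - (if x = y then S.m (X z) * S.dth else 0) := by
    split_ifs
    · have e1 : S.th * S.dth * (S.m (X z) * S.dth) = 0 := by
        rw [mul_assoc, ← mul_assoc S.dth, S.dthm, mul_assoc (S.m _), hdd, mul_zero, mul_zero]
      have e2 : S.m (X z) * S.dth * (S.th * S.dth) = S.m (X z) * S.dth := by
        rw [mul_assoc, ← mul_assoc S.dth, S.dd, sub_mul, one_mul, mul_assoc, hdd, mul_zero,
          sub_zero]
      rw [e1, e2, sub_self]
    · simp
  have a7 : (if x = y then S.th * S.dth else 0) * Rb S e z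
      = Rb S e z * (if x = y then S.th * S.dth else 0) := by
    split_ifs
    · exact thdth_Rb S e z
    · simp
  have a8 : (if y = z then S.Rx e x else 0) = (if y = z then S.m (X x) * S.dth else 0)
      + (if y = z then Rb S e x else 0) := by
    split_ifs
    · exact Rx_eq S e x
    · simp
  have a9 : (if x = y then S.Rx e z else 0) = (if x = y then S.m (X z) * S.dth else 0)
      + (if x = y then Rb S e z else 0) := by
    split_ifs
    · exact Rx_eq S e z
    · simp
  unfold Fx.Hx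
  rw [a8, a9, Rx_eq, Dx_eq]
  simp only [add_mul, mul_add]
  rw [a1, a2, a3, a4, a5, a6, a7]
  abel

lemma Rl_append (e : ℕ) (L M : List σ) : S.Rl e (L ++ M) = S.Rl e M * S.Rl e L := by
  induction L with
  | nil => simp [Fx.Rl]
  | cons y L ih => rw [List.cons_append, Fx.Rl, ih, Fx.Rl, mul_assoc]

lemma Hx_Rl_ne (hdd : S.dth * S.dth = 0) {e : ℕ} (hd : d = e + 1) {L : List σ} {x y : σ}
    (hy : y ∉ L) (hxy : x ≠ y) : S.Hx e x y * S.Rl e L = S.Rl e L * S.Hx e x y := by
  induction L with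
  | nil => simp [Fx.Rl]
  | cons z L ih =>
    rw [List.mem_cons, not_or] at hy
    rw [Fx.Rl, ← mul_assoc, ih hy.2, mul_assoc, Hx_Rx S hdd hd, if_neg hy.1, if_neg hxy, add_zero,
      sub_zero, mul_assoc]

/-- `x, y ∈ L` -/
lemma Hx_Rl [CharZero k] (hdd : S.dth * S.dth = 0) {e : ℕ} (hd : d = e + 1) {L : List σ}
    (hL : L.Nodup) {x y : σ} (hx : x ∈ L) (hy : y ∈ L) (hxy : x ≠ y) :
    S.Hx e x y * S.Rl e L = S.Rl e L * S.Hx e x y := by
  obtain ⟨L₁, L₂, rfl⟩ := List.append_of_mem hy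
  rw [List.nodup_append, List.nodup_cons] at hL
  obtain ⟨_, ⟨hy2, _⟩, hdis⟩ := hL
  have hy1 : y ∉ L₁ := fun h => hdis y h y List.mem_cons_self rfl
  have hzero : S.Rl e L₂ * S.Rx e x * S.Rl e L₁ = 0 := by
    rcases List.mem_append.mp hx with h | h
    · rw [mul_assoc, Rx_Rl_mem S hdd h, mul_zero]
    · rw [Rl_Rx_mem S hdd ((List.mem_cons.mp h).resolve_left hxy), zero_mul]
  rw [Rl_append, Fx.Rl, ← mul_assoc, ← mul_assoc, Hx_Rl_ne S hdd hd hy2 hxy,
    mul_assoc (S.Rl e L₂), Hx_Rx S hdd hd, if_pos rfl, if_neg hxy, sub_zero, mul_add, add_mul,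
    hzero, add_zero, ← mul_assoc (S.Rl e L₂), mul_assoc (S.Rl e L₂ * S.Rx e y),
    Hx_Rl_ne S hdd hd hy1 hxy, mul_assoc (S.Rl e L₂ * S.Rx e y)]

lemma Hx_Rl_notMem (hdd : S.dth * S.dth = 0) {e : ℕ} (hd : d = e + 1) {L : List σ} {x : σ}
    (hx : x ∉ L) : S.Hx e x x * S.Rl e L
      = S.Rl e L * S.Hx e x x - (L.length : k) • S.Rl e L := by
  induction L with
  | nil => simp [Fx.Rl]
  | cons z L ih =>
    rw [List.mem_cons, not_or] at hx
    rw [Fx.Rl, ← mul_assoc, ih hx.2, sub_mul, mul_assoc, Hx_Rx S hdd hd, if_neg hx.1, if_pos rfl,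
      add_zero, mul_sub, smul_mul_assoc, List.length_cons, Nat.cast_succ, add_smul, one_smul,
      mul_assoc]
    abel

lemma Hx_Rl_self [CharZero k] (hdd : S.dth * S.dth = 0) {e : ℕ} (hd : d = e + 1) {L : List σ}
    (hL : L.Nodup) {x : σ} (hx : x ∈ L) : S.Hx e x x * S.Rl e L
      = S.Rl e L * S.Hx e x x - ((L.length : k) - 1) • S.Rl e L := by
  induction L with
  | nil => simp at hx
  | cons z L ih =>
    rw [List.nodup_cons] at hL
    by_cases h : x = z
    · subst h
      rw [Fx.Rl, ← mul_assoc, Hx_Rl_notMem S hdd hd hL.1, sub_mul, mul_assoc, Hx_Rx S hdd hd,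
        if_pos rfl, smul_mul_assoc, List.length_cons, Nat.cast_succ,
        add_sub_cancel_right, add_sub_cancel_right, mul_assoc]
    · rw [Fx.Rl, ← mul_assoc, ih hL.2 ((List.mem_cons.mp hx).resolve_left h), sub_mul, mul_assoc,
        Hx_Rx S hdd hd, if_neg h, if_pos rfl, add_zero, mul_sub, smul_mul_assoc,
        List.length_cons, Nat.cast_succ, add_sub_cancel_right, mul_assoc, sub_smul, one_smul]
      abel

/-! `Hx` and the odd letter, the slots -/

open Classical in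
lemma Hx_th {e : ℕ} (x y : σ) :
    S.Hx e x y * S.th = S.th * S.Hx e x y + (if x = y then S.th else 0) := by
  have h1 : Db S e x y * S.th = S.th * Db S e x y :=
    (Db_comm S e x y (fun u => (S.Bb_th e u).symm) (fun ν => (S.dbth ν).symm)).symm
  have h2 : (if x = y then S.th * S.dth else 0) * S.th
      = S.th * (if x = y then S.th * S.dth else 0) + (if x = y then S.th else 0) := by
    split_ifs
    · rw [mul_assoc, S.dd, mul_sub, mul_one, ← mul_assoc, S.thth, zero_mul]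
      abel
    · simp
  unfold Fx.Hx
  rw [Dx_eq, add_mul, add_mul, S.D_th, h1, h2, mul_add, mul_add]
  abel

lemma Hx_b {e : ℕ} (x y : σ) {ν : σ →₀ ℕ} (hν : ν ∈ Mo σ e) :
    S.Hx e x y * S.b ν = S.b ν * S.Hx e x y + S.Bb e (pderiv y (X x * monomial ν 1)) := by
  classical
  have h1 : Db S e x y * S.b ν = S.b ν * Db S e x y + S.Bb e (pderiv y (X x * monomial ν 1)) := by
    unfold Db
    have e1 : ∀ μ ∈ Mo σ e, S.Bb e (pderiv y (X x * monomial μ 1)) * S.db μ * S.b ν
        = S.b ν * (S.Bb e (pderiv y (X x * monomial μ 1)) * S.db μ)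
          + (if μ = ν then S.Bb e (pderiv y (X x * monomial μ 1)) else 0) := by
      intro μ _
      have e2 : S.Bb e (pderiv y (X x * monomial μ 1)) * S.b ν
          = S.b ν * S.Bb e (pderiv y (X x * monomial μ 1)) := S.Bb_comm _ _ fun α => S.bb α ν
      by_cases h : μ = ν
      · subst h
        rw [if_pos rfl, mul_assoc, S.dbbs, mul_add, mul_one, ← mul_assoc, e2, mul_assoc]
      · rw [if_neg h, add_zero, mul_assoc, S.dbb μ ν h, ← mul_assoc, e2, mul_assoc]
    rw [Finset.sum_mul, Finset.sum_congr rfl e1, Finset.sum_add_distrib, ← Finset.mul_sum,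
      Finset.sum_ite_eq' (Mo σ e) ν, if_pos hν]
  have h2 : (if x = y then S.th * S.dth else 0) * S.b ν
      = S.b ν * (if x = y then S.th * S.dth else 0) := by
    split_ifs
    · rw [mul_assoc, ← S.bdth, ← mul_assoc, ← S.bth, mul_assoc]
    · simp
  unfold Fx.Hx
  rw [Dx_eq, add_mul, add_mul, D_b, h1, h2, mul_add, mul_add]
  abel

/-- the diagonal case -/
lemma Hx_b_self {e : ℕ} (x : σ) {ν : σ →₀ ℕ} (hν : ν ∈ Mo σ e) :
    S.Hx e x x * S.b ν = S.b ν * S.Hx e x x + ((ν x : k) + 1) • S.b ν := by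
  classical
  rw [Hx_b S x x hν]
  congr 1
  have h1 : pderiv x (X x * monomial ν (1 : k)) = ((ν x : k) + 1) • monomial ν 1 := by
    rw [Derivation.leibniz, pderiv_X_self, smul_eq_mul, smul_eq_mul, mul_one,
      X_mul_pderiv_monomial, add_smul, one_smul, Nat.cast_smul_eq_nsmul]
  have h2 : S.Bb e (monomial ν (1 : k)) = S.b ν := by
    rw [Fx.Bb_apply, Finset.sum_eq_single ν]
    · simp
    · intro μ _ h
      rw [coeff_monomial, if_neg (Ne.symm h), zero_smul]
    · intro h; exact absurd hν h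
  rw [h1, map_smul, h2]

lemma Hx_bl_self {e : ℕ} (x : σ) {l : List (σ →₀ ℕ)} (hl : ∀ ν ∈ l, ν ∈ Mo σ e) :
    S.Hx e x x * bl S l = bl S l * S.Hx e x x
      + (((cs x l : ℕ) : k) + (l.length : k)) • bl S l := by
  induction l with
  | nil => simp [bl, cs]
  | cons ν l ih =>
    have h1 : (cs x (ν :: l) : ℕ) = ν x + cs x l := by simp [cs]
    rw [bl, ← mul_assoc, Hx_b_self S x (hl ν List.mem_cons_self), add_mul, mul_assoc,
      ih (fun μ hμ => hl μ (List.mem_cons_of_mem _ hμ)), h1, List.length_cons, Nat.cast_add,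
      Nat.cast_succ, mul_add, mul_smul_comm, smul_mul_assoc, mul_assoc, add_assoc, ← add_smul]
    congr 2
    ring

/-! `J`, `T`, `m`, `db` and `Tz`, `Rx` -/

lemma J_Tz (e : ℕ) (z : σ) (μ : σ →₀ ℕ) : S.J μ * S.Tz e z = -(S.Tz e z * S.J μ) := by
  rw [S.Tz_eq, mul_add, S.J_Gz, ← mul_assoc, show S.J μ * S.th = -(S.th * S.J μ) by
    rw [S.thJ, neg_neg], neg_mul, mul_assoc, ← S.TJ, add_mul, mul_assoc]
  abel

lemma T_Tz (e : ℕ) (z x : σ) : S.T x * S.Tz e z = S.Tz e z * S.T x := by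
  have h : S.T x * S.Gz e z = S.Gz e z * S.T x := by
    have := S.T_GG e [z] x
    simpa [Fx.Gl] using this
  rw [S.Tz_eq, mul_add, h, ← mul_assoc, ← S.thT, mul_assoc, S.TT x z, add_mul, mul_assoc]

lemma T_Rx_ne (e : ℕ) {x y : σ} (h : x ≠ y) : S.T y * S.Rx e x = S.Rx e x * S.T y := by
  classical
  have h1 : S.T y * Rb S e x = Rb S e x * S.T y :=
    Rb_comm S e x (fun u => S.TEe y u) (fun ν => (S.dbT ν y).symm)
  rw [Rx_eq, mul_add, h1, ← mul_assoc, S.Tm, pderiv_X_of_ne h, map_zero, add_zero, mul_assoc,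
    ← S.dthT, add_mul, mul_assoc]

lemma m_Rx (e : ℕ) (x : σ) (a : MvPolynomial σ k) : S.m a * S.Rx e x = S.Rx e x * S.m a := by
  rw [Rx_eq, mul_add, m_Rb, ← mul_assoc, S.mm, mul_assoc, ← S.dthm, add_mul, mul_assoc]

lemma m_Rl (e : ℕ) (L : List σ) (a : MvPolynomial σ k) : S.m a * S.Rl e L = S.Rl e L * S.m a := by
  induction L with
  | nil => simp [Fx.Rl]
  | cons y L ih => rw [Fx.Rl, ← mul_assoc, ih, mul_assoc, m_Rx, mul_assoc]

/-- `R_x` on a vector without odd letter, after multiplication by the odd letter -/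
lemma Rx_th (e : ℕ) (x : σ) : S.Rx e x * S.th = S.m (X x) - S.m (X x) * (S.th * S.dth)
      - S.th * ∑ ν ∈ Mo σ e, S.Ee (X x * monomial ν 1) * S.db ν := by
  have h : S.th * (∑ ν ∈ Mo σ e, S.Ee (X x * monomial ν 1) * S.db ν) = -(Rb S e x * S.th) :=
    th_Rb S e x
  rw [Rx_eq, add_mul, h, mul_assoc, S.dd, mul_sub, mul_one]
  abel

end ring

end Pool.Agent.H10.OP
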