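import Pool.Agent.H10.OP.Sg

/-!
# OPS-B2: the spaces `XM`, `XB`, `XG`

Analogues of the lemmas on `BB` in `Pool/Agent/H20/S3/Cap4.lean` with the type `(s, i)` and with
allowed slots only.
-/

set_option autoImplicit false
set_option linter.unusedSectionVars false

open MvPolynomial

namespace Pool.Agent.H10.OP

open Pool.Agent.H27.OP Pool.Agent.H20.S3

variable {σ k : Type*} [Fintype σ] [Field k]

/-! ### lists of slots -/

private lemma xm_cs_cons (c : σ) (ν : σ →₀ ℕ) (l : List (σ →₀ ℕ)) :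
    cs c (ν :: l) = ν c + cs c l := by
  simp [cs]

private lemma xm_cs_le {c : σ} {Z : Finset σ} (l : List (σ →₀ ℕ)) (h : ∀ ν ∈ l, Good c Z ν) :
    cs c l ≤ l.length := by
  induction l with
  | nil => simp [cs]
  | cons ν l ih =>
    have h1 := (h ν List.mem_cons_self).1
    have h2 := ih fun μ hμ => h μ (List.mem_cons_of_mem _ hμ)
    rw [xm_cs_cons, List.length_cons]
    omega

open Classical in
private lemma xm_cs_erase (c : σ) {ν : σ →₀ ℕ} (l : List (σ →₀ ℕ)) (h : ν ∈ l) :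
    cs c l = ν c + cs c (l.erase ν) := by
  have h1 := List.perm_cons_erase h
  have h2 := (h1.map (fun ν : σ →₀ ℕ => ν c)).sum_eq
  have h3 : cs c l = cs c (ν :: l.erase ν) := h2
  rw [h3, xm_cs_cons]

open Classical in
private lemma xm_len_erase {ν : σ →₀ ℕ} (l : List (σ →₀ ℕ)) (h : ν ∈ l) :
    l.length = (l.erase ν).length + 1 := by
  have h1 := (List.perm_cons_erase h).length_eq
  rwa [List.length_cons] at h1

variable {F : Type*} [AddCommGroup F] [Module k F] {d : ℕ}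
variable {S : Fk σ k (Module.End k F) d}
variable {XF : Type*} [AddCommGroup XF] [Module k XF] (Y : Xt S XF)
variable {c : σ} {Z : Finset σ} {e q s i m : ℕ} {M M' : ℕ → ℕ → Submodule k F} {ξ : XF}

private lemma xm_bl_perm {l l' : List (σ →₀ ℕ)} (h : l.Perm l') : bl Y.S' l = bl Y.S' l' := by
  induction h with
  | nil => rfl
  | cons ν _ ih => rw [bl, bl, ih]
  | swap ν μ l => rw [bl, bl, bl, bl, ← mul_assoc, ← mul_assoc, Y.S'.bb]
  | trans _ _ ih1 ih2 => rw [ih1, ih2]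

/-- an operator which commutes with the slots -/
private lemma xm_bl_op (X' : Module.End k XF) (hb : ∀ ν, Y.S'.b ν * X' = X' * Y.S'.b ν)
    (l : List (σ →₀ ℕ)) (w : XF) : X' (bl Y.S' l w) = bl Y.S' l (X' w) := by
  have h3 := congrArg (fun f : Module.End k XF => f w) (bl_comm Y.S' l hb)
  simp only [Module.End.mul_apply] at h3
  exact h3.symm

open Classical in
private lemma xm_db_bl (ν : σ →₀ ℕ) (l : List (σ →₀ ℕ)) (y : F) :
    Y.S'.db ν (bl Y.S' l (Y.j y)) = (l.count ν : k) • bl Y.S' (l.erase ν) (Y.j y) := by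
  induction l with
  | nil =>
    rw [bl, Module.End.one_apply, Y.j_db, List.count_nil, Nat.cast_zero, zero_smul]
  | cons μ l ih =>
    by_cases h : ν = μ
    · subst h
      have h2 := congrArg (fun f : Module.End k XF => f (bl Y.S' l (Y.j y))) (Y.S'.dbbs ν)
      simp only [Module.End.mul_apply, LinearMap.add_apply, Module.End.one_apply] at h2
      rw [bl, Module.End.mul_apply, h2, ih, map_smul, List.erase_cons_head,
        List.count_cons_self, Nat.cast_succ, add_smul, one_smul]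
      congr 1
      by_cases h3 : ν ∈ l
      · congr 1
        have h4 := xm_bl_perm Y (List.perm_cons_erase h3)
        rw [h4, bl, Module.End.mul_apply]
      · rw [List.count_eq_zero_of_not_mem h3, Nat.cast_zero, zero_smul, zero_smul]
    · have h2 := congrArg (fun f : Module.End k XF => f (bl Y.S' l (Y.j y))) (Y.S'.dbb ν μ h)
      simp only [Module.End.mul_apply] at h2
      have h5 : (μ :: l).erase ν = μ :: l.erase ν :=
        List.erase_cons_tail (by simpa using Ne.symm h)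
      rw [bl, Module.End.mul_apply, h2, ih, map_smul, h5, bl, Module.End.mul_apply,
        List.count_cons_of_ne (Ne.symm h)]

/-- induction over the generators -/
private lemma xm_ind {P : Submodule k XF} (h : ξ ∈ XM Y c Z e M q s i)
    (hP : ∀ l : List (σ →₀ ℕ), (∀ ν ∈ l, ν ∈ Mo σ e ∧ Good c Z ν) → l.length = q →
      ∀ s' i' : ℕ, s' + q = s + cs c l → i' + cs c l = i → ∀ y ∈ M s' i',
      bl Y.S' l (Y.j y) ∈ P) : ξ ∈ P := by
  have h1 : XM Y c Z e M q s i ≤ P := by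
    unfold XM
    rw [Submodule.span_le]
    rintro ξ ⟨l, h1, h2, s', i', h3, h4, y, hy, rfl⟩
    exact hP l h1 h2 s' i' h3 h4 y hy
  exact h1 h

private lemma xm_mem {l : List (σ →₀ ℕ)} (h1 : ∀ ν ∈ l, ν ∈ Mo σ e ∧ Good c Z ν)
    (h2 : l.length = q) {s' i' : ℕ} (h3 : s' + q = s + cs c l) (h4 : i' + cs c l = i) {y : F}
    (hy : y ∈ M s' i') : bl Y.S' l (Y.j y) ∈ XM Y c Z e M q s i :=
  Submodule.subset_span ⟨l, h1, h2, s', i', h3, h4, y, hy, rfl⟩

lemma XM_mono (h : ∀ s' i', M s' i' ≤ M' s' i') : XM Y c Z e M q s i ≤ XM Y c Z e M' q s i :=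
  fun _ hξ => xm_ind Y hξ fun _ h1 h2 _ _ h3 h4 _ hy => xm_mem Y h1 h2 h3 h4 (h _ _ hy)

private lemma xm_le_BB : XM Y c Z e M q s i ≤ BB Y e q ⊤ :=
  fun _ hξ => xm_ind Y hξ fun l h1 h2 _ _ _ _ y _ =>
    Submodule.subset_span ⟨l, fun ν hν => (h1 ν hν).1, h2, y, Submodule.mem_top, rfl⟩

/-- `XM` with `q = 0` -/
lemma XM_zero (h : ξ ∈ XM Y c Z e M 0 s i) : ∃ y ∈ M s i, ξ = Y.j y := by
  have h1 : ξ ∈ (M s i).map Y.j := by
    refine xm_ind Y h fun l _ h2 s' i' h3 h4 y hy => ?_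
    have hl : l = [] := List.length_eq_zero_iff.mp h2
    subst hl
    have h5 : cs c ([] : List (σ →₀ ℕ)) = 0 := by simp [cs]
    rw [h5] at h3 h4
    have h6 : s' = s := by omega
    have h7 : i' = i := by omega
    subst h6
    subst h7
    rw [bl, Module.End.one_apply]
    exact Submodule.mem_map_of_mem hy
  obtain ⟨y, hy, h2⟩ := Submodule.mem_map.mp h1
  exact ⟨y, hy, h2.symm⟩

lemma j_mem_XM {y : F} (h : y ∈ M s i) : Y.j y ∈ XM Y c Z e M 0 s i := by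
  have h1 := xm_mem (c := c) (Z := Z) (e := e) (q := 0) (s := s) (i := i) Y (l := [])
    (fun ν hν => absurd hν List.not_mem_nil) rfl (s' := s) (i' := i)
    (by simp [cs]) (by simp [cs]) h
  rwa [bl, Module.End.one_apply] at h1

/-- an operator which commutes with the slots and which preserves the types -/
lemma XM_op (X' : Module.End k XF) (X0 : Module.End k F) (hb : ∀ ν, Y.S'.b ν * X' = X' * Y.S'.b ν)
    (hj : ∀ w, X' (Y.j w) = Y.j (X0 w)) (hM : ∀ s' i', ∀ w ∈ M s' i', X0 w ∈ M' s' i')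
    (h : ξ ∈ XM Y c Z e M q s i) : X' ξ ∈ XM Y c Z e M' q s i := by
  refine xm_ind (P := (XM Y c Z e M' q s i).comap X') Y h fun l h1 h2 s' i' h3 h4 y hy => ?_
  rw [Submodule.mem_comap, xm_bl_op Y X' hb, hj]
  exact xm_mem Y h1 h2 h3 h4 (hM _ _ _ hy)

/-- an operator which commutes with the slots and which kills the coefficients -/
lemma XM_op0 (X' : Module.End k XF) (X0 : Module.End k F) (hb : ∀ ν, Y.S'.b ν * X' = X' * Y.S'.b ν)
    (hj : ∀ w, X' (Y.j w) = Y.j (X0 w)) (hM : ∀ s' i', ∀ w ∈ M s' i', X0 w = 0)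
    (h : ξ ∈ XM Y c Z e M q s i) : X' ξ = 0 := by
  refine LinearMap.mem_ker.mp (xm_ind (P := LinearMap.ker X') Y h
    fun l h1 h2 s' i' h3 h4 y hy => ?_)
  rw [LinearMap.mem_ker, xm_bl_op Y X' hb, hj, hM _ _ _ hy, map_zero, map_zero]

/-! operators which change the type of the coefficients -/

lemma XM_up0 (X' : Module.End k XF) (X0 : Module.End k F) (hb : ∀ ν, Y.S'.b ν * X' = X' * Y.S'.b ν)
    (hj : ∀ w, X' (Y.j w) = Y.j (X0 w)) (hM : ∀ s' i', ∀ w ∈ M s' i', X0 w ∈ M' (s' + 1) i')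
    (h : ξ ∈ XM Y c Z e M q s i) : X' ξ ∈ XM Y c Z e M' q (s + 1) i := by
  refine xm_ind (P := (XM Y c Z e M' q (s + 1) i).comap X') Y h
    fun l h1 h2 s' i' h3 h4 y hy => ?_
  rw [Submodule.mem_comap, xm_bl_op Y X' hb, hj]
  exact xm_mem Y h1 h2 (s' := s' + 1) (i' := i') (by omega) h4 (hM _ _ _ hy)

lemma XM_up1 (X' : Module.End k XF) (X0 : Module.End k F) (hb : ∀ ν, Y.S'.b ν * X' = X' * Y.S'.b ν)
    (hj : ∀ w, X' (Y.j w) = Y.j (X0 w)) (hM : ∀ s' i', ∀ w ∈ M s' i', X0 w ∈ M' s' (i' + 1))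
    (h : ξ ∈ XM Y c Z e M q s i) : X' ξ ∈ XM Y c Z e M' q s (i + 1) := by
  refine xm_ind (P := (XM Y c Z e M' q s (i + 1)).comap X') Y h
    fun l h1 h2 s' i' h3 h4 y hy => ?_
  rw [Submodule.mem_comap, xm_bl_op Y X' hb, hj]
  exact xm_mem Y h1 h2 (s' := s') (i' := i' + 1) h3 (by omega) (hM _ _ _ hy)

lemma XM_down0 (X' : Module.End k XF) (X0 : Module.End k F)
    (hb : ∀ ν, Y.S'.b ν * X' = X' * Y.S'.b ν) (hj : ∀ w, X' (Y.j w) = Y.j (X0 w))
    (hM : ∀ s' i', ∀ w ∈ M (s' + 1) i', X0 w ∈ M' s' i') (hM0 : ∀ i', ∀ w ∈ M 0 i', X0 w = 0)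
    (h : ξ ∈ XM Y c Z e M q (s + 1) i) : X' ξ ∈ XM Y c Z e M' q s i := by
  refine xm_ind (P := (XM Y c Z e M' q s i).comap X') Y h
    fun l h1 h2 s' i' h3 h4 y hy => ?_
  rw [Submodule.mem_comap, xm_bl_op Y X' hb, hj]
  rcases s' with _ | s'
  · rw [hM0 _ _ hy, map_zero, map_zero]
    exact zero_mem _
  · exact xm_mem Y h1 h2 (s' := s') (i' := i') (by omega) h4 (hM _ _ _ hy)

lemma XM_down0' (X' : Module.End k XF) (X0 : Module.End k F)
    (hb : ∀ ν, Y.S'.b ν * X' = X' * Y.S'.b ν) (hj : ∀ w, X' (Y.j w) = Y.j (X0 w))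
    (hM0 : ∀ i', ∀ w ∈ M 0 i', X0 w = 0)
    (h : ξ ∈ XM Y c Z e M q 0 i) : X' ξ = 0 := by
  refine LinearMap.mem_ker.mp (xm_ind (P := LinearMap.ker X') Y h
    fun l h1 h2 s' i' h3 h4 y hy => ?_)
  have h5 := xm_cs_le l fun ν hν => (h1 ν hν).2
  have h6 : s' = 0 := by omega
  subst h6
  rw [LinearMap.mem_ker, xm_bl_op Y X' hb, hj, hM0 _ _ hy, map_zero, map_zero]

lemma XM_down1 (X' : Module.End k XF) (X0 : Module.End k F)
    (hb : ∀ ν, Y.S'.b ν * X' = X' * Y.S'.b ν) (hj : ∀ w, X' (Y.j w) = Y.j (X0 w))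
    (hM : ∀ s' i', ∀ w ∈ M s' (i' + 1), X0 w ∈ M' s' i') (hM0 : ∀ s', ∀ w ∈ M s' 0, X0 w = 0)
    (h : ξ ∈ XM Y c Z e M q s (i + 1)) : X' ξ ∈ XM Y c Z e M' q s i := by
  refine xm_ind (P := (XM Y c Z e M' q s i).comap X') Y h
    fun l h1 h2 s' i' h3 h4 y hy => ?_
  rw [Submodule.mem_comap, xm_bl_op Y X' hb, hj]
  rcases i' with _ | i'
  · rw [hM0 _ _ hy, map_zero, map_zero]
    exact zero_mem _
  · exact xm_mem Y h1 h2 (s' := s') (i' := i') h3 (by omega) (hM _ _ _ hy)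

lemma XM_down1' (X' : Module.End k XF) (X0 : Module.End k F)
    (hb : ∀ ν, Y.S'.b ν * X' = X' * Y.S'.b ν) (hj : ∀ w, X' (Y.j w) = Y.j (X0 w))
    (hM0 : ∀ s', ∀ w ∈ M s' 0, X0 w = 0)
    (h : ξ ∈ XM Y c Z e M q s 0) : X' ξ = 0 := by
  refine LinearMap.mem_ker.mp (xm_ind (P := LinearMap.ker X') Y h
    fun l h1 h2 s' i' h3 h4 y hy => ?_)
  have h6 : i' = 0 := by omega
  subst h6
  rw [LinearMap.mem_ker, xm_bl_op Y X' hb, hj, hM0 _ _ hy, map_zero, map_zero]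

/-- multiplication by a slot: `ν c = 0` -/
lemma XM_b0 {ν : σ →₀ ℕ} (hν : ν ∈ Mo σ e) (hg : Good c Z ν) (h0 : ν c = 0)
    (h : ξ ∈ XM Y c Z e M q s i) : Y.S'.b ν ξ ∈ XM Y c Z e M (q + 1) (s + 1) i := by
  refine xm_ind (P := (XM Y c Z e M (q + 1) (s + 1) i).comap (Y.S'.b ν)) Y h
    fun l h1 h2 s' i' h3 h4 y hy => ?_
  rw [Submodule.mem_comap]
  have h5 := xm_mem (c := c) (Z := Z) (e := e) (q := q + 1) (s := s + 1) (i := i) Y (l := ν :: l)
    (fun μ hμ => by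
      rcases List.mem_cons.mp hμ with h6 | h6
      · rw [h6]; exact ⟨hν, hg⟩
      · exact h1 μ h6) (by rw [List.length_cons, h2]) (s' := s') (i' := i')
    (by rw [xm_cs_cons, h0]; omega) (by rw [xm_cs_cons, h0]; omega) hy
  rwa [bl, Module.End.mul_apply] at h5

/-- multiplication by a slot: `ν c = 1` -/
lemma XM_b1 {ν : σ →₀ ℕ} (hν : ν ∈ Mo σ e) (hg : Good c Z ν) (h0 : ν c = 1)
    (h : ξ ∈ XM Y c Z e M q s i) : Y.S'.b ν ξ ∈ XM Y c Z e M (q + 1) s (i + 1) := by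
  refine xm_ind (P := (XM Y c Z e M (q + 1) s (i + 1)).comap (Y.S'.b ν)) Y h
    fun l h1 h2 s' i' h3 h4 y hy => ?_
  rw [Submodule.mem_comap]
  have h5 := xm_mem (c := c) (Z := Z) (e := e) (q := q + 1) (s := s) (i := i + 1) Y (l := ν :: l)
    (fun μ hμ => by
      rcases List.mem_cons.mp hμ with h6 | h6
      · rw [h6]; exact ⟨hν, hg⟩
      · exact h1 μ h6) (by rw [List.length_cons, h2]) (s' := s') (i' := i')
    (by rw [xm_cs_cons, h0]; omega) (by rw [xm_cs_cons, h0]; omega) hy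
  rwa [bl, Module.End.mul_apply] at h5

/-- derivative by a slot: `ν c = 0` -/
lemma XM_db0 {ν : σ →₀ ℕ} (h0 : ν c = 0)
    (h : ξ ∈ XM Y c Z e M (q + 1) (s + 1) i) : Y.S'.db ν ξ ∈ XM Y c Z e M q s i := by
  classical
  refine xm_ind (P := (XM Y c Z e M q s i).comap (Y.S'.db ν)) Y h
    fun l h1 h2 s' i' h3 h4 y hy => ?_
  rw [Submodule.mem_comap, xm_db_bl]
  by_cases h5 : ν ∈ l
  · have h6 := xm_cs_erase c l h5
    have h7 := xm_len_erase l h5
    refine Submodule.smul_mem _ _ (xm_mem Y (fun μ hμ => h1 μ (List.mem_of_mem_erase hμ))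
      (by omega) (s' := s') (i' := i') (by omega) (by omega) hy)
  · rw [List.count_eq_zero_of_not_mem h5, Nat.cast_zero, zero_smul]
    exact zero_mem _

/-- derivative by a slot: `ν c = 1` -/
lemma XM_db1 {ν : σ →₀ ℕ} (h0 : ν c = 1)
    (h : ξ ∈ XM Y c Z e M (q + 1) s (i + 1)) : Y.S'.db ν ξ ∈ XM Y c Z e M q s i := by
  classical
  refine xm_ind (P := (XM Y c Z e M q s i).comap (Y.S'.db ν)) Y h
    fun l h1 h2 s' i' h3 h4 y hy => ?_
  rw [Submodule.mem_comap, xm_db_bl]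
  by_cases h5 : ν ∈ l
  · have h6 := xm_cs_erase c l h5
    have h7 := xm_len_erase l h5
    refine Submodule.smul_mem _ _ (xm_mem Y (fun μ hμ => h1 μ (List.mem_of_mem_erase hμ))
      (by omega) (s' := s') (i' := i') (by omega) (by omega) hy)
  · rw [List.count_eq_zero_of_not_mem h5, Nat.cast_zero, zero_smul]
    exact zero_mem _

/-- the derivative vanishes if the slot does not occur -/
private lemma xm_db_ker {ν : σ →₀ ℕ} (h : ξ ∈ XM Y c Z e M q s i)
    (hl : ∀ l : List (σ →₀ ℕ), (∀ ν ∈ l, ν ∈ Mo σ e ∧ Good c Z ν) → l.length = q →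
      ∀ s' i' : ℕ, s' + q = s + cs c l → i' + cs c l = i → ν ∉ l) : Y.S'.db ν ξ = 0 := by
  classical
  refine LinearMap.mem_ker.mp (xm_ind (P := LinearMap.ker (Y.S'.db ν)) Y h
    fun l h1 h2 s' i' h3 h4 y hy => ?_)
  rw [LinearMap.mem_ker, xm_db_bl, List.count_eq_zero_of_not_mem (hl l h1 h2 s' i' h3 h4),
    Nat.cast_zero, zero_smul]

/-- no slots of the type `ν c = 0` -/
lemma XM_db0' {ν : σ →₀ ℕ} (h0 : ν c = 0)
    (h : ξ ∈ XM Y c Z e M q 0 i) : Y.S'.db ν ξ = 0 := by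
  classical
  refine xm_db_ker Y h fun l h1 h2 s' i' h3 h4 h5 => ?_
  have h6 := xm_cs_erase c l h5
  have h7 := xm_len_erase l h5
  have h8 := xm_cs_le (l.erase ν) fun μ hμ => (h1 μ (List.mem_of_mem_erase hμ)).2
  omega

/-- no slots of the type `ν c = 1` -/
lemma XM_db1' {ν : σ →₀ ℕ} (h0 : ν c = 1)
    (h : ξ ∈ XM Y c Z e M q s 0) : Y.S'.db ν ξ = 0 := by
  classical
  refine xm_db_ker Y h fun l h1 h2 s' i' h3 h4 h5 => ?_
  have h6 := xm_cs_erase c l h5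
  omega

/-- no slots which are not allowed -/
lemma XM_db_bad {ν : σ →₀ ℕ} (hg : ¬ Good c Z ν)
    (h : ξ ∈ XM Y c Z e M q s i) : Y.S'.db ν ξ = 0 :=
  xm_db_ker Y h fun _ h1 _ _ _ _ _ h5 => hg (h1 ν h5).2

lemma XM_db_q0 {ν : σ →₀ ℕ} (h : ξ ∈ XM Y c Z e M 0 s i) : Y.S'.db ν ξ = 0 :=
  xm_db_ker Y h fun l _ h2 _ _ _ _ h5 => by
    have hl : l = [] := List.length_eq_zero_iff.mp h2
    rw [hl] at h5
    exact List.not_mem_nil h5

lemma XM_dth (h : ξ ∈ XM Y c Z e M q s i) : Y.S'.dth ξ = 0 :=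
  BB_dth Y (xm_le_BB Y h)

/-- Euler's formula in the slots -/
lemma XM_eul (h : ξ ∈ XM Y c Z e M q s i) :
    ∑ ν ∈ Mo σ e, Y.S'.b ν (Y.S'.db ν ξ) = (q : k) • ξ :=
  BB_eul Y (xm_le_BB Y h)

variable (A : Gr S)

/-- the coefficients of a cycle are cycles -/
lemma XB_ker [CharZero k] (h : ξ ∈ XB Y A c Z e q s i m) (hz : Y.S'.del ξ = 0) :
    ξ ∈ XG Y A c Z e q s i m := by
  induction q generalizing s i ξ with
  | zero =>
    obtain ⟨y, hy, rfl⟩ := XM_zero Y h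
    refine j_mem_XM Y (mem_Gam.mpr ⟨hy, ?_⟩)
    rw [j_del] at hz
    have := congrArg Y.pr hz
    rwa [Y.pr_j, map_zero] at this
  | succ q ih =>
    have h1 := XM_eul Y h
    have h2 : ((q + 1 : ℕ) : k) ≠ 0 := Nat.cast_ne_zero.mpr (Nat.succ_ne_zero q)
    have h3 : ξ = ((q + 1 : ℕ) : k)⁻¹ • ∑ ν ∈ Mo σ e, Y.S'.b ν (Y.S'.db ν ξ) := by
      rw [h1, smul_smul, inv_mul_cancel₀ h2, one_smul]
    rw [h3]
    refine Submodule.smul_mem _ _ (Submodule.sum_mem _ fun ν hν => ?_)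
    have hz' : Y.S'.del (Y.S'.db ν ξ) = 0 := by
      have h4 := congrArg (fun f : Module.End k XF => f ξ) (Y.S'.db_del ν)
      simp only [Module.End.mul_apply] at h4
      rw [← h4, hz, map_zero]
    by_cases hg : Good c Z ν
    · have h5 := hg.1
      by_cases h6 : ν c = 0
      · rcases s with _ | s
        · rw [XM_db0' Y h6 h, map_zero]
          exact zero_mem _
        · exact XM_b0 Y hν hg h6 (ih (XM_db0 Y h6 h) hz')
      · have h7 : ν c = 1 := by omega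
        rcases i with _ | i
        · rw [XM_db1' Y h7 h, map_zero]
          exact zero_mem _
        · exact XM_b1 Y hν hg h7 (ih (XM_db1 Y h7 h) hz')
    · rw [XM_db_bad Y hg h, map_zero]
      exact zero_mem _

lemma XG_del (h : ξ ∈ XG Y A c Z e q s i m) : Y.S'.del ξ = 0 :=
  XM_op0 Y Y.S'.del S.del (fun ν => b_del Y.S' ν) (fun w => j_del Y w)
    (fun _ _ _ hw => (mem_Gam.mp hw).2) h

/-- generation, coefficient by coefficient -/
lemma XG_gen (hc : c ∉ Z) (hgen : Gener S A c) (hq : s + i ≤ q + m)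
    (h : ξ ∈ XG Y A c Z e q s i (m + 1)) :
    ∃ ζ : σ → XF, (∀ x ∈ Z, ζ x ∈ XG Y A c Z e q s i m) ∧
      ξ = ∑ x ∈ Z, Y.S'.m (X x) (ζ x) := by
  unfold XG XM at h
  induction h using Submodule.span_induction with
  | mem ξ hx =>
    obtain ⟨l, h1, h2, s', i', h3, h4, y, hy, rfl⟩ := hx
    obtain ⟨ζ, h5, h6⟩ := hgen Z hc s' i' m (by omega) y hy
    refine ⟨fun x => bl Y.S' l (Y.j (ζ x)), fun x hx => xm_mem Y h1 h2 h3 h4 (h5 x hx), ?_⟩
    rw [h6, map_sum, map_sum]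
    refine Finset.sum_congr rfl fun x _ => ?_
    rw [xm_bl_op Y (Y.S'.m (X x)) (fun ν => Y.S'.bm ν _), Y.j_m]
  | zero => exact ⟨0, fun _ _ => zero_mem _, by simp⟩
  | add x y _ _ hx hy =>
    obtain ⟨u, hu, rfl⟩ := hx
    obtain ⟨v, hv, rfl⟩ := hy
    refine ⟨u + v, fun x hx => add_mem (hu x hx) (hv x hx), ?_⟩
    rw [← Finset.sum_add_distrib]
    refine Finset.sum_congr rfl fun x _ => ?_
    rw [Pi.add_apply, map_add]
  | smul t x _ hx =>
    obtain ⟨u, hu, rfl⟩ := hx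
    refine ⟨t • u, fun x hx => Submodule.smul_mem _ _ (hu x hx), ?_⟩
    rw [Finset.smul_sum]
    refine Finset.sum_congr rfl fun x _ => ?_
    rw [Pi.smul_apply, map_smul]

end Pool.Agent.H10.OP
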