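import Pool.Agent.H10.OP.Lf
import Pool.Agent.H10.OP.Xid
import Pool.Agent.H10.OP.Xm

/-!
# OPS-B3: the form of `T_L j κ` and of `R_L (τ ξ)`
-/

set_option autoImplicit false
set_option linter.unusedSectionVars false

open MvPolynomial

namespace Pool.Agent.H10.OP

open Pool.Agent.H27.OP Pool.Agent.H20.S3

variable {σ k : Type*} [Fintype σ] [Field k]
variable {F : Type*} [AddCommGroup F] [Module k F] {d : ℕ}
variable {S : Fk σ k (Module.End k F) d} (A : Gr S)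
variable {XF : Type*} [AddCommGroup XF] [Module k XF] (Y : Xt S XF)
variable {c : σ} {Z : Finset σ} {e q s i m : ℕ} {ξ : XF} {κ : F}

lemma Xtt_Bb_mon {O : Type*} [Ring O] [Algebra k O] (S : Fx σ k O d) {ν : σ →₀ ℕ}
    (hν : ν ∈ Mo σ e) (t : k) : S.Bb e (monomial ν t) = t • S.b ν := by
  classical
  rw [Fx.Bb_apply, Finset.sum_eq_single ν]
  · rw [coeff_monomial, if_pos rfl]
  · intro μ _ h
    rw [coeff_monomial, if_neg (Ne.symm h), zero_smul]
  · intro h; exact absurd hν h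

/-- good letters and slots -/
lemma Xtt_good_sub {z : σ} (hz : z ∈ Z) (hc : c ∉ Z) {μ : σ →₀ ℕ} (hg : Good c Z μ) :
    Good c Z (μ - Finsupp.single z 1) ∧ (μ - Finsupp.single z 1 : σ →₀ ℕ) c = μ c := by
  classical
  have hzc : z ≠ c := fun hh => hc (hh ▸ hz)
  have h1 : (μ - Finsupp.single z 1 : σ →₀ ℕ) c = μ c := by
    rw [Finsupp.tsub_apply, Finsupp.single_apply, if_neg hzc, Nat.sub_zero]
  refine ⟨⟨by rw [h1]; exact hg.1, fun x hx hxZ => ?_⟩, h1⟩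
  rw [Finsupp.tsub_apply, hg.2 x hx hxZ, Nat.zero_sub]

lemma Xtt_good_add {z : σ} (hz : z ∈ Z) (hc : c ∉ Z) {μ : σ →₀ ℕ} (hg : Good c Z μ) :
    Good c Z (μ + Finsupp.single z 1) ∧ (μ + Finsupp.single z 1 : σ →₀ ℕ) c = μ c := by
  classical
  have hzc : z ≠ c := fun hh => hc (hh ▸ hz)
  have h1 : (μ + Finsupp.single z 1 : σ →₀ ℕ) c = μ c := by
    rw [Finsupp.add_apply, Finsupp.single_apply, if_neg hzc, Nat.add_zero]
  refine ⟨⟨by rw [h1]; exact hg.1, fun x hx hxZ => ?_⟩, h1⟩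
  rw [Finsupp.add_apply, hg.2 x hx hxZ, Finsupp.single_apply, if_neg, Nat.zero_add]
  intro hh
  exact hxZ (hh ▸ hz)

include A

lemma Xtt_J_bad {μ : σ →₀ ℕ} (hμ : μ ∈ Mo σ d) (hg : ¬ Good c Z μ)
    (h : ξ ∈ XB Y A c Z e q s i m) : Y.S'.J μ ξ = 0 :=
  XM_op0 (M := fun s' i' => SG S A c Z s' i' m) Y (Y.S'.J μ) (S.J μ) (fun ν => Y.S'.bJ ν μ)
      (fun w => Y.j_J μ w) (fun _ _ _ hw => (mem_SG.mp hw).2.2.1 μ hμ hg) h

lemma Xtt_J0' [CharZero k] (hc : c ∉ Z) {μ : σ →₀ ℕ} (hμ : μ ∈ Mo σ d) (h0 : μ c = 0)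
    (h : ξ ∈ XB Y A c Z e q 0 i m) : Y.S'.J μ ξ = 0 :=
  XM_down0' (M := fun s' i' => SG S A c Z s' i' m) Y (Y.S'.J μ) (S.J μ) (fun ν => Y.S'.bJ ν μ)
      (fun w => Y.j_J μ w) (fun _ _ hw => SG_J0' A hc hw hμ h0) h

lemma Xtt_J1' [CharZero k] (hc : c ∉ Z) {μ : σ →₀ ℕ} (hμ : μ ∈ Mo σ d) (h0 : μ c = 1)
    (h : ξ ∈ XB Y A c Z e q s 0 m) : Y.S'.J μ ξ = 0 :=
  XM_down1' (M := fun s' i' => SG S A c Z s' i' m) Y (Y.S'.J μ) (S.J μ) (fun ν => Y.S'.bJ ν μ)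
      (fun w => Y.j_J μ w) (fun _ _ hw => SG_J1' A hc hw hμ h0) h

lemma Xtt_J0 [CharZero k] (hc : c ∉ Z) {μ : σ →₀ ℕ} (hμ : μ ∈ Mo σ d) (h0 : μ c = 0)
    (h : ξ ∈ XB Y A c Z e q (s + 1) i m) : Y.S'.J μ ξ ∈ XB Y A c Z e q s i m :=
  XM_down0 (M := fun s' i' => SG S A c Z s' i' m) (M' := fun s' i' => SG S A c Z s' i' m)
      Y (Y.S'.J μ) (S.J μ) (fun ν => Y.S'.bJ ν μ)
      (fun w => Y.j_J μ w) (fun _ _ _ hw => SG_J0 A hc hw hμ h0)
      (fun _ _ hw => SG_J0' A hc hw hμ h0) h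

lemma Xtt_J1 [CharZero k] (hc : c ∉ Z) {μ : σ →₀ ℕ} (hμ : μ ∈ Mo σ d) (h0 : μ c = 1)
    (h : ξ ∈ XB Y A c Z e q s (i + 1) m) : Y.S'.J μ ξ ∈ XB Y A c Z e q s i m :=
  XM_down1 (M := fun s' i' => SG S A c Z s' i' m) (M' := fun s' i' => SG S A c Z s' i' m)
      Y (Y.S'.J μ) (S.J μ) (fun ν => Y.S'.bJ ν μ)
      (fun w => Y.j_J μ w) (fun _ _ _ hw => SG_J1 A hc hw hμ h0)
      (fun _ _ hw => SG_J1' A hc hw hμ h0) h

/-- `Γ_z` on `XB` -/
lemma XB_Gz [CharZero k] (hd : d = e + 1) (hc : c ∉ Z) {z : σ} (hz : z ∈ Z)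
    (h : ξ ∈ XB Y A c Z e q s i m) : Y.S'.Gz e z ξ ∈ XB Y A c Z e (q + 1) s i m := by
  classical
  unfold Fx.Gz
  rw [LinearMap.sum_apply]
  refine Submodule.sum_mem _ fun μ hμ => ?_
  rw [Module.End.mul_apply]
  by_cases hg : Good c Z μ
  swap
  · rw [Xtt_J_bad A Y hμ hg h, map_zero]
    exact zero_mem _
  by_cases hzμ : μ z = 0
  · rw [pderiv_monomial, hzμ, Nat.cast_zero, mul_zero, monomial_zero, map_zero,
      LinearMap.zero_apply]
    exact zero_mem _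
  have hν : μ - Finsupp.single z 1 ∈ Mo σ e := by
    rw [mem_Mo] at hμ ⊢
    have h1 : μ = (μ - Finsupp.single z 1) + Finsupp.single z 1 := by
      rw [tsub_add_cancel_of_le]
      rw [Finsupp.single_le_iff]
      exact Nat.one_le_iff_ne_zero.mpr hzμ
    have h2 := congrArg Finsupp.degree h1
    rw [map_add, Finsupp.degree_single, hμ, hd] at h2
    exact (Nat.add_right_cancel h2).symm
  obtain ⟨hg', hc'⟩ := Xtt_good_sub hz hc hg
  rw [pderiv_monomial, Xtt_Bb_mon Y.S' hν, LinearMap.smul_apply]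
  refine Submodule.smul_mem _ _ ?_
  have h01 : μ c = 0 ∨ μ c = 1 := by have := hg.1; omega
  rcases h01 with h0 | h0
  · rcases s with _ | s
    · rw [Xtt_J0' A Y hc hμ h0 h, map_zero]
      exact zero_mem _
    · exact XM_b0 Y hν hg' (by rw [hc', h0]) (Xtt_J0 A Y hc hμ h0 h)
  · rcases i with _ | i
    · rw [Xtt_J1' A Y hc hμ h0 h, map_zero]
      exact zero_mem _
    · exact XM_b1 Y hν hg' (by rw [hc', h0]) (Xtt_J1 A Y hc hμ h0 h)

/-- coefficient derivative on `XB` -/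
lemma XB_T (hc : c ∉ Z) {z : σ} (hz : z ∈ Z)
    (h : ξ ∈ XB Y A c Z e q s i (m + 1)) : Y.S'.T z ξ ∈ XB Y A c Z e q s i m :=
  XM_op (M := fun s' i' => SG S A c Z s' i' (m + 1)) (M' := fun s' i' => SG S A c Z s' i' m)
    Y (Y.S'.T z) (S.T z) (fun ν => Y.S'.bT ν z) (fun w => Y.j_T z w)
    (fun _ _ _ hw => SG_T A hc hw hz) h

/-- products of `Γ_z` -/
lemma Xtt_Gl [CharZero k] (hd : d = e + 1) (hc : c ∉ Z) (L : List σ) :
    (∀ z ∈ L, z ∈ Z) → ∀ {m : ℕ} {κ : F}, κ ∈ SG S A c Z s i m →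
    Y.S'.Gl e L (Y.j κ) ∈ XB Y A c Z e L.length s i m := by
  induction L with
  | nil =>
    intro _ m κ h
    rw [Fx.Gl, Module.End.one_apply]
    exact j_mem_XM Y h
  | cons z L ih =>
    intro hL m κ h
    rw [Fx.Gl, Module.End.mul_apply, List.length_cons]
    exact XB_Gz A Y hd hc (hL z List.mem_cons_self)
      (ih (fun x hx => hL x (List.mem_cons_of_mem _ hx)) h)

lemma Xtt_TT [CharZero k] (hd : d = e + 1) (hc : c ∉ Z) (L : List σ) :
    (∀ z ∈ L, z ∈ Z) → ∀ {κ : F}, κ ∈ SG S A c Z s i (m + 1) →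
    ∃ ξ1 ∈ XB Y A c Z e (L.length - 1) s i m, (L = [] → ξ1 = 0) ∧
      Y.S'.Tl e L (Y.j κ) = Y.S'.Gl e L (Y.j κ) + Y.S'.th ξ1 := by
  induction L with
  | nil =>
    intro _ κ _
    refine ⟨0, zero_mem _, fun _ => rfl, ?_⟩
    rw [Fx.Tl, Fx.Gl, map_zero, add_zero]
  | cons z L ih =>
    intro hL κ h
    have hL' : ∀ x ∈ L, x ∈ Z := fun x hx => hL x (List.mem_cons_of_mem _ hx)
    have hz : z ∈ Z := hL z List.mem_cons_self
    obtain ⟨ξ, hξ, hξ0, he⟩ := ih hL' h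
    refine ⟨Y.S'.Gl e L (Y.j (S.T z κ)) - Y.S'.Gz e z ξ, ?_, by simp, ?_⟩
    · rw [List.length_cons, Nat.add_sub_cancel]
      refine sub_mem (Xtt_Gl A Y hd hc L hL' (SG_T A hc h hz)) ?_
      rcases L with _ | ⟨z', L⟩
      · rw [hξ0 rfl, map_zero]
        exact zero_mem _
      · have := XB_Gz A Y hd hc hz hξ
        rwa [List.length_cons, Nat.add_sub_cancel] at this
    · rw [Fx.Tl, Module.End.mul_apply, he, Y.S'.Tz_eq, map_add, LinearMap.add_apply,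
        LinearMap.add_apply]
      have e1 : (Y.S'.th * Y.S'.T z) (Y.S'.th ξ) = 0 := by
        have := congrArg (fun f : Module.End k XF => f ξ)
          (show Y.S'.th * Y.S'.T z * Y.S'.th = 0 by
            rw [mul_assoc, ← Y.S'.thT, ← mul_assoc, Y.S'.thth, zero_mul])
        simpa only [Module.End.mul_apply, LinearMap.zero_apply] using this
      have e2 : Y.S'.Gz e z (Y.S'.th ξ) = -(Y.S'.th (Y.S'.Gz e z ξ)) := by
        have := congrArg (fun f : Module.End k XF => f ξ) (Y.S'.th_Gz e z)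
        simp only [Module.End.mul_apply, LinearMap.neg_apply] at this
        rw [this, neg_neg]
      have e3 : (Y.S'.th * Y.S'.T z) (Y.S'.Gl e L (Y.j κ))
          = Y.S'.th (Y.S'.Gl e L (Y.j (S.T z κ))) := by
        rw [Module.End.mul_apply, ← Y.j_T]
        have := congrArg (fun f : Module.End k XF => f (Y.j κ)) (Y.S'.T_GG e L z)
        simp only [Module.End.mul_apply] at this
        rw [this]
      rw [e1, e2, e3, Fx.Gl, Module.End.mul_apply, map_sub]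
      abel

/-- the form of `T_L j κ` -/
theorem TT_split [CharZero k] (hd : d = e + 1) (hc : c ∉ Z) (hκ : κ ∈ SG S A c Z s i (m + 1))
    (L : List σ) (hL : ∀ z ∈ L, z ∈ Z) (hlen : L.length = q + 1) :
    ∃ ξ0 ∈ XB Y A c Z e (q + 1) s i (m + 1), ∃ ξ1 ∈ XB Y A c Z e q s i m,
      Y.S'.Tl e L (Y.j κ) = ξ0 + Y.S'.th ξ1 := by
  obtain ⟨ξ1, h1, -, h2⟩ := Xtt_TT A Y hd hc L hL hκ
  rw [hlen, Nat.add_sub_cancel] at h1
  refine ⟨Y.S'.Gl e L (Y.j κ), ?_, ξ1, h1, h2⟩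
  have h3 := Xtt_Gl A Y hd hc L hL hκ
  rwa [hlen] at h3

/-- the `E db` part of `R_x` on `XB` -/
lemma XB_Edb (hd : d = e + 1) (hc : c ∉ Z) {x : σ} (hx : x ∈ Z)
    (h : ξ ∈ XB Y A c Z e (q + 1) s i m) :
    (∑ ν ∈ Mo σ e, Y.S'.Ee (X x * monomial ν 1) * Y.S'.db ν) ξ ∈ XB Y A c Z e q s i m := by
  classical
  rw [LinearMap.sum_apply]
  refine Submodule.sum_mem _ fun ν hν => ?_
  rw [Module.End.mul_apply]
  by_cases hg : Good c Z ν
  swap
  · rw [XM_db_bad Y hg h, map_zero]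
    exact zero_mem _
  have hμ : ν + Finsupp.single x 1 ∈ Mo σ d := by
    rw [mem_Mo] at hν ⊢
    rw [map_add, Finsupp.degree_single, hν, hd]
  have hE : Y.S'.Ee (X x * monomial ν 1) = Y.S'.E (ν + Finsupp.single x 1) := by
    rw [X, monomial_mul, one_mul, add_comm, Fk.Ee_monomial _ hμ]
  obtain ⟨hg', hc'⟩ := Xtt_good_add hx hc hg
  rw [hE]
  have h01 : ν c = 0 ∨ ν c = 1 := by have := hg.1; omega
  rcases h01 with h0 | h0
  · rcases s with _ | s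
    · rw [XM_db0' Y h0 h, map_zero]
      exact zero_mem _
    · exact XM_up0 (M := fun s' i' => SG S A c Z s' i' m) (M' := fun s' i' => SG S A c Z s' i' m)
        Y (Y.S'.E (ν + Finsupp.single x 1)) (S.E (ν + Finsupp.single x 1))
        (fun ν' => Y.S'.bE ν' _) (fun w => Y.j_E _ w)
        (fun s' i' w hw => SG_E0 A hc hw hμ hg' (by rw [hc', h0])) (XM_db0 Y h0 h)
  · rcases i with _ | i
    · rw [XM_db1' Y h0 h, map_zero]
      exact zero_mem _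
    · exact XM_up1 (M := fun s' i' => SG S A c Z s' i' m) (M' := fun s' i' => SG S A c Z s' i' m)
        Y (Y.S'.E (ν + Finsupp.single x 1)) (S.E (ν + Finsupp.single x 1))
        (fun ν' => Y.S'.bE ν' _) (fun w => Y.j_E _ w)
        (fun s' i' w hw => SG_E1 A hc hw hμ hg' (by rw [hc', h0])) (XM_db1 Y h0 h)

/-- `R_x (τ ξ) = x ξ - τ ξ'` -/
theorem Rx_th_XB (hd : d = e + 1) (hc : c ∉ Z) {x : σ} (hx : x ∈ Z)
    (h : ξ ∈ XB Y A c Z e (q + 1) s i m) :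
    ∃ ξ' ∈ XB Y A c Z e q s i m,
      Y.S'.Rx e x (Y.S'.th ξ) = Y.S'.m (X x) ξ - Y.S'.th ξ' := by
  refine ⟨_, XB_Edb A Y hd hc hx h, ?_⟩
  have h1 := congrArg (fun f : Module.End k XF => f ξ) (Rx_th Y.S' e x)
  simp only [Module.End.mul_apply, LinearMap.sub_apply] at h1
  rw [h1, XM_dth Y h, map_zero, map_zero, sub_zero]

/-- `R_L` on `XB` -/
lemma Xtt_Rl (hd : d = e + 1) (hc : c ∉ Z) (L : List σ) : (∀ z ∈ L, z ∈ Z) →
    ∀ {ξ : XF}, ξ ∈ XB Y A c Z e L.length s i m →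
    ∃ y ∈ SG S A c Z s i m, Y.S'.Rl e L ξ = Y.j y := by
  induction L with
  | nil =>
    intro _ ξ h
    obtain ⟨y, hy, he⟩ := XM_zero Y h
    exact ⟨y, hy, by rw [Fx.Rl, Module.End.one_apply, he]⟩
  | cons x L ih =>
    intro hL ξ h
    have hx : x ∈ Z := hL x List.mem_cons_self
    rw [List.length_cons] at h
    obtain ⟨y, hy, he⟩ := ih (fun z hz => hL z (List.mem_cons_of_mem _ hz))
      (XB_Edb A Y hd hc hx h)
    refine ⟨y, hy, ?_⟩
    rw [Fx.Rl, Module.End.mul_apply, ← he]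
    congr 1
    unfold Fx.Rx
    rw [LinearMap.add_apply, Module.End.mul_apply, XM_dth Y h, map_zero, zero_add]

/-- `R_L (τ ξ) ∈ F` for `L` of length `q + 1` -/
theorem Rl_th_XB (hd : d = e + 1) (hc : c ∉ Z) (L : List σ) (hL : ∀ z ∈ L, z ∈ Z)
    (hlen : L.length = q + 1) (h : ξ ∈ XB Y A c Z e q s i m) :
    ∃ y ∈ SG S A c Z s i (m + 1), Y.S'.Rl e L (Y.S'.th ξ) = Y.j y := by
  induction L generalizing q ξ with
  | nil => simp at hlen
  | cons x L ih =>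
    have hx : x ∈ Z := hL x List.mem_cons_self
    have hL' : ∀ z ∈ L, z ∈ Z := fun z hz => hL z (List.mem_cons_of_mem _ hz)
    rw [List.length_cons, Nat.add_right_cancel_iff] at hlen
    rw [Fx.Rl, Module.End.mul_apply]
    rcases q with _ | q
    · have hnil : L = [] := List.length_eq_zero_iff.mp hlen
      subst hnil
      have h1 := congrArg (fun f : Module.End k XF => f ξ) (Rx_th Y.S' e x)
      simp only [Module.End.mul_apply, LinearMap.sub_apply] at h1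
      have h2 : (∑ ν ∈ Mo σ e, Y.S'.Ee (X x * monomial ν 1) * Y.S'.db ν) ξ = 0 := by
        rw [LinearMap.sum_apply]
        refine Finset.sum_eq_zero fun ν _ => ?_
        rw [Module.End.mul_apply, XM_db_q0 Y h, map_zero]
      obtain ⟨y, hy, he⟩ := XM_zero Y h
      refine ⟨S.m (X x) y, SG_X A hc hy hx, ?_⟩
      rw [Fx.Rl, Module.End.one_apply, h1, h2, XM_dth Y h, map_zero, map_zero, sub_zero,
        sub_zero, he, Y.j_m]
    · obtain ⟨ξ', hξ', he⟩ := Rx_th_XB A Y hd hc hx h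
      obtain ⟨y1, hy1, he1⟩ := Xtt_Rl A Y hd hc L hL' (ξ := ξ) (by rw [hlen]; exact h)
      obtain ⟨y2, hy2, he2⟩ := ih hL' hlen hξ'
      refine ⟨S.m (X x) y1 - y2, sub_mem (SG_X A hc hy1 hx) hy2, ?_⟩
      have h3 := congrArg (fun f : Module.End k XF => f ξ) (m_Rl Y.S' e L (X x))
      simp only [Module.End.mul_apply] at h3
      rw [he, map_sub, ← h3, he1, he2, Y.j_m, map_sub]

/-- `R_L (τ ξ)` is a cycle of `F` if the coefficients of `ξ` are cycles -/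
theorem Rl_th_XG (hd : d = e + 1) (hc : c ∉ Z) (L : List σ) (hL : ∀ z ∈ L, z ∈ Z)
    (hlen : L.length = q + 1) (h : ξ ∈ XG Y A c Z e q s i m) :
    ∃ y ∈ Gam S A c Z s i (m + 1), Y.S'.Rl e L (Y.S'.th ξ) = Y.j y := by
  have h0 : ξ ∈ XB Y A c Z e q s i m := XM_mono Y (fun _ _ => inf_le_left) h
  obtain ⟨y, hy, he⟩ := Rl_th_XB A Y hd hc L hL hlen h0
  refine ⟨y, mem_Gam.mpr ⟨hy, ?_⟩, he⟩
  have h1 := congrArg (fun f : Module.End k XF => f (Y.S'.th ξ)) (Y.S'.RR_dx hd L)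
  have h2 := congrArg (fun f : Module.End k XF => f ξ) (dx_th Y.S' e)
  simp only [Module.End.mul_apply, LinearMap.smul_apply, LinearMap.neg_apply] at h1 h2
  rw [h2, XG_del Y A h, map_zero, neg_zero, map_zero, he, dx_j] at h1
  have h3 : Y.j (S.del y) = 0 := by
    have h4 := congrArg (fun v => Fk.sg k L.length • v) h1
    simp only [smul_zero, smul_smul] at h4
    rw [Fk.sg_sq, one_smul] at h4
    exact h4.symm
  have h5 := congrArg Y.pr h3
  rwa [Y.pr_j, map_zero] at h5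

end Pool.Agent.H10.OP
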